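import Mathlib

set_option autoImplicit false

namespace Pool.Agent.H45Z.CP

open Finset

theorem fiber_card {Ω G : Type*} [AddCommGroup Ω] [Fintype Ω] [AddCommGroup G] [Fintype G]
    [DecidableEq G] (f : Ω → G) (φ : G → Ω) (h : ∀ ω g, f (ω + φ g) = f ω + g) (y : G) :
    Fintype.card G * (univ.filter fun ω => f ω = y).card = Fintype.card Ω := by
  have hle : ∀ a b : G, (univ.filter fun ω => f ω = a).card ≤
      (univ.filter fun ω => f ω = b).card := by
    intro a b
    apply Finset.card_le_card_of_injOn (fun ω => ω + φ (b - a))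
    · intro ω hω
      simp only [coe_filter, mem_univ, true_and, Set.mem_ofPred_eq] at hω ⊢
      rw [h, hω]; abel
    · intro x _ z _ hxz
      exact add_right_cancel hxz
  have hs : Fintype.card Ω = ∑ b : G, (univ.filter fun ω => f ω = b).card := by
    rw [← Finset.card_univ]
    exact Finset.card_eq_sum_card_fiberwise (fun _ _ => mem_univ _)
  rw [hs, Finset.sum_congr rfl (fun b _ => le_antisymm (hle b y) (hle y b))]
  simp

theorem sum_unif {Ω G : Type*} [Fintype Ω] [Fintype G] [DecidableEq G] (f : Ω → G)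
    (h : ∀ y, Fintype.card G * (univ.filter fun ω => f ω = y).card = Fintype.card Ω)
    (χ : G → ℕ) :
    Fintype.card G * ∑ ω, χ (f ω) = Fintype.card Ω * ∑ y, χ y := by
  rw [← Finset.sum_fiberwise (s := univ) (g := f) (f := fun ω => χ (f ω)), Finset.mul_sum,
    Finset.mul_sum]
  apply Finset.sum_congr rfl
  intro y _
  rw [Finset.sum_congr rfl (g := fun _ => χ y)]
  · rw [Finset.sum_const, smul_eq_mul, ← mul_assoc, h]
  · intro ω hω
    rw [(Finset.mem_filter.1 hω).2]

theorem unif_two {Ω F : Type*} [Fintype Ω] [Field F] [Fintype F] [DecidableEq F]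
    (r : Ω → F × F)
    (h : ∀ ξ : F × F, ξ ≠ 0 → ∀ y, Fintype.card F *
      (univ.filter fun ω => ξ.1 * (r ω).1 + ξ.2 * (r ω).2 = y).card = Fintype.card Ω)
    (p : F × F) :
    Fintype.card (F × F) * (univ.filter fun ω => r ω = p).card = Fintype.card Ω := by
  classical
  set q := Fintype.card F with hq
  have hq2 : 2 ≤ q := Fintype.one_lt_card
  set N := (univ.filter fun ω => r ω = p).card with hN
  have line : ∀ v : F × F, v ≠ 0 →
      (univ.filter fun ξ : F × F => ξ.1 * v.1 + ξ.2 * v.2 = 0).card = q := by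
    intro v hv
    have : q * (univ.filter fun ξ : F × F => ξ.1 * v.1 + ξ.2 * v.2 = 0).card = q * q := by
      by_cases h1 : v.1 = 0
      · have h2 : v.2 ≠ 0 := fun h2 => hv (Prod.ext h1 h2)
        have := fiber_card (fun ξ : F × F => ξ.1 * v.1 + ξ.2 * v.2) (fun g => (0, g / v.2))
          (by intro ω g; simp only [Prod.fst_add, Prod.snd_add]; field_simp; ring) 0
        rw [this]; simp [hq]
      · have := fiber_card (fun ξ : F × F => ξ.1 * v.1 + ξ.2 * v.2) (fun g => (g / v.1, 0))
          (by intro ω g; simp only [Prod.fst_add, Prod.snd_add]; field_simp; ring) 0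
        rw [this]; simp [hq]
    exact Nat.eq_of_mul_eq_mul_left (by omega) this
  have dc : ∑ ξ : F × F, (univ.filter fun ω =>
        ξ.1 * ((r ω).1 - p.1) + ξ.2 * ((r ω).2 - p.2) = 0).card =
      ∑ ω, (univ.filter fun ξ : F × F =>
        ξ.1 * ((r ω).1 - p.1) + ξ.2 * ((r ω).2 - p.2) = 0).card := by
    simp only [Finset.card_filter]
    exact Finset.sum_comm
  have lhs : (q : ℤ) * ∑ ξ : F × F, ((univ.filter fun ω =>
        ξ.1 * ((r ω).1 - p.1) + ξ.2 * ((r ω).2 - p.2) = 0).card : ℤ) =
      q * Fintype.card Ω + (q * q - 1) * Fintype.card Ω := by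
    rw [Finset.mul_sum, ← Finset.add_sum_erase _ _ (mem_univ (0 : F × F))]
    congr 1
    · simp
    · rw [Finset.sum_congr rfl (g := fun _ => (Fintype.card Ω : ℤ))]
      · rw [Finset.sum_const, Finset.card_erase_of_mem (mem_univ _), Finset.card_univ,
          Fintype.card_prod, nsmul_eq_mul, Nat.cast_sub (by nlinarith)]
        push_cast; rfl
      · intro ξ hξ
        have := h ξ (Finset.ne_of_mem_erase hξ) (ξ.1 * p.1 + ξ.2 * p.2)
        rw [← this]
        push_cast
        congr 3
        ext ω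
        simp only [Finset.mem_filter, mem_univ, true_and]
        constructor <;> intro e <;> linear_combination e
  have rhs : ∑ ω, ((univ.filter fun ξ : F × F =>
        ξ.1 * ((r ω).1 - p.1) + ξ.2 * ((r ω).2 - p.2) = 0).card : ℤ) =
      q * Fintype.card Ω + (q * q - q) * N := by
    have : ∀ ω, ((univ.filter fun ξ : F × F =>
        ξ.1 * ((r ω).1 - p.1) + ξ.2 * ((r ω).2 - p.2) = 0).card : ℤ) =
        q + (q * q - q) * (if r ω = p then 1 else 0) := by
      intro ω
      by_cases e : r ω = p
      · simp [e, hq]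
      · have := line (r ω - p) (sub_ne_zero.2 e)
        simp only [Prod.fst_sub, Prod.snd_sub] at this
        rw [this]; simp [e]
    rw [Finset.sum_congr rfl (fun ω _ => this ω), Finset.sum_add_distrib, ← Finset.mul_sum]
    simp [hN, mul_comm]
  have dc' : ∑ ξ : F × F, ((univ.filter fun ω =>
        ξ.1 * ((r ω).1 - p.1) + ξ.2 * ((r ω).2 - p.2) = 0).card : ℤ) =
      ∑ ω, ((univ.filter fun ξ : F × F =>
        ξ.1 * ((r ω).1 - p.1) + ξ.2 * ((r ω).2 - p.2) = 0).card : ℤ) := by
    exact_mod_cast dc
  rw [dc', rhs] at lhs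
  have h1 : ((q : ℤ) - 1) * (q * q * N - Fintype.card Ω) = 0 := by
    have hq0 : (q : ℤ) + 1 ≠ 0 := by positivity
    have : ((q : ℤ) - 1) * (q * q * N - Fintype.card Ω) = 0 := by
      have h2 : (q : ℤ) * (q * q - q) * N = (q + q * q - 1 - q * q) * Fintype.card Ω := by
        linear_combination lhs
      linear_combination h2
    exact this
  have h2 : (q : ℤ) * q * N = Fintype.card Ω := by
    rcases mul_eq_zero.1 h1 with h3 | h3
    · omega
    · linarith
  rw [Fintype.card_prod]
  exact_mod_cast h2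

theorem hitting_aux {κ α : Type*} [Fintype κ] [DecidableEq κ] [Nonempty κ] (𝓕 : Finset α)
    (T : α → Finset κ) (s : ℕ) (hs : ∀ a ∈ 𝓕, s ≤ (T a).card) (hsk : s ≤ Fintype.card κ)
    (h : ℕ) :
    ∃ J : Finset κ, J.card ≤ h ∧ ((𝓕.filter fun a => Disjoint (T a) J).card : ℝ) ≤
      𝓕.card * (1 - (s : ℝ) / Fintype.card κ) ^ h := by
  classical
  have hk : (0 : ℝ) < Fintype.card κ := by exact_mod_cast Fintype.card_pos
  have h0 : 0 ≤ 1 - (s : ℝ) / Fintype.card κ := by
    rw [sub_nonneg, div_le_one hk]; exact_mod_cast hsk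
  induction h with
  | zero => exact ⟨∅, le_rfl, by simp⟩
  | succ h ih =>
    obtain ⟨J, hJ, hb⟩ := ih
    set R := 𝓕.filter fun a => Disjoint (T a) J with hR
    have dc : ∑ c : κ, (R.filter fun a => c ∈ T a).card = ∑ a ∈ R, (T a).card := by
      simp only [Finset.card_filter]
      rw [Finset.sum_comm]
      apply Finset.sum_congr rfl
      intro a _
      simp
    have h1 : ∑ _c : κ, s * R.card ≤
        ∑ c : κ, Fintype.card κ * (R.filter fun a => c ∈ T a).card := by
      rw [← Finset.mul_sum (s := univ) (f := fun c => (R.filter fun a => c ∈ T a).card), dc]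
      simp only [Finset.sum_const, Finset.card_univ, smul_eq_mul]
      apply Nat.mul_le_mul_left
      rw [mul_comm, ← smul_eq_mul]
      apply Finset.card_nsmul_le_sum
      intro a ha
      exact hs a (Finset.mem_filter.1 ha).1
    obtain ⟨c, -, hc⟩ := Finset.exists_le_of_sum_le Finset.univ_nonempty h1
    refine ⟨insert c J, (Finset.card_insert_le _ _).trans (by omega), ?_⟩
    have e1 : (𝓕.filter fun a => Disjoint (T a) (insert c J)) = R.filter fun a => ¬ c ∈ T a := by
      ext a
      simp only [hR, Finset.mem_filter, Finset.disjoint_insert_right]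
      tauto
    have e2 := Finset.card_filter_add_card_filter_not (s := R) (fun a => c ∈ T a)
    have e3 : ((R.filter fun a => ¬ c ∈ T a).card : ℝ) =
        R.card - (R.filter fun a => c ∈ T a).card := by
      rw [← e2]; push_cast; ring
    have hc' : (s : ℝ) * R.card ≤ Fintype.card κ * (R.filter fun a => c ∈ T a).card := by
      exact_mod_cast hc
    have e4 : ((R.filter fun a => ¬ c ∈ T a).card : ℝ) ≤
        R.card * (1 - (s : ℝ) / Fintype.card κ) := by
      rw [e3, mul_sub, mul_one, sub_le_sub_iff_left, ← mul_div_assoc, div_le_iff₀ hk]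
      linarith
    rw [e1, pow_succ, ← mul_assoc]
    exact e4.trans (mul_le_mul_of_nonneg_right hb h0)

theorem hitting {κ α : Type*} [Fintype κ] [DecidableEq κ] [Nonempty κ] (𝓕 : Finset α)
    (T : α → Finset κ) (s : ℕ) (hs : ∀ a ∈ 𝓕, s ≤ (T a).card) (hsk : s ≤ Fintype.card κ)
    (h L : ℕ) (hL : 0 < L) (hF : 𝓕.card ≤ 2 ^ L) (hh : L * Fintype.card κ ≤ s * h) :
    ∃ J : Finset κ, J.card ≤ h ∧ ∀ a ∈ 𝓕, ∃ c ∈ J, c ∈ T a := by
  classical
  obtain ⟨J, hJ, hb⟩ := hitting_aux 𝓕 T s hs hsk h
  refine ⟨J, hJ, ?_⟩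
  have hk : (0 : ℝ) < Fintype.card κ := by exact_mod_cast Fintype.card_pos
  have h0 : 0 ≤ 1 - (s : ℝ) / Fintype.card κ := by
    rw [sub_nonneg, div_le_one hk]; exact_mod_cast hsk
  have h1 : (1 - (s : ℝ) / Fintype.card κ) ^ h ≤ Real.exp (-L) := by
    calc (1 - (s : ℝ) / Fintype.card κ) ^ h ≤ (Real.exp (-((s : ℝ) / Fintype.card κ))) ^ h := by
          apply pow_le_pow_left₀ h0
          linarith [Real.add_one_le_exp (-((s : ℝ) / Fintype.card κ))]
      _ = Real.exp (-((s : ℝ) * h / Fintype.card κ)) := by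
          rw [← Real.exp_nat_mul]; congr 1; ring
      _ ≤ Real.exp (-L) := by
          apply Real.exp_le_exp.2
          rw [neg_le_neg_iff, le_div_iff₀ hk]
          exact_mod_cast hh
  have h2 : (2 : ℝ) ^ L * Real.exp (-L) < 1 := by
    have : (2 : ℝ) ^ L < Real.exp L := by
      rw [← mul_one (L : ℝ), Real.exp_nat_mul]
      apply pow_lt_pow_left₀ _ (by norm_num) hL.ne'
      linarith [Real.exp_one_gt_d9]
    rw [Real.exp_neg, ← div_eq_mul_inv, div_lt_one (Real.exp_pos _)]
    exact this
  have hF' : (𝓕.card : ℝ) ≤ 2 ^ L := by exact_mod_cast hF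
  have h3 : ((𝓕.filter fun a => Disjoint (T a) J).card : ℝ) < 1 := by
    refine hb.trans_lt (lt_of_le_of_lt ?_ h2)
    exact mul_le_mul hF' h1 (pow_nonneg h0 _) (by positivity)
  have h4 : (𝓕.filter fun a => Disjoint (T a) J).card = 0 := by
    have : (𝓕.filter fun a => Disjoint (T a) J).card < 1 := by exact_mod_cast h3
    omega
  intro a ha
  have h5 : ¬ Disjoint (T a) J := by
    intro hd
    have : a ∈ 𝓕.filter fun a => Disjoint (T a) J := Finset.mem_filter.2 ⟨ha, hd⟩
    rw [Finset.card_eq_zero.1 h4] at this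
    simp at this
  obtain ⟨c, h6, h7⟩ := Finset.not_disjoint_iff.1 h5
  exact ⟨c, h7, h6⟩

/-- support of a vector -/
def supp {κ F : Type*} [Fintype κ] [Zero F] [DecidableEq F] (y : κ → F) : Finset κ :=
  univ.filter fun c => y c ≠ 0

theorem sparse_card {κ F : Type*} [Fintype κ] [DecidableEq κ] [Nonempty κ] [Zero F] [Fintype F]
    [DecidableEq F] (r : ℕ) :
    (univ.filter fun y : κ → F => (supp y).card ≤ r).card ≤
      (Fintype.card κ * Fintype.card F) ^ r := by
  induction r with
  | zero =>
    rw [pow_zero, Finset.card_le_one]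
    have : ∀ y : κ → F, (supp y).card ≤ 0 → y = fun _ => 0 := by
      intro y hy
      ext c
      by_contra hc
      have : c ∈ supp y := by simp [supp, hc]
      rw [Nat.le_zero, Finset.card_eq_zero] at hy
      rw [hy] at this
      simp at this
    intro a ha b hb
    rw [this a (Finset.mem_filter.1 ha).2, this b (Finset.mem_filter.1 hb).2]
  | succ r ih =>
    have hsub : (univ.filter fun y : κ → F => (supp y).card ≤ r + 1) ⊆
        ((univ.filter fun y : κ → F => (supp y).card ≤ r) ×ˢ (univ : Finset (κ × F))).image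
          (fun p => Function.update p.1 p.2.1 p.2.2) := by
      intro y hy
      have hy' := (Finset.mem_filter.1 hy).2
      obtain ⟨c, hc⟩ : ∃ c, ((supp y).erase c).card ≤ r := by
        rcases (supp y).eq_empty_or_nonempty with e | ⟨c, hc⟩
        · exact ⟨Classical.arbitrary κ, by simp [e]⟩
        · exact ⟨c, by rw [Finset.card_erase_of_mem hc]; omega⟩
      refine Finset.mem_image.2 ⟨(Function.update y c 0, (c, y c)), ?_, by simp⟩
      simp only [Finset.mem_product, Finset.mem_filter, mem_univ, true_and, and_true]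
      refine le_trans (Finset.card_le_card ?_) hc
      intro c' hc'
      simp only [supp, Finset.mem_filter, mem_univ, true_and, Finset.mem_erase] at hc' ⊢
      by_cases e : c' = c
      · subst e; simp at hc'
      · rw [Function.update_of_ne e] at hc'
        exact ⟨e, hc'⟩
    refine (Finset.card_le_card hsub).trans (Finset.card_image_le.trans ?_)
    rw [Finset.card_product, Finset.card_univ, Fintype.card_prod, pow_succ]
    exact Nat.mul_le_mul_right _ ih

theorem code_exists {ι F : Type*} [Fintype ι] [DecidableEq ι] [Nonempty ι] [Field F] [Fintype F]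
    [DecidableEq F] (S : Finset ι) (s : ℕ)
    (hs : (Fintype.card ι * Fintype.card F) ^ s < Fintype.card F ^ S.card) :
    ∃ A : ι → ι → F, ∀ y : ι → F, (supp y).card ≤ s →
      (∀ c' ∈ S, y c' + ∑ c ∈ Sᶜ, y c * A c c' = 0) → y = 0 := by
  classical
  let f : (ι → F) → (ι → S → F) → (S → F) := fun y A c' => ∑ c ∈ Sᶜ, y c * A c c'
  let bad : (ι → F) → Finset (ι → S → F) := fun y =>
    univ.filter fun A => f y A = fun c' => - y c'.1
  let Y := univ.filter fun y : ι → F => (supp y).card ≤ s ∧ ∃ c ∈ Sᶜ, y c ≠ 0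
  have hb : ∀ y ∈ Y, Fintype.card F ^ S.card * (bad y).card = Fintype.card (ι → S → F) := by
    intro y hy
    obtain ⟨c0, hc0, hy0⟩ := (Finset.mem_filter.1 hy).2.2
    have := fiber_card (f y) (fun g => Pi.single c0 (fun c' => (y c0)⁻¹ * g c')) (by
      intro A g
      ext c'
      simp only [f, Pi.add_apply, mul_add, Finset.sum_add_distrib, add_right_inj]
      rw [Finset.sum_eq_single c0]
      · simp only [Pi.single_eq_same]; field_simp
      · intro b _ hb; simp [Pi.single_eq_of_ne hb]
      · intro h; exact absurd hc0 h) (fun c' => - y c'.1)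
    simpa using this
  have hY : Y.card ≤ (Fintype.card ι * Fintype.card F) ^ s := by
    refine le_trans (Finset.card_le_card ?_) (sparse_card s)
    intro y hy
    exact Finset.mem_filter.2 ⟨mem_univ _, (Finset.mem_filter.1 hy).2.1⟩
  have hlt : (Y.biUnion bad).card < Fintype.card (ι → S → F) := by
    have h1 : Fintype.card F ^ S.card * (Y.biUnion bad).card ≤
        Y.card * Fintype.card (ι → S → F) := by
      refine (Nat.mul_le_mul_left _ Finset.card_biUnion_le).trans ?_
      rw [Finset.mul_sum, Finset.sum_congr rfl hb]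
      simp
    have h2 : Y.card * Fintype.card (ι → S → F) <
        Fintype.card F ^ S.card * Fintype.card (ι → S → F) :=
      Nat.mul_lt_mul_of_pos_right (hY.trans_lt hs) Fintype.card_pos
    exact Nat.lt_of_mul_lt_mul_left (h1.trans_lt h2)
  obtain ⟨A, -, hA⟩ := Finset.exists_mem_notMem_of_card_lt_card (t := univ) hlt
  refine ⟨fun c c' => if h : c' ∈ S then A c ⟨c', h⟩ else 0, ?_⟩
  intro y hy h0
  have h1 : ∀ c ∈ Sᶜ, y c = 0 := by
    by_contra hne
    push Not at hne
    apply hA
    refine Finset.mem_biUnion.2 ⟨y, Finset.mem_filter.2 ⟨mem_univ _, hy, hne⟩, ?_⟩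
    simp only [bad, Finset.mem_filter, mem_univ, true_and]
    ext c'
    have := h0 c'.1 c'.2
    simp only [c'.2, dite_true] at this
    simp only [f]
    linear_combination this
  ext c
  by_cases hc : c ∈ S
  · have := h0 c hc
    rw [Finset.sum_eq_zero (fun c hc => by rw [h1 c hc, zero_mul])] at this
    simpa using this
  · exact h1 c (Finset.mem_compl.2 hc)

end Pool.Agent.H45Z.CP
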