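import Pool.Agent.H45Z.CPA

set_option autoImplicit false

namespace Pool.Agent.H45Z.CP

open Finset

instance fact101 : Fact (Nat.Prime 101) := ⟨by norm_num⟩

abbrev F := ZMod 101

/-- gauge of the terminal triangle -/
noncomputable def g (x y : ℝ) : ℝ := max (x + y) (max (x - 2 * y) (y - 2 * x))

/-- gauge of the free sum of terminal triangles -/
noncomputable def G {n : ℕ} (x : Fin 2 × Fin n → ℝ) : ℝ := ∑ l, g (x (0, l)) (x (1, l))

theorem g_le {x y c : ℝ} (h1 : x + y ≤ c) (h2 : x - 2 * y ≤ c) (h3 : y - 2 * x ≤ c) :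
    g x y ≤ c := max_le h1 (max_le h2 h3)

theorem le_g1 (x y : ℝ) : x + y ≤ g x y := le_max_left _ _
theorem le_g2 (x y : ℝ) : x - 2 * y ≤ g x y := (le_max_left _ _).trans (le_max_right _ _)
theorem le_g3 (x y : ℝ) : y - 2 * x ≤ g x y := (le_max_right _ _).trans (le_max_right _ _)

theorem g_add (x y x' y' : ℝ) : g (x + x') (y + y') ≤ g x y + g x' y' := by
  apply g_le
  · linarith [le_g1 x y, le_g1 x' y']
  · linarith [le_g2 x y, le_g2 x' y']
  · linarith [le_g3 x y, le_g3 x' y']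

theorem g_smul (a x y : ℝ) (ha : 0 ≤ a) : g (a * x) (a * y) ≤ a * g x y := by
  apply g_le
  · nlinarith [le_g1 x y]
  · nlinarith [le_g2 x y]
  · nlinarith [le_g3 x y]

theorem g_nonneg (x y : ℝ) : 0 ≤ g x y := by linarith [le_g1 x y, le_g2 x y, le_g3 x y]

theorem G_add {n : ℕ} (x y : Fin 2 × Fin n → ℝ) : G (x + y) ≤ G x + G y := by
  unfold G
  rw [← Finset.sum_add_distrib]
  exact Finset.sum_le_sum fun l _ => g_add _ _ _ _

theorem G_smul {n : ℕ} (a : ℝ) (ha : 0 ≤ a) (x : Fin 2 × Fin n → ℝ) : G (a • x) ≤ a * G x := by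
  unfold G
  rw [Finset.mul_sum]
  exact Finset.sum_le_sum fun l _ => g_smul _ _ _ ha

theorem sum_iota {n : ℕ} {M : Type*} [AddCommMonoid M] (x : Fin 2 × Fin n → M) :
    ∑ c, x c = ∑ l, (x (0, l) + x (1, l)) := by
  rw [Fintype.sum_prod_type, Fin.sum_univ_two, Finset.sum_add_distrib]

theorem G_le_sum {n : ℕ} (x : Fin 2 × Fin n → ℝ) (hx : ∀ c, 0 ≤ x c) : G x ≤ ∑ c, x c := by
  rw [sum_iota]
  apply Finset.sum_le_sum
  intro l _
  apply g_le <;> linarith [hx (0, l), hx (1, l)]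

theorem G_le_abs {n : ℕ} (x : Fin 2 × Fin n → ℝ) : G x ≤ 2 * ∑ c, |x c| := by
  rw [sum_iota, Finset.mul_sum]
  apply Finset.sum_le_sum
  intro l _
  have h1 := le_abs_self (x (0, l))
  have h2 := neg_abs_le (x (0, l))
  have h3 := le_abs_self (x (1, l))
  have h4 := neg_abs_le (x (1, l))
  apply g_le <;> linarith

def psiN (a b : ℕ) : ℕ :=
  min (a + b) (min ((101 - a) % 101 + (b + 101 - a) % 101) ((101 - b) % 101 + (a + 101 - b) % 101))

def psi (α β : F) : ℕ := psiN α.val β.val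

theorem psi_zero : psi 0 0 = 0 := by decide

theorem psi_lift (α β : F) : ∃ x y : ℤ, (x : F) = α ∧ (y : F) = β ∧ g x y ≤ psi α β := by
  have ha : α.val < 101 := ZMod.val_lt α
  have hb : β.val < 101 := ZMod.val_lt β
  have h101 : ((101 : ℕ) : F) = 0 := by decide
  have e1 : ∀ γ : F, (((101 - γ.val) % 101 : ℕ) : F) = -γ := by
    intro γ
    rw [ZMod.natCast_mod, Nat.cast_sub (ZMod.val_lt γ).le, h101]; simp
  have e2 : ∀ γ δ : F, (((δ.val + 101 - γ.val) % 101 : ℕ) : F) = δ - γ := by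
    intro γ δ
    rw [ZMod.natCast_mod, Nat.cast_sub (by have := ZMod.val_lt γ; omega), Nat.cast_add, h101]
    simp
  unfold psi psiN
  rcases min_choice (α.val + β.val) (min ((101 - α.val) % 101 + (β.val + 101 - α.val) % 101)
    ((101 - β.val) % 101 + (α.val + 101 - β.val) % 101)) with h | h
  · rw [h]
    refine ⟨α.val, β.val, by simp, by simp, ?_⟩
    have := Nat.cast_nonneg (α := ℝ) α.val
    have := Nat.cast_nonneg (α := ℝ) β.val
    simp only [Int.cast_natCast, Nat.cast_add]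
    apply g_le <;> linarith
  · rw [h]
    rcases min_choice ((101 - α.val) % 101 + (β.val + 101 - α.val) % 101)
      ((101 - β.val) % 101 + (α.val + 101 - β.val) % 101) with h' | h'
    · rw [h']
      have f1 := e1 α
      have f2 := e2 α β
      generalize (101 - α.val) % 101 = u at *
      generalize (β.val + 101 - α.val) % 101 = w at *
      refine ⟨-u, w - u, by simp [f1], by simp [f1, f2], ?_⟩
      have := Nat.cast_nonneg (α := ℝ) u
      have := Nat.cast_nonneg (α := ℝ) w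
      push_cast
      apply g_le <;> linarith
    · rw [h']
      have f1 := e1 β
      have f2 := e2 β α
      generalize (101 - β.val) % 101 = u at *
      generalize (α.val + 101 - β.val) % 101 = w at *
      refine ⟨w - u, -u, by simp [f1, f2], by simp [f1], ?_⟩
      have := Nat.cast_nonneg (α := ℝ) u
      have := Nat.cast_nonneg (α := ℝ) w
      push_cast
      apply g_le <;> linarith

theorem sum_val (h : ℕ → ℕ) : ∑ t : F, h t.val = ∑ t ∈ range 101, h t :=
  Fin.sum_univ_eq_sum_range h 101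

theorem chk1 : ∑ a ∈ range 101, ∑ b ∈ range 101, psiN a b ≤ 572322 := by decide +kernel

theorem sum_psi : ∑ p : F × F, psi p.1 p.2 ≤ 572322 := by
  rw [Fintype.sum_prod_type]
  have h := chk1
  rw [← sum_val (fun a => ∑ b ∈ range 101, psiN a b)] at h
  refine le_trans (le_of_eq ?_) h
  apply Finset.sum_congr rfl
  intro a _
  exact sum_val (fun b => psiN a.val b)

def srch (f : ℕ → ℕ) : ℕ → ℕ → ℕ
  | 0, b => b
  | k + 1, b => if b ≤ 27 then b else srch f k (min b (f k))

theorem srch_spec (f : ℕ → ℕ) (k b : ℕ) (hb : ∃ j, f j ≤ b) : ∃ j, f j ≤ srch f k b := by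
  induction k generalizing b with
  | zero => exact hb
  | succ k ih =>
    unfold srch
    split_ifs
    · exact hb
    · apply ih
      obtain ⟨j, hj⟩ := hb
      rcases min_choice b (f k) with h | h <;> rw [h]
      · exact ⟨j, hj⟩
      · exact ⟨k, le_rfl⟩

def lineF (ρ t j : ℕ) : ℕ := psiN (j % 101) ((t + ρ * j) % 101)

def lineV (t j : ℕ) : ℕ := psiN t (j % 101)

theorem chk2 : ∀ ρ ∈ range 101, ∑ t ∈ range 101, srch (lineF ρ t) 101 (lineF ρ t 0) ≤ 2732 := by
  decide +kernel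

theorem chk3 : ∑ t ∈ range 101, srch (lineV t) 101 (lineV t 0) ≤ 2732 := by decide +kernel

theorem line_slope (ρ : F) : ∃ u : F → F, ∑ t, psi (u t) (t + ρ * u t) ≤ 2732 := by
  have : ∀ t : F, ∃ j, lineF ρ.val t.val j ≤ srch (lineF ρ.val t.val) 101 (lineF ρ.val t.val 0) :=
    fun t => srch_spec _ _ _ ⟨0, le_rfl⟩
  choose j hj using this
  refine ⟨fun t => (j t : F), ?_⟩
  have h1 := chk2 ρ.val (Finset.mem_range.2 (ZMod.val_lt ρ))
  rw [← sum_val (fun t => srch (lineF ρ.val t) 101 (lineF ρ.val t 0))] at h1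
  refine le_trans (Finset.sum_le_sum fun t _ => le_trans (le_of_eq ?_) (hj t)) h1
  unfold psi lineF
  have : t + ρ * (j t : F) = ((t.val + ρ.val * j t : ℕ) : F) := by simp
  rw [this, ZMod.val_natCast, ZMod.val_natCast]

theorem line_vert : ∃ u : F → F, ∑ t, psi t (u t) ≤ 2732 := by
  have : ∀ t : F, ∃ j, lineV t.val j ≤ srch (lineV t.val) 101 (lineV t.val 0) :=
    fun t => srch_spec _ _ _ ⟨0, le_rfl⟩
  choose j hj using this
  refine ⟨fun t => (j t : F), ?_⟩
  have h1 := chk3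
  rw [← sum_val (fun t => srch (lineV t) 101 (lineV t 0))] at h1
  refine le_trans (Finset.sum_le_sum fun t _ => le_trans (le_of_eq ?_) (hj t)) h1
  unfold psi lineV
  rw [ZMod.val_natCast]

/-- `γ` has an integer lift of gauge at most `μ` -/
def Rep {n : ℕ} (γ : Fin 2 × Fin n → F) (μ : ℝ) : Prop :=
  ∃ b : Fin 2 × Fin n → ℤ, (∀ c, (b c : F) = γ c) ∧ G (fun c => (b c : ℝ)) ≤ μ

theorem Rep.add {n : ℕ} {γ γ' : Fin 2 × Fin n → F} {μ μ' : ℝ} (h : Rep γ μ) (h' : Rep γ' μ') :
    Rep (γ + γ') (μ + μ') := by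
  obtain ⟨b, h1, h2⟩ := h
  obtain ⟨b', h1', h2'⟩ := h'
  refine ⟨b + b', fun c => by simp [h1, h1'], ?_⟩
  have : (fun c => ((b + b') c : ℝ)) = (fun c => (b c : ℝ)) + fun c => (b' c : ℝ) := by
    ext c; simp
  rw [this]
  exact (G_add _ _).trans (add_le_add h2 h2')

theorem Rep.mono {n : ℕ} {γ : Fin 2 × Fin n → F} {μ μ' : ℝ} (h : Rep γ μ) (h' : μ ≤ μ') :
    Rep γ μ' := by
  obtain ⟨b, h1, h2⟩ := h
  exact ⟨b, h1, h2.trans h'⟩

theorem rep_psi {n : ℕ} (γ : Fin 2 × Fin n → F) :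
    Rep γ ((∑ l, psi (γ (0, l)) (γ (1, l)) : ℕ) : ℝ) := by
  choose x y hx hy hg using fun l => psi_lift (γ (0, l)) (γ (1, l))
  refine ⟨fun c => if c.1 = 0 then x c.2 else y c.2, ?_, ?_⟩
  · rintro ⟨e, l⟩
    fin_cases e
    · simpa using hx l
    · simpa using hy l
  · unfold G
    push_cast
    apply Finset.sum_le_sum
    intro l _
    simpa using hg l

theorem rep_supp {n : ℕ} (γ : Fin 2 × Fin n → F) (J : Finset (Fin 2 × Fin n))
    (hJ : ∀ c, c ∉ J → γ c = 0) : Rep γ (101 * J.card) := by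
  refine ⟨fun c => (γ c).val, fun c => by simp, ?_⟩
  refine (G_le_sum _ (fun c => by positivity)).trans ?_
  rw [← Finset.sum_subset (Finset.subset_univ J)]
  · rw [mul_comm, ← nsmul_eq_mul]
    apply Finset.sum_le_card_nsmul
    intro c _
    have := ZMod.val_lt (γ c)
    simp only [Int.cast_natCast]
    exact_mod_cast this.le
  · intro c _ hc
    simp [hJ c hc]

end Pool.Agent.H45Z.CP
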