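import Pool.Agent.H45Z.CPB

set_option autoImplicit false

namespace Pool.Agent.H45Z.CP

open Finset Module

theorem coords {K ι Q : Type*} [Field K] [Fintype ι] [DecidableEq ι] [AddCommGroup Q] [Module K Q]
    (v : ι → Q) (s t : Set ι) (hs : LinearIndepOn K v s) (hst : s ⊆ t)
    (ht : Submodule.span K (v '' t) = ⊤) :
    ∃ (b : Finset ι) (co : ι → Q →ₗ[K] K), s ⊆ b ∧ (b : Set ι) ⊆ t ∧ b.card = finrank K Q ∧
      (∀ c, c ∉ b → co c = 0) ∧ (∀ c, ∀ c' ∈ b, co c (v c') = if c' = c then 1 else 0) ∧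
      ∀ z, ∑ c, co c z • v c = z := by
  classical
  obtain ⟨b, hbt, hsb, hspan, hli⟩ := exists_linearIndepOn_extension hs hst
  have hsp : ⊤ ≤ Submodule.span K (Set.range fun c : b => v c) := by
    rw [← ht, Submodule.span_le, ← Set.image_eq_range]
    exact hspan
  let B : Basis b K Q := Basis.mk hli hsp
  refine ⟨b.toFinset, fun c => if h : c ∈ b then B.coord ⟨c, h⟩ else 0, by simpa using hsb,
    by simpa using hbt, ?_, ?_, ?_, ?_⟩
  · rw [finrank_eq_card_basis B, Set.toFinset_card]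
  · intro c hc
    rw [Set.mem_toFinset] at hc
    simp [hc]
  · intro c c' hc'
    rw [Set.mem_toFinset] at hc'
    by_cases h : c ∈ b
    · simp only [h, dite_true]
      have := Basis.mk_coord_apply (hli := hli) (hsp := hsp) (i := ⟨c, h⟩) (j := ⟨c', hc'⟩)
      simpa [B, Subtype.ext_iff] using this
    · have : c' ≠ c := fun e => h (e ▸ hc')
      simp [h, this]
  · intro z
    conv_rhs => rw [← B.sum_repr z]
    rw [← Finset.sum_subset (Finset.subset_univ b.toFinset)]
    · rw [Finset.sum_subtype b.toFinset (p := fun c => c ∈ b) (by simp)]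
      apply Finset.sum_congr rfl
      intro c _
      simp [c.2, B]
    · intro c _ hc
      rw [Set.mem_toFinset] at hc
      simp [hc]

/-- the good-section property -/
def GoodSec (h w : Fin 2 → F) : Prop :=
  ∃ u : F → F, ∑ t, psi (t * h 0 + u t * w 0) (t * h 1 + u t * w 1) ≤ 2732

theorem blocks {n : ℕ} {Q : Type*} [AddCommGroup Q] [Module F Q] (v : Fin 2 × Fin n → Q) :
    ∃ (B : Finset (Fin n)) (h w : Fin n → Fin 2 → F),
      LinearIndepOn F v {c | c.2 ∈ B} ∧ (∀ l ∈ B, h l = ![1, 0] ∧ w l = ![0, 1]) ∧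
      (∀ l, l ∉ B → w l 0 • v (0, l) + w l 1 • v (1, l) ∈
        Submodule.span F (v '' {c | c.2 ∈ B}) ∧ GoodSec (h l) (w l)) ∧
      ∀ l e, ∃ a b : F, v (e, l) = a • (h l 0 • v (0, l) + h l 1 • v (1, l)) +
        b • (w l 0 • v (0, l) + w l 1 • v (1, l)) := by
  classical
  obtain ⟨B, hB, hmax⟩ := Finset.exists_max_image
    (univ.filter fun B : Finset (Fin n) => LinearIndepOn F v {c | c.2 ∈ B}) Finset.card
    ⟨∅, by simp⟩
  have hB' := (Finset.mem_filter.1 hB).2
  set U := Submodule.span F (v '' {c | c.2 ∈ B}) with hU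
  have dep : ∀ l, l ∉ B → v (1, l) ∈ U ∨ ∃ ρ : F, v (0, l) + ρ • v (1, l) ∈ U := by
    intro l hl
    by_contra hcon
    push Not at hcon
    have h1 : LinearIndepOn F v (insert (1, l) {c | c.2 ∈ B}) := hB'.insert hcon.1
    have h2 : LinearIndepOn F v (insert (0, l) (insert (1, l) {c | c.2 ∈ B})) := by
      apply h1.insert
      rw [Set.image_insert_eq, Submodule.mem_span_insert]
      rintro ⟨a, z, hz, e⟩
      apply hcon.2 (-a)
      rw [e]
      simpa using hz
    have h3 : ({c | c.2 ∈ insert l B} : Set (Fin 2 × Fin n)) =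
        insert (0, l) (insert (1, l) {c | c.2 ∈ B}) := by
      ext ⟨e, l'⟩
      fin_cases e <;> simp
    have := hmax (insert l B) (Finset.mem_filter.2 ⟨mem_univ _, h3 ▸ h2⟩)
    rw [Finset.card_insert_of_notMem hl] at this
    omega
  have : ∀ l, ∃ h w : Fin 2 → F, (l ∈ B → h = ![1, 0] ∧ w = ![0, 1]) ∧
      (l ∉ B → w 0 • v (0, l) + w 1 • v (1, l) ∈ U ∧ GoodSec h w) ∧
      ∀ e, ∃ a b : F, v (e, l) = a • (h 0 • v (0, l) + h 1 • v (1, l)) +
        b • (w 0 • v (0, l) + w 1 • v (1, l)) := by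
    intro l
    have std : ∀ e, ∃ a b : F, v (e, l) =
        a • ((![1, 0] : Fin 2 → F) 0 • v (0, l) + (![1, 0] : Fin 2 → F) 1 • v (1, l)) +
        b • ((![0, 1] : Fin 2 → F) 0 • v (0, l) + (![0, 1] : Fin 2 → F) 1 • v (1, l)) := by
      intro e
      fin_cases e
      · exact ⟨1, 0, by simp⟩
      · exact ⟨0, 1, by simp⟩
    by_cases hl : l ∈ B
    · exact ⟨![1, 0], ![0, 1], fun _ => ⟨rfl, rfl⟩, fun h => absurd hl h, std⟩
    · rcases dep l hl with h1 | ⟨ρ, h1⟩
      · refine ⟨![1, 0], ![0, 1], fun _ => ⟨rfl, rfl⟩, fun _ => ⟨by simpa using h1, ?_⟩, std⟩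
        obtain ⟨u, hu⟩ := line_vert
        exact ⟨u, by simpa using hu⟩
      · refine ⟨![0, 1], ![1, ρ], fun h => absurd h hl, fun _ => ⟨by simpa using h1, ?_⟩, ?_⟩
        · obtain ⟨u, hu⟩ := line_slope ρ
          exact ⟨u, by simpa [mul_comm] using hu⟩
        · intro e
          fin_cases e
          · exact ⟨-ρ, 1, by simp⟩
          · exact ⟨1, 0, by simp⟩
  choose h w h1 h2 h3 using this
  exact ⟨B, h, w, hB', h1, h2, h3⟩

theorem shift_exists {K ι Q : Type*} [Field K] [DecidableEq K] [Fintype ι] [DecidableEq ι] [AddCommGroup Q]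
    [Module K Q]
    (v : ι → Q) (co : ι → Q →ₗ[K] K) (J : Finset ι) (τ : ℕ)
    (hJ : ∀ y : ι → K, (supp y).card ≤ τ + 2 → ∑ c, y c • co c ≠ 0 →
      ∃ c ∈ J, (∑ c, y c • co c) (v c) ≠ 0)
    (y : ι → K) (hy : (supp y).card ≤ 2) (T : Finset ι) (hT : T.card ≤ τ) (z : Q)
    (hz : (∑ c, y c • co c) z ≠ 0) (hz' : ∀ c ∈ T, co c z = 0) :
    ∃ δ : ι → K, (∀ c ∈ T, co c (∑ c ∈ J, δ c • v c) = 0) ∧
      (∑ c, y c • co c) (∑ c ∈ J, δ c • v c) = 1 := by
  classical
  let N : (ι → K) →ₗ[K] Q := ∑ c ∈ J, (LinearMap.proj c : (ι → K) →ₗ[K] K).smulRight (v c)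
  have hN : ∀ δ, N δ = ∑ c ∈ J, δ c • v c := by
    intro δ; simp [N, LinearMap.sum_apply]
  set φ := ∑ c, y c • co c with hφ
  by_contra hcon
  have hker : ⨅ c : T, LinearMap.ker (co c ∘ₗ N) ≤ LinearMap.ker (φ ∘ₗ N) := by
    intro δ hδ
    simp only [Submodule.mem_iInf, LinearMap.mem_ker, LinearMap.comp_apply] at hδ ⊢
    by_contra hne
    apply hcon
    refine ⟨(φ (N δ))⁻¹ • δ, ?_, ?_⟩
    · intro c hc
      rw [← hN, map_smul, map_smul, hδ ⟨c, hc⟩, smul_zero]
    · rw [← hN, map_smul, map_smul, smul_eq_mul, inv_mul_cancel₀ hne]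
  have hmem := mem_span_of_iInf_ker_le_ker hker
  rw [Submodule.mem_span_range_iff_exists_fun] at hmem
  obtain ⟨a, ha⟩ := hmem
  let a' : ι → K := fun c => if h : c ∈ T then a ⟨c, h⟩ else 0
  have hsum : ∑ c, a' c • co c = ∑ c : T, a c • co c := by
    rw [← Finset.sum_subset (Finset.subset_univ T)]
    · rw [Finset.sum_subtype T (p := fun c => c ∈ T) (by simp)]
      apply Finset.sum_congr rfl
      intro c _
      simp [a', c.2]
    · intro c _ hc
      simp [a', hc]
  have hφ' : ∑ c, (y - a') c • co c = φ - ∑ c : T, a c • co c := by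
    rw [← hsum, hφ, ← Finset.sum_sub_distrib]
    apply Finset.sum_congr rfl
    intro c _
    ext z
    simp [sub_mul]
  obtain ⟨c, hc, hne⟩ := hJ (y - a') (by
      refine le_trans (Finset.card_le_card (t := T ∪ supp y) ?_)
        ((Finset.card_union_le _ _).trans (by omega))
      intro c hc
      simp only [supp, Finset.mem_filter, mem_univ, true_and, Finset.mem_union,
        Pi.sub_apply] at hc ⊢
      by_cases h : c ∈ T
      · exact Or.inl h
      · right; simpa [a', h] using hc) (by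
      rw [hφ']
      intro h0
      have := LinearMap.congr_fun h0 z
      simp only [LinearMap.sub_apply, LinearMap.sum_apply, LinearMap.smul_apply,
        LinearMap.zero_apply] at this
      rw [Finset.sum_eq_zero (fun c _ => by rw [hz' c.1 c.2, smul_zero]), sub_zero] at this
      exact hz this)
  apply hne
  rw [hφ']
  have h1 := LinearMap.congr_fun ha (Pi.single c 1)
  have h2 : N (Pi.single c 1) = v c := by
    rw [hN, Finset.sum_eq_single c]
    · simp
    · intro b _ hb; simp [Pi.single_eq_of_ne hb]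
    · intro h; exact absurd hc h
  simp only [LinearMap.sum_apply, LinearMap.smul_apply, LinearMap.comp_apply, h2] at h1
  simp only [LinearMap.sub_apply, LinearMap.sum_apply, LinearMap.smul_apply]
  rw [h1, sub_self]

end Pool.Agent.H45Z.CP
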