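import Pool.Agent.H45Z.CPC

set_option autoImplicit false

namespace Pool.Agent.H45Z.CP

open Finset Module

theorem cardF : Fintype.card F = 101 := ZMod.card 101

theorem cardFF : Fintype.card (F × F) = 10201 := by rw [Fintype.card_prod, cardF]

abbrev Om (n : ℕ) := (Fin 2 × Fin n → F) × (Fin n → F)

theorem core {n : ℕ} (hn : 0 < n) {Q : Type*} [AddCommGroup Q] [Module F Q]
    (v : Fin 2 × Fin n → Q) (hspan : Submodule.span F (Set.range v) = ⊤)
    (s τ L h h' : ℕ)
    (hdist : ∀ φ : Q →ₗ[F] F, φ ≠ 0 → s ≤ (supp fun c => φ (v c)).card)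
    (hsn : s ≤ 2 * n) (hτ : τ ≤ n) (hL : 0 < L) (h1 : n * 101 ^ 2 ≤ 2 ^ L)
    (h2 : L * (τ + 2) * (2 * n) ≤ s * h) (h3 : L * n ≤ τ * h') (σ : Q) :
    ∃ γ : Fin 2 × Fin n → F, ∑ c, γ c • v c = σ ∧
      Rep γ (2806 / 100 * (finrank F Q : ℝ) + 101 * h + 202 * h') := by
  classical
  haveI : Nonempty (Fin n) := ⟨⟨0, hn⟩⟩
  have cardι : Fintype.card (Fin 2 × Fin n) = 2 * n := by simp
  obtain ⟨B, hv, wv, hli, hB, hnB, hexp⟩ := blocks v
  set U := Submodule.span F (v '' {c | c.2 ∈ B}) with hU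
  obtain ⟨v', v'0, v'1⟩ : ∃ v' : Fin 2 × Fin n → Q,
      (∀ l, v' (0, l) = hv l 0 • v (0, l) + hv l 1 • v (1, l)) ∧
      (∀ l, v' (1, l) = wv l 0 • v (0, l) + wv l 1 • v (1, l)) :=
    ⟨fun c => if c.1 = 0 then hv c.2 0 • v (0, c.2) + hv c.2 1 • v (1, c.2)
      else wv c.2 0 • v (0, c.2) + wv c.2 1 • v (1, c.2), fun l => by simp, fun l => by simp⟩
  have hvB : ∀ c : Fin 2 × Fin n, c.2 ∈ B → v' c = v c := by
    rintro ⟨e, l⟩ hl
    fin_cases e
    · simp [v'0, (hB l hl).1]
    · simp [v'1, (hB l hl).2]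
  have hli' : LinearIndepOn F v' {c | c.2 ∈ B} := hli.congr (fun c hc => (hvB c hc).symm)
  have hU' : v' '' {c | c.2 ∈ B} = v '' {c | c.2 ∈ B} := Set.image_congr (fun c hc => hvB c hc)
  have hW : ∀ l, l ∉ B → v' (1, l) ∈ U := fun l hl => by rw [v'1]; exact (hnB l hl).1
  have ht : Submodule.span F (v' '' {c | c.2 ∈ B ∨ c.1 = 0}) = ⊤ := by
    rw [eq_top_iff, ← hspan, Submodule.span_le]
    rintro _ ⟨⟨e, l⟩, rfl⟩
    obtain ⟨a, b, hab⟩ := hexp l e
    rw [hab, ← v'0, ← v'1]
    refine add_mem (Submodule.smul_mem _ _ (Submodule.subset_span ⟨(0, l), Or.inr rfl, rfl⟩))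
      (Submodule.smul_mem _ _ ?_)
    by_cases hl : l ∈ B
    · exact Submodule.subset_span ⟨(1, l), Or.inl hl, rfl⟩
    · refine Submodule.span_mono ?_ (hW l hl)
      rw [← hU']
      exact Set.image_mono (fun c hc => Or.inl hc)
  obtain ⟨b, co, hsb, hbt, hcard, co0, cob, cexp⟩ :=
    coords v' {c | c.2 ∈ B} {c | c.2 ∈ B ∨ c.1 = 0} hli' (fun c hc => Or.inl hc) ht
  have hbB : ∀ e l, l ∈ B → (e, l) ∈ b := fun e l hl => hsb (show (e, l) ∈ {c | c.2 ∈ B} from hl)
  have coU : ∀ c : Fin 2 × Fin n, c.2 ∉ B → ∀ z ∈ U, co c z = 0 := by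
    intro c hc z hz
    have : U ≤ LinearMap.ker (co c) := by
      rw [hU, ← hU', Submodule.span_le]
      rintro _ ⟨c', hc', rfl⟩
      have hne : c' ≠ c := fun e => hc (e ▸ hc')
      simpa [hne] using cob c c' (hsb hc')
    exact this hz
  have co1 : ∀ l, l ∉ B → co (1, l) = 0 := by
    intro l hl
    apply co0
    intro hb
    rcases hbt hb with h | h
    · exact hl h
    · exact absurd h (by simp)
  -- the initial hitting set
  obtain ⟨J, hJc, hJ⟩ := hitting
    (univ.filter fun y : Fin 2 × Fin n → F => (supp y).card ≤ τ + 2 ∧ ∑ c, y c • co c ≠ 0)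
    (fun y => supp fun c' => (∑ c, y c • co c) (v c')) s
    (fun y hy => hdist _ (Finset.mem_filter.1 hy).2.2) (by rw [cardι]; exact hsn) h (L * (τ + 2))
    (by positivity) (by
      refine le_trans (Finset.card_le_card
        (t := univ.filter fun y : Fin 2 × Fin n → F => (supp y).card ≤ τ + 2) ?_)
        ((sparse_card _).trans ?_)
      · intro y hy
        exact Finset.mem_filter.2 ⟨mem_univ _, (Finset.mem_filter.1 hy).2.1⟩
      · rw [pow_mul, cardι, cardF]
        apply Nat.pow_le_pow_left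
        omega) (by rw [cardι]; exact h2)
  have hJ' : ∀ y : Fin 2 × Fin n → F, (supp y).card ≤ τ + 2 → ∑ c, y c • co c ≠ 0 →
      ∃ c ∈ J, (∑ c, y c • co c) (v c) ≠ 0 := by
    intro y hy hy'
    obtain ⟨c, hc, hc'⟩ := hJ y (Finset.mem_filter.2 ⟨mem_univ _, hy, hy'⟩)
    exact ⟨c, hc, (Finset.mem_filter.1 hc').2⟩
  -- the second hitting set
  let Φ : Fin n × (F × F) → Q →ₗ[F] F := fun p => p.2.1 • co (0, p.1) + p.2.2 • co (1, p.1)
  let T : Fin n × (F × F) → Finset (Fin n) := fun p =>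
    univ.filter fun l' => l' ∉ B ∧ Φ p (v' (1, l')) ≠ 0
  obtain ⟨J', hJ'c, hJ2⟩ := hitting (univ.filter fun p : Fin n × (F × F) => τ ≤ (T p).card) T τ
    (fun p hp => (Finset.mem_filter.1 hp).2) (by simpa using hτ) h' L hL (by
      refine (Finset.card_le_univ _).trans ?_
      simp only [Fintype.card_prod, Fintype.card_fin, cardF]
      omega) (by simpa using h3)
  -- sections
  have : ∀ l, ∃ u : F → F, (l ∉ B → ∑ t, psi (t * hv l 0 + u t * wv l 0)
      (t * hv l 1 + u t * wv l 1) ≤ 2732 ∨ (0, l) ∉ b) ∧ ((0, l) ∉ b → u = 0) := by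
    intro l
    by_cases hb : (0, l) ∈ b
    · by_cases hl : l ∈ B
      · exact ⟨0, fun h => absurd hl h, fun _ => rfl⟩
      · obtain ⟨u, hu⟩ := (hnB l hl).2
        exact ⟨u, fun _ => Or.inl hu, fun h => absurd hb h⟩
    · exact ⟨0, fun _ => Or.inr hb, fun _ => rfl⟩
  choose u hu hu0 using this
  let N : (Fin 2 × Fin n → F) → Q := fun ω => ∑ c ∈ J, ω c • v c
  have Nadd : ∀ ω (a : F) δ, N (ω + a • δ) = N ω + a • N δ := by
    intro ω a δ
    simp only [N, Pi.add_apply, Pi.smul_apply, smul_eq_mul, add_smul, Finset.sum_add_distrib,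
      Finset.smul_sum, mul_smul]
  let tt : Fin n → Om n → F := fun l ω => co (0, l) (σ - N ω.1)
  let coef : Fin n → Om n → F := fun l ω => u l (tt l ω) + if l ∈ J' then ω.2 l else 0
  let σ3 : Om n → Q := fun ω => σ - N ω.1 - ∑ l ∈ Bᶜ, coef l ω • v' (1, l)
  let γ1 : Om n → Fin 2 × Fin n → F := fun ω c =>
    if c.2 ∈ B then co c (σ3 ω) else tt c.2 ω * hv c.2 c.1 + u c.2 (tt c.2 ω) * wv c.2 c.1
  let γ2 : Om n → Fin 2 × Fin n → F := fun ω c => if c ∈ J then ω.1 c else 0
  let γ3 : Om n → Fin 2 × Fin n → F := fun ω c =>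
    if c.2 ∈ J' ∧ c.2 ∉ B then ω.2 c.2 * wv c.2 c.1 else 0
  have ident : ∀ ω, ∑ c, (γ1 ω + γ2 ω + γ3 ω) c • v c = σ := by
    intro ω
    have e2 : ∑ c, γ2 ω c • v c = N ω.1 := by
      simp only [γ2, N, ite_smul, zero_smul]
      rw [← Finset.sum_filter]
      simp
    have e13 : ∑ c, (γ1 ω c • v c + γ3 ω c • v c) =
        σ3 ω + ∑ l ∈ Bᶜ, coef l ω • v' (1, l) := by
      conv_rhs => rw [← cexp (σ3 ω)]
      have : ∑ l ∈ Bᶜ, coef l ω • v' (1, l) =
          ∑ l, if l ∈ B then 0 else coef l ω • v' (1, l) := by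
        rw [← Finset.sum_filter_add_sum_filter_not univ (fun l => l ∈ B)]
        rw [Finset.sum_eq_zero (s := univ.filter fun l => l ∈ B)
          (fun l hl => by rw [if_pos (Finset.mem_filter.1 hl).2]), zero_add]
        apply Finset.sum_congr (by ext; simp)
        intro l hl
        rw [if_neg (Finset.mem_filter.1 hl).2]
      rw [this, sum_iota, sum_iota, ← Finset.sum_add_distrib]
      apply Finset.sum_congr rfl
      intro l _
      by_cases hl : l ∈ B
      · simp [γ1, γ3, hl, hvB (0, l) hl, hvB (1, l) hl]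
      · have e0 : co (0, l) (σ3 ω) = tt l ω := by
          simp only [σ3, tt]
          rw [map_sub, map_sum, Finset.sum_eq_zero, sub_zero]
          intro l' hl'
          rw [map_smul, coU (0, l) hl _ (hW l' (Finset.mem_compl.1 hl')), smul_zero]
        rw [e0, co1 l hl, v'0, v'1]
        by_cases hl' : l ∈ J'
        · simp only [γ1, γ3, coef, hl, hl', if_false, if_true, not_false_eq_true, and_self,
            LinearMap.zero_apply]
          module
        · simp only [γ1, γ3, coef, hl, hl', if_false, false_and, LinearMap.zero_apply]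
          module
    have : ∑ c, (γ1 ω + γ2 ω + γ3 ω) c • v c =
        ∑ c, (γ1 ω c • v c + γ3 ω c • v c) + ∑ c, γ2 ω c • v c := by
      rw [← Finset.sum_add_distrib]
      apply Finset.sum_congr rfl
      intro c _
      simp only [Pi.add_apply, add_smul]
      abel
    rw [this, e13, e2]
    simp only [σ3]
    abel
  -- uniformity
  have single_sum : ∀ (c : Fin 2 × Fin n) (a : F),
      ∑ c', (Pi.single c a : Fin 2 × Fin n → F) c' • co c' = a • co c := by
    intro c a
    rw [Finset.sum_eq_single c]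
    · simp
    · intro b _ hb; simp [Pi.single_eq_of_ne hb]
    · simp
  have supp_single : ∀ (c : Fin 2 × Fin n) (a : F),
      supp (Pi.single c a : Fin 2 × Fin n → F) ⊆ {c} := by
    intro c a c' hc'
    by_contra hne
    rw [Finset.mem_singleton] at hne
    simp [supp, Pi.single_eq_of_ne hne] at hc'
  have utop : ∀ l, (0, l) ∈ b → ∀ y, Fintype.card F * (univ.filter fun ω => tt l ω = y).card =
      Fintype.card (Om n) := by
    intro l hl
    obtain ⟨δ, -, hδ⟩ := shift_exists v co J τ hJ' (Pi.single (0, l) 1)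
      (le_trans (Finset.card_le_card (supp_single _ _)) (by simp)) ∅ (by simp) (v' (0, l))
      (by rw [single_sum]; simp [cob (0, l) (0, l) hl]) (by simp)
    rw [single_sum, one_smul] at hδ
    apply fiber_card (tt l) (fun a => ((-a) • δ, 0))
    intro ω a
    have hδ' : co (0, l) (N δ) = 1 := hδ
    simp only [tt, Prod.fst_add, Nadd, map_sub, map_add, map_smul, hδ', smul_eq_mul]
    ring
  have ubot : ∀ l, l ∈ B → ∀ p, Fintype.card (F × F) *
      (univ.filter fun ω => (co (0, l) (σ3 ω), co (1, l) (σ3 ω)) = p).card =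
      Fintype.card (Om n) := by
    intro l hl
    apply unif_two
    intro ξ hξ
    have eΦ : ∀ ω, ξ.1 * co (0, l) (σ3 ω) + ξ.2 * co (1, l) (σ3 ω) =
        Φ (l, ξ) σ - Φ (l, ξ) (N ω.1) - ∑ l' ∈ Bᶜ, coef l' ω * Φ (l, ξ) (v' (1, l')) := by
      intro ω
      have : ξ.1 * co (0, l) (σ3 ω) + ξ.2 * co (1, l) (σ3 ω) = Φ (l, ξ) (σ3 ω) := by
        simp [Φ]
      rw [this]
      simp only [σ3, map_sub, map_sum, map_smul, smul_eq_mul]
    simp only [eΦ]
    by_cases hT : τ ≤ (T (l, ξ)).card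
    · obtain ⟨l0, hl0, hl0'⟩ := hJ2 (l, ξ) (Finset.mem_filter.2 ⟨mem_univ _, hT⟩)
      obtain ⟨hl1, hl2⟩ := (Finset.mem_filter.1 hl0').2
      apply fiber_card _ (fun a => ((0 : Fin 2 × Fin n → F),
        (Pi.single l0 (-a / Φ (l, ξ) (v' (1, l0))) : Fin n → F)))
      intro ω a
      have : ∀ l' ∈ Bᶜ, coef l' (ω + ((0 : Fin 2 × Fin n → F),
          (Pi.single l0 (-a / Φ (l, ξ) (v' (1, l0))) : Fin n → F))) * Φ (l, ξ) (v' (1, l')) =
          coef l' ω * Φ (l, ξ) (v' (1, l')) + if l' = l0 then -a else 0 := by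
        intro l' _
        by_cases e : l' = l0
        · subst e
          simp only [coef, tt, Prod.fst_add, add_zero, Prod.snd_add, Pi.add_apply, hl0, if_true,
            Pi.single_eq_same]
          field_simp
          ring
        · simp [coef, tt, Pi.single_eq_of_ne e, e]
      rw [Finset.sum_congr rfl this, Finset.sum_add_distrib, Finset.sum_ite_eq',
        if_pos (Finset.mem_compl.2 hl1)]
      simp only [Prod.fst_add, add_zero]
      ring
    · have ey : ∑ c', (Pi.single (0, l) ξ.1 + Pi.single (1, l) ξ.2 : Fin 2 × Fin n → F) c' •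
          co c' = Φ (l, ξ) := by
        simp only [Pi.add_apply, add_smul, Finset.sum_add_distrib, single_sum, Φ]
      obtain ⟨z, hz, hz'⟩ : ∃ z, Φ (l, ξ) z ≠ 0 ∧ ∀ l', l' ∉ B → co (0, l') z = 0 := by
        have hne : ∀ e l', l' ∉ B → co (0, l') (v' (e, l)) = 0 := by
          intro e l' hl'
          have : (e, l) ≠ (0, l') := fun h => hl' (by
            have e : l = l' := (Prod.ext_iff.1 h).2
            exact e ▸ hl)
          rw [cob _ _ (hbB e l hl), if_neg this]
        by_cases h0 : ξ.1 = 0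
        · have h1 : ξ.2 ≠ 0 := fun h1 => hξ (Prod.ext h0 h1)
          refine ⟨v' (1, l), ?_, hne 1⟩
          simp [Φ, cob _ _ (hbB 1 l hl), h1]
        · refine ⟨v' (0, l), ?_, hne 0⟩
          simp [Φ, cob _ _ (hbB 0 l hl), h0]
      obtain ⟨δ, hδ1, hδ⟩ := shift_exists v co J τ hJ'
        (Pi.single (0, l) ξ.1 + Pi.single (1, l) ξ.2) (by
          refine le_trans (Finset.card_le_card (t := {(0, l), (1, l)}) ?_) Finset.card_le_two
          intro c hc
          by_contra hne
          simp only [Finset.mem_insert, Finset.mem_singleton, not_or] at hne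
          simp [supp, Pi.single_eq_of_ne hne.1, Pi.single_eq_of_ne hne.2] at hc)
        ((T (l, ξ)).image fun l' => (0, l')) (Finset.card_image_le.trans (by omega)) z
        (by rw [ey]; exact hz) (by
          intro c hc
          obtain ⟨l', hl', rfl⟩ := Finset.mem_image.1 hc
          exact hz' l' (Finset.mem_filter.1 hl').2.1)
      rw [ey] at hδ
      apply fiber_card _ (fun a => (((-a) • δ : Fin 2 × Fin n → F), (0 : Fin n → F)))
      intro ω a
      have : ∀ l' ∈ Bᶜ, coef l' (ω + (((-a) • δ : Fin 2 × Fin n → F), (0 : Fin n → F))) *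
          Φ (l, ξ) (v' (1, l')) = coef l' ω * Φ (l, ξ) (v' (1, l')) := by
        intro l' hl'
        by_cases e : Φ (l, ξ) (v' (1, l')) = 0
        · rw [e, mul_zero, mul_zero]
        · have hm : l' ∈ T (l, ξ) :=
            Finset.mem_filter.2 ⟨mem_univ _, Finset.mem_compl.1 hl', e⟩
          have h0 : co (0, l') (N δ) = 0 := hδ1 _ (Finset.mem_image.2 ⟨l', hm, rfl⟩)
          simp only [coef, tt, Prod.fst_add, Nadd, Prod.snd_add, add_zero, map_sub, map_add,
            map_smul, h0, smul_zero]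
      rw [Finset.sum_congr rfl this]
      have hδ' : Φ (l, ξ) (N δ) = 1 := hδ
      simp only [Prod.fst_add, Nadd, map_add, map_smul, hδ', smul_eq_mul]
      ring
  -- averaging
  let ρ : Fin n → ℕ := fun l => (if (0, l) ∈ b then 1 else 0) + if (1, l) ∈ b then 1 else 0
  have hρ : ∑ l, ρ l = finrank F Q := by
    rw [← hcard, ← sum_iota (fun c => if c ∈ b then 1 else 0)]
    simp
  have hcost : ∀ l, 100 * ∑ ω, psi (γ1 ω (0, l)) (γ1 ω (1, l)) ≤
      Fintype.card (Om n) * (2806 * ρ l) := by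
    intro l
    by_cases hl : l ∈ B
    · have e1 := sum_unif _ (ubot l hl) (fun p => psi p.1 p.2)
      have e2 := sum_psi
      rw [cardFF] at e1
      have e3 : ρ l = 2 := by simp [ρ, hbB _ l hl]
      simp only [γ1, hl, if_true, e3]
      have e4 := Nat.mul_le_mul_left (Fintype.card (Om n)) e2
      simp only at e1
      omega
    · rcases hu l hl with e2 | e2
      · by_cases hb : (0, l) ∈ b
        · have e1 := sum_unif _ (utop l hb) (fun t => psi (t * hv l 0 + u l t * wv l 0)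
            (t * hv l 1 + u l t * wv l 1))
          rw [cardF] at e1
          have e3 : 1 ≤ ρ l := by simp [ρ, hb]
          simp only [γ1, hl, if_false]
          have e4 := Nat.mul_le_mul_left (Fintype.card (Om n)) e2
          have e5 := Nat.mul_le_mul_left (Fintype.card (Om n)) (Nat.mul_le_mul_left 2806 e3)
          omega
        · simp [γ1, hl, tt, co0 _ hb, hu0 l hb, psi_zero]
      · simp [γ1, hl, tt, co0 _ e2, hu0 l e2, psi_zero]
  have havg : ∑ ω : Om n, 100 * ∑ l, psi (γ1 ω (0, l)) (γ1 ω (1, l)) ≤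
      ∑ _ω : Om n, 2806 * finrank F Q := by
    rw [← Finset.mul_sum, Finset.sum_comm, Finset.mul_sum, Finset.sum_const, Finset.card_univ,
      smul_eq_mul, ← hρ, Finset.mul_sum, Finset.mul_sum]
    exact Finset.sum_le_sum fun l _ => hcost l
  obtain ⟨ω, -, hω⟩ := Finset.exists_le_of_sum_le Finset.univ_nonempty havg
  refine ⟨γ1 ω + γ2 ω + γ3 ω, ident ω, ?_⟩
  have r1 := rep_psi (γ1 ω)
  have r2 := rep_supp (γ2 ω) J (fun c hc => by simp [γ2, hc])
  have r3 := rep_supp (γ3 ω) (univ ×ˢ J') (fun c hc => by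
    have : c.2 ∉ J' := fun h => hc (Finset.mem_product.2 ⟨mem_univ _, h⟩)
    simp [γ3, this])
  refine ((r1.add r2).add r3).mono ?_
  have f1 : (100 : ℝ) * ((∑ l, psi (γ1 ω (0, l)) (γ1 ω (1, l)) : ℕ) : ℝ) ≤
      2806 * (finrank F Q : ℝ) := by exact_mod_cast hω
  have f2 : (J.card : ℝ) ≤ h := by exact_mod_cast hJc
  have f3 : (J'.card : ℝ) ≤ h' := by exact_mod_cast hJ'c
  rw [Finset.card_product, Finset.card_univ, Fintype.card_fin]
  push_cast at f1 ⊢
  linarith

end Pool.Agent.H45Z.CP
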