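import Pool.Agent.H45Z.CPD

set_option autoImplicit false

namespace Pool.Agent.H45Z.CP

open Finset Module

theorem dirichlet {κ : Type*} [Fintype κ] (β : κ → ℝ) (M : ℕ) (hM : 0 < M) :
    ∃ R : ℕ, 0 < R ∧ ∃ P : κ → ℤ, ∀ k, |(R : ℝ) * β k - P k| < 1 / M := by
  have hM' : (0 : ℝ) < M := by exact_mod_cast hM
  let f : ℕ → κ → ℤ := fun j k => ⌊(M : ℝ) * Int.fract (j * β k)⌋
  have hf : Set.MapsTo f Set.univ (Set.pi Set.univ fun _ => Set.Icc (0 : ℤ) M) := by
    intro j _ k _
    constructor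
    · exact Int.floor_nonneg.2 (mul_nonneg hM'.le (Int.fract_nonneg _))
    · rw [Int.floor_le_iff]
      have := Int.fract_lt_one (j * β k)
      push_cast
      nlinarith
  obtain ⟨j, -, j', -, hlt, he⟩ := Set.infinite_univ.exists_lt_map_eq_of_mapsTo hf
    (Set.Finite.pi fun _ => Set.finite_Icc _ _)
  refine ⟨j' - j, by omega, fun k => ⌊j' * β k⌋ - ⌊j * β k⌋, fun k => ?_⟩
  have h1 := Int.abs_sub_lt_one_of_floor_eq_floor (congrFun he k).symm
  rw [← mul_sub, abs_mul, abs_of_pos hM'] at h1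
  rw [lt_div_iff₀ hM', mul_comm]
  have : ((j' - j : ℕ) : ℝ) * β k - ((⌊j' * β k⌋ - ⌊j * β k⌋ : ℤ) : ℝ) =
      Int.fract (j' * β k) - Int.fract (j * β k) := by
    rw [Nat.cast_sub hlt.le]
    push_cast
    simp only [Int.fract]
    ring
  rw [this]
  exact h1

variable {ι : Type} [Fintype ι] [DecidableEq ι]

/-- basis matrix of the code lattice -/
def Bz (S : Finset ι) (A : ι → ι → F) : Matrix ι ι ℤ := fun c c' =>
  if c' ∈ S then (if c ∈ S then (if c = c' then 1 else 0) else ((A c c').val : ℤ))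
  else (if c = c' then 101 else 0)

theorem lattice_mem (S : Finset ι) (A : ι → ι → F) (z : ι → ℤ)
    (hz : ∀ c, c ∉ S → (z c : F) = ∑ c' ∈ S, A c c' * z c') : ∃ t, (Bz S A).mulVec t = z := by
  have : ∀ c, ∃ k : ℤ, c ∉ S → z c - ∑ c' ∈ S, ((A c c').val : ℤ) * z c' = 101 * k := by
    intro c
    by_cases hc : c ∈ S
    · exact ⟨0, fun h => absurd hc h⟩
    · have : ((z c - ∑ c' ∈ S, ((A c c').val : ℤ) * z c' : ℤ) : F) = 0 := by
        push_cast
        simp [hz c hc]
      obtain ⟨k, hk⟩ := (ZMod.intCast_zmod_eq_zero_iff_dvd _ 101).1 this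
      exact ⟨k, fun _ => by simpa using hk⟩
  choose k hk using this
  refine ⟨fun c => if c ∈ S then z c else k c, ?_⟩
  ext c
  simp only [Matrix.mulVec, dotProduct]
  rw [← Finset.sum_add_sum_compl S]
  have e1 : ∑ c' ∈ S, Bz S A c c' * (if c' ∈ S then z c' else k c') =
      if c ∈ S then z c else ∑ c' ∈ S, ((A c c').val : ℤ) * z c' := by
    by_cases hc : c ∈ S
    · rw [if_pos hc, Finset.sum_eq_single c]
      · simp [Bz, hc]
      · intro b hb hne; simp [Bz, hb, hc, hne.symm]
      · intro h; exact absurd hc h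
    · rw [if_neg hc]
      apply Finset.sum_congr rfl
      intro b hb
      simp only [Bz, hb, hc, if_true, if_false]
  have e2 : ∑ c' ∈ Sᶜ, Bz S A c c' * (if c' ∈ S then z c' else k c') =
      if c ∈ S then 0 else 101 * k c := by
    by_cases hc : c ∈ S
    · rw [if_pos hc]
      apply Finset.sum_eq_zero
      intro b hb
      have hb' := Finset.mem_compl.1 hb
      have : c ≠ b := fun e => hb' (e ▸ hc)
      simp [Bz, hb', this]
    · rw [if_neg hc, Finset.sum_eq_single c]
      · simp [Bz, hc]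
      · intro b hb hne; simp [Bz, Finset.mem_compl.1 hb, hne.symm]
      · intro h; exact absurd (Finset.mem_compl.2 hc) h
  rw [e1, e2]
  by_cases hc : c ∈ S
  · simp [hc]
  · simp only [hc, if_false]
    linarith [hk c hc]

theorem det_Bz (S : Finset ι) (A : ι → ι → F) :
    (Bz S A).det = 101 ^ (Fintype.card ι - S.card) := by
  rw [Matrix.twoBlockTriangular_det (Bz S A) (fun c => c ∉ S)]
  · have e1 : (Bz S A).toSquareBlockProp (fun c => c ∉ S) = Matrix.diagonal fun _ => 101 := by
      ext ⟨a, ha⟩ ⟨b, hb⟩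
      simp [Matrix.toSquareBlockProp_def, Bz, hb, Matrix.diagonal_apply]
    have e2 : (Bz S A).toSquareBlockProp (fun c => ¬ c ∉ S) = 1 := by
      ext ⟨a, ha⟩ ⟨b, hb⟩
      simp [Matrix.toSquareBlockProp_def, Bz, not_not.1 hb, not_not.1 ha, Matrix.one_apply]
    rw [e1, e2]
    simp [Fintype.card_subtype_compl]
  · intro i hi j hj
    have : i ≠ j := fun e => hi (e ▸ hj)
    simp [Bz, hj, this]

/-- the code plus the reduction of the kernel of `P` -/
def Cp (S : Finset ι) (A : ι → ι → F) (P : Matrix ι ι ℤ) : Submodule F (ι → F) where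
  carrier := {y | ∃ z : ι → ℤ, P.mulVec z = 0 ∧
    ∀ c, c ∉ S → y c - z c = ∑ c' ∈ S, A c c' * (y c' - z c')}
  add_mem' := by
    rintro y y' ⟨z, h1, h2⟩ ⟨z', h1', h2'⟩
    refine ⟨z + z', by rw [Matrix.mulVec_add, h1, h1', add_zero], fun c hc => ?_⟩
    have e := h2 c hc
    have e' := h2' c hc
    simp only [Pi.add_apply, Int.cast_add]
    rw [Finset.sum_congr rfl (g := fun c' => A c c' * (y c' - z c') + A c c' * (y' c' - z' c'))
      (fun c' _ => by ring), Finset.sum_add_distrib]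
    linear_combination e + e'
  zero_mem' := ⟨0, by simp, by simp⟩
  smul_mem' := by
    rintro a y ⟨z, h1, h2⟩
    refine ⟨(a.val : ℤ) • z, by rw [Matrix.mulVec_smul, h1, smul_zero], fun c hc => ?_⟩
    have e := h2 c hc
    have ea : (((a.val : ℕ) : ℤ) : F) = a := by simp
    simp only [Pi.smul_apply, smul_eq_mul, Int.cast_mul, ea]
    rw [Finset.sum_congr rfl (g := fun c' => a * (A c c' * (y c' - z c')))
      (fun c' _ => by ring), ← Finset.mul_sum]
    linear_combination a * e

theorem mkQ_eq_sum {K : Type*} [Field K] (W : Submodule K (ι → K)) (y : ι → K) :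
    W.mkQ y = ∑ c, y c • W.mkQ (Pi.single c 1) := by
  conv_lhs => rw [pi_eq_sum_univ' y]
  simp only [map_sum, map_smul]

theorem span_mkQ {K : Type*} [Field K] (W : Submodule K (ι → K)) :
    Submodule.span K (Set.range fun c => W.mkQ (Pi.single c 1)) = ⊤ := by
  rw [eq_top_iff]
  intro z _
  obtain ⟨y, rfl⟩ := W.mkQ_surjective z
  rw [mkQ_eq_sum]
  exact Submodule.sum_mem _ fun c _ => Submodule.smul_mem _ _ (Submodule.subset_span ⟨c, rfl⟩)

theorem finrank_Cp (S : Finset ι) (A : ι → ι → F) (P : Matrix ι ι ℤ) (I : Finset ι)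
    (hI : ∀ c, c ∉ I → ∀ c', P c c' = 0) : finrank F ((ι → F) ⧸ Cp S A P) ≤ I.card := by
  let P' : (ι → ℤ) →ₗ[ℤ] (I → ℤ) := (P.submatrix Subtype.val id).mulVecLin
  have hker : ∀ z, P' z = 0 → P.mulVec z = 0 := by
    intro z hz
    ext c
    by_cases hc : c ∈ I
    · exact congrFun hz ⟨c, hc⟩
    · simp [Matrix.mulVec, dotProduct, hI c hc]
  have hr : finrank ℤ (LinearMap.range P') ≤ I.card := by
    refine (Submodule.finrank_le _).trans ?_
    simp
  let bb := Module.finBasis ℤ (LinearMap.range P')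
  have : ∀ j, ∃ z, P' z = bb j := fun j => (bb j).2
  choose z hz using this
  refine le_trans (finrank_le_of_span_eq_top
    (v := fun j => (Cp S A P).mkQ (fun c => (z j c : F))) ?_) (by simpa using hr)
  rw [eq_top_iff]
  intro x _
  obtain ⟨y, rfl⟩ := (Cp S A P).mkQ_surjective x
  let w : ι → ℤ := fun c => (y c).val
  let a := bb.repr ⟨P' w, LinearMap.mem_range_self _ _⟩
  have h1 : P' (w - ∑ j, a j • z j) = 0 := by
    have := congrArg Subtype.val (bb.sum_repr ⟨P' w, LinearMap.mem_range_self _ _⟩)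
    simp only [AddSubmonoidClass.coe_finsetSum, SetLike.val_smul] at this
    rw [map_sub, map_sum, ← this]
    simp only [map_smul, hz, a, sub_self]
  have h2 : y - ∑ j, (a j : F) • (fun c => (z j c : F)) ∈ Cp S A P := by
    refine ⟨w - ∑ j, a j • z j, hker _ h1, fun c _ => ?_⟩
    have : ∀ c, (y - ∑ j, (a j : F) • (fun c => (z j c : F))) c -
        ((w - ∑ j, a j • z j) c : ℤ) = 0 := by
      intro c
      simp [w, Finset.sum_apply]
    simp only [this, mul_zero, Finset.sum_const_zero]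
  have h3 : (Cp S A P).mkQ y = ∑ j, (a j : F) • (Cp S A P).mkQ (fun c => (z j c : F)) := by
    have := (Submodule.Quotient.eq _).2 h2
    simp only [← Submodule.mkQ_apply, map_sum, map_smul] at this
    exact this
  rw [h3]
  exact Submodule.sum_mem _ fun j _ => Submodule.smul_mem _ _ (Submodule.subset_span ⟨j, rfl⟩)

theorem dist_Cp (S : Finset ι) (A : ι → ι → F) (P : Matrix ι ι ℤ) (s : ℕ)
    (hA : ∀ y : ι → F, (supp y).card ≤ s →
      (∀ c' ∈ S, y c' + ∑ c ∈ Sᶜ, y c * A c c' = 0) → y = 0)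
    (φ : ((ι → F) ⧸ Cp S A P) →ₗ[F] F) (hφ : φ ≠ 0) :
    s ≤ (supp fun c => φ ((Cp S A P).mkQ (Pi.single c 1))).card := by
  by_contra hlt
  apply hφ
  have h0 := hA _ (not_le.1 hlt).le (by
    intro c' hc'
    let γ : ι → F := fun c => if c ∈ S then (if c = c' then 1 else 0) else A c c'
    have hγ : γ ∈ Cp S A P := by
      refine ⟨0, by simp, fun c hc => ?_⟩
      simp only [γ, hc, if_false, Pi.zero_apply, Int.cast_zero, sub_zero]
      rw [Finset.sum_eq_single c']
      · simp [hc']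
      · intro b hb hne; simp [hb, hne]
      · intro h; exact absurd hc' h
    have h1 : (Cp S A P).mkQ γ = 0 := (Submodule.Quotient.mk_eq_zero _).2 hγ
    have h2 := congrArg φ h1
    rw [mkQ_eq_sum, map_sum, map_zero, ← Finset.sum_add_sum_compl S,
      Finset.sum_eq_single c'] at h2
    · rw [← h2]
      congr 1
      · simp [γ, hc']
      · apply Finset.sum_congr rfl
        intro c hc
        simp [γ, Finset.mem_compl.1 hc, mul_comm]
    · intro b hb hne; simp [γ, hb, hne]
    · intro h; exact absurd hc' h)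
  apply LinearMap.ext_on_range (span_mkQ _)
  intro c
  exact congrFun h0 c

theorem cover {n : ℕ} (hn : 0 < n) (S : Finset (Fin 2 × Fin n))
    (A : Fin 2 × Fin n → Fin 2 × Fin n → F) (s τ L h h' : ℕ)
    (hA : ∀ y : Fin 2 × Fin n → F, (supp y).card ≤ s →
      (∀ c' ∈ S, y c' + ∑ c ∈ Sᶜ, y c * A c c' = 0) → y = 0)
    (hsn : s ≤ 2 * n) (hτ : τ ≤ n) (hL : 0 < L) (h1 : n * 101 ^ 2 ≤ 2 ^ L)
    (h2 : L * (τ + 2) * (2 * n) ≤ s * h) (h3 : L * n ≤ τ * h')
    (W : Submodule ℝ (Fin 2 × Fin n → ℝ)) (i : ℕ) (hW : 2 * n ≤ finrank ℝ W + i)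
    (x0 : Fin 2 × Fin n → ℝ) :
    ∃ (y : Fin 2 × Fin n → ℝ) (t : Fin 2 × Fin n → ℤ),
      G y ≤ 2906 / 100 * i + (101 * h + 202 * h' + 1) ∧
      y + (fun c => (((Bz S A).mulVec t c : ℤ) : ℝ)) - x0 ∈ W := by
  classical
  obtain ⟨I, co, -, -, hcard, co0, cob, cexp⟩ := coords (K := ℝ)
    (fun c : Fin 2 × Fin n => W.mkQ (Pi.single c 1)) ∅ Set.univ (linearIndepOn_empty _ _)
    (Set.empty_subset _) (by rw [Set.image_univ]; exact span_mkQ W)
  have hI : I.card ≤ i := by
    have := W.finrank_quotient_add_finrank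
    simp only [finrank_fintype_fun_eq_card, Fintype.card_prod, Fintype.card_fin] at this
    omega
  let β : Fin 2 × Fin n → Fin 2 × Fin n → ℝ := fun c c' => co c (W.mkQ (Pi.single c' 1))
  let π : (Fin 2 × Fin n → ℝ) → Fin 2 × Fin n → ℝ := fun x c => co c (W.mkQ x)
  have πW : ∀ x, x - π x ∈ W := by
    intro x
    rw [← Submodule.Quotient.eq, ← Submodule.mkQ_apply, ← Submodule.mkQ_apply,
      mkQ_eq_sum W (π x)]
    exact (cexp _).symm
  have πβ : ∀ x c, π x c = ∑ c', β c c' * x c' := by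
    intro x c
    simp only [π, β]
    rw [mkQ_eq_sum, map_sum]
    simp [mul_comm]
  set M : ℕ := 2 * (2 * n) ^ 2 * 101 with hM
  have hM0 : 0 < M := by positivity
  have hM1 : (1 : ℝ) / M ≤ 1 := by
    rw [div_le_one (by exact_mod_cast hM0)]; exact_mod_cast hM0
  obtain ⟨R, hR, P0, hP0⟩ := dirichlet (fun p : (Fin 2 × Fin n) × (Fin 2 × Fin n) => β p.1 p.2)
    M hM0
  let P : Matrix (Fin 2 × Fin n) (Fin 2 × Fin n) ℤ := fun c c' => P0 (c, c')
  have hP : ∀ c c', |(R : ℝ) * β c c' - P c c'| < 1 / M := fun c c' => hP0 (c, c')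
  have hint : ∀ a b : ℤ, |(a : ℝ) - b| < 1 / M → b = a := by
    intro a b hab
    have : |a - b| < 1 := by exact_mod_cast hab.trans_le hM1
    have := Int.abs_lt_one_iff.1 this
    omega
  have Prow : ∀ c, c ∉ I → ∀ c', P c c' = 0 := by
    intro c hc c'
    apply hint 0
    simpa [β, co0 c hc] using hP c c'
  have βcol : ∀ c, ∀ c' ∈ I, β c c' = if c' = c then 1 else 0 := fun c c' hc' => cob c c' hc'
  have Pcol : ∀ c, ∀ c' ∈ I, P c c' = if c' = c then R else 0 := by
    intro c c' hc'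
    apply hint
    have := hP c c'
    rw [βcol c c' hc'] at this
    by_cases e : c' = c <;> simpa [e] using this
  have PP : ∀ m : Fin 2 × Fin n → ℤ, P.mulVec (P.mulVec m) = (R : ℤ) • P.mulVec m := by
    intro m
    ext c
    have hz : ∀ c', c' ∉ I → P.mulVec m c' = 0 := by
      intro c' hc'
      simp [Matrix.mulVec, dotProduct, Prow c' hc']
    generalize P.mulVec m = w at hz ⊢
    simp only [Matrix.mulVec, dotProduct, Pi.smul_apply, smul_eq_mul]
    rw [Finset.sum_eq_single c]
    · by_cases hc : c ∈ I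
      · simp [Pcol c c hc]
      · simp [hz c hc]
    · intro b _ hb
      by_cases hc : b ∈ I
      · simp [Pcol c b hc, hb]
      · simp [hz b hc]
    · simp
  let z0 : Fin 2 × Fin n → ℤ := fun c => ⌊π x0 c⌋
  obtain ⟨γ, hγ, b, hb, hG⟩ := core hn (fun c => (Cp S A P).mkQ (Pi.single c 1)) (span_mkQ _)
    s τ L h h' (dist_Cp S A P s hA) hsn hτ hL h1 h2 h3 ((Cp S A P).mkQ fun c => (z0 c : F))
  rw [← mkQ_eq_sum, Submodule.mkQ_apply, Submodule.mkQ_apply, eq_comm,
    Submodule.Quotient.eq] at hγ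
  obtain ⟨z, hz, hC⟩ := hγ
  let m : Fin 2 × Fin n → ℤ := fun c => z c / (101 * R)
  let z' : Fin 2 × Fin n → ℤ := z - (101 : ℤ) • ((R : ℤ) • m - P.mulVec m)
  have hz'0 : P.mulVec z' = 0 := by
    simp only [z', Matrix.mulVec_sub, Matrix.mulVec_smul, hz, PP, sub_self, smul_zero]
  have hz'c : ∀ c, (z' c : F) = z c := by
    intro c
    have : ((101 : ℤ) : F) = 0 := by decide
    simp only [z', Pi.sub_apply, Pi.smul_apply, smul_eq_mul, Int.cast_sub, Int.cast_mul, this,
      zero_mul, sub_zero]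
  have hz'b : ∀ c, c ∉ I → |(z' c : ℝ)| ≤ 101 * R := by
    intro c hc
    have e0 : P.mulVec m c = 0 := by simp [Matrix.mulVec, dotProduct, Prow c hc]
    have hpos : (0 : ℤ) < 101 * R := by positivity
    have e1 : z' c = z c % (101 * R) := by
      simp only [z', Pi.sub_apply, Pi.smul_apply, smul_eq_mul, e0, sub_zero, m]
      rw [Int.emod_def]; ring
    have e2 := Int.emod_nonneg (z c) hpos.ne'
    have e3 := Int.emod_lt_of_pos (z c) hpos
    have : |z' c| ≤ 101 * R := by rw [e1, abs_of_nonneg e2]; exact e3.le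
    exact_mod_cast this
  obtain ⟨t, ht⟩ := lattice_mem S A (z0 - b - z') (by
    intro c hc
    have := hC c hc
    simp only [Pi.sub_apply, Int.cast_sub, hb, hz'c] at this ⊢
    exact this)
  let zr : Fin 2 × Fin n → ℝ := fun c => z' c
  have hR' : (0 : ℝ) < R := by exact_mod_cast hR
  have he : ∀ c, |π zr c| ≤ 2 * n * (101 / M) := by
    intro c
    have e0 : ∑ c', (P c c' : ℝ) * zr c' = 0 := by
      have := congrFun hz'0 c
      simp only [Matrix.mulVec, dotProduct, Pi.zero_apply] at this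
      simp only [zr]
      exact_mod_cast this
    have e1 : R * π zr c = ∑ c', (R * β c c' - P c c') * zr c' := by
      rw [πβ, Finset.mul_sum]
      simp only [sub_mul, Finset.sum_sub_distrib, e0, sub_zero, mul_assoc]
    have e2 : |R * π zr c| ≤ 2 * n * (1 / M * (101 * R)) := by
      rw [e1]
      refine (Finset.abs_sum_le_sum_abs _ _).trans ?_
      have := Finset.sum_le_card_nsmul univ (fun c' => |(R * β c c' - P c c') * zr c'|)
        (1 / M * (101 * R)) (by
          intro c' _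
          by_cases hc' : c' ∈ I
          · rw [βcol c c' hc', Pcol c c' hc']
            have : (0 : ℝ) ≤ 1 / M * (101 * R) := by positivity
            by_cases e : c' = c <;> simpa [e] using this
          · rw [abs_mul]
            exact mul_le_mul (hP c c').le (hz'b c' hc') (abs_nonneg _) (by positivity))
      simpa using this
    rw [abs_mul, abs_of_pos hR'] at e2
    have e3 : 2 * n * (1 / M * (101 * R)) = R * (2 * n * (101 / M) : ℝ) := by ring
    rw [e3] at e2
    exact le_of_mul_le_mul_left e2 hR'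
  have hGe : G (π zr) ≤ 1 := by
    refine (G_le_abs _).trans ?_
    have := Finset.sum_le_card_nsmul univ (fun c => |π zr c|) _ (fun c _ => he c)
    simp only [Finset.card_univ, Fintype.card_prod, Fintype.card_fin, nsmul_eq_mul] at this
    have hn' : (0 : ℝ) < n := by exact_mod_cast hn
    have e : 2 * (((2 * n : ℕ) : ℝ) * (2 * n * (101 / M))) = 1 := by
      rw [hM]; push_cast; field_simp
    linarith
  let u : Fin 2 × Fin n → ℝ := fun c => Int.fract (π x0 c)
  have hGu : G u ≤ i := by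
    refine (G_le_sum _ (fun c => Int.fract_nonneg _)).trans ?_
    rw [← Finset.sum_subset (Finset.subset_univ I)]
    · refine (Finset.sum_le_card_nsmul I u 1 (fun c _ => (Int.fract_lt_one _).le)).trans ?_
      simpa using hI
    · intro c _ hc
      simp [u, π, co0 c hc]
  refine ⟨u + (fun c => (b c : ℝ)) + π zr, t, ?_, ?_⟩
  · have f1 : (finrank F ((Fin 2 × Fin n → F) ⧸ Cp S A P) : ℝ) ≤ i := by
      exact_mod_cast (finrank_Cp S A P I Prow).trans hI
    have := (G_add _ _).trans (add_le_add ((G_add _ _).trans (add_le_add hGu hG)) hGe)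
    linarith
  · have : u + (fun c => (b c : ℝ)) + π zr + (fun c => (((Bz S A).mulVec t c : ℤ) : ℝ)) - x0 =
        -(x0 - π x0) - (zr - π zr) := by
      ext c
      simp only [ht, Pi.add_apply, Pi.sub_apply, Pi.neg_apply, u, zr, z0, Int.fract, Int.cast_sub]
      ring
    rw [this]
    exact sub_mem (neg_mem (πW _)) (πW _)

end Pool.Agent.H45Z.CP
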