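import Pool.Agent.H45Z.CPE

set_option autoImplicit false

namespace Pool.Agent.H45Z.CP

open Finset Module MeasureTheory

theorem vol_simplex {ι : Type} [Fintype ι] (a : ℝ) (ha : 0 < a) :
    volume {x : ι → ℝ | (∀ c, 0 ≤ x c) ∧ ∑ c, x c ≤ 1} ≤
      ENNReal.ofReal (Real.exp a / a ^ Fintype.card ι) := by
  let f : ℝ → ℝ := (Set.Ici (0 : ℝ)).indicator fun t => Real.exp (-a * t)
  have hf0 : ∀ t, 0 ≤ f t := fun t => Set.indicator_nonneg (fun _ _ => (Real.exp_pos _).le) t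
  have hfi : Integrable f := by
    rw [integrable_indicator_iff measurableSet_Ici, integrableOn_Ici_iff_integrableOn_Ioi]
    exact integrableOn_exp_mul_Ioi (by linarith) 0
  have hfI : ∫ t, f t = 1 / a := by
    rw [integral_indicator measurableSet_Ici, integral_Ici_eq_integral_Ioi,
      integral_exp_mul_Ioi (by linarith)]
    simp
  have hFi : Integrable (fun x : ι → ℝ => ∏ c, f (x c)) :=
    Integrable.fintype_prod (f := fun _ => f) (fun _ => hfi)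
  have hFI : ∫ x : ι → ℝ, ∏ c, f (x c) = (1 / a) ^ Fintype.card ι := by
    rw [integral_fintype_prod_volume_eq_pow, hfI]
  have h1 := mul_meas_ge_le_lintegral₀ (μ := (volume : Measure (ι → ℝ)))
    (f := fun x => ENNReal.ofReal (∏ c, f (x c))) hFi.aemeasurable.ennreal_ofReal
    (ENNReal.ofReal (Real.exp (-a)))
  rw [← ofReal_integral_eq_lintegral_ofReal hFi
    (ae_of_all _ fun x => Finset.prod_nonneg fun c _ => hf0 _), hFI] at h1
  have h2 : {x : ι → ℝ | (∀ c, 0 ≤ x c) ∧ ∑ c, x c ≤ 1} ⊆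
      {x | ENNReal.ofReal (Real.exp (-a)) ≤ ENNReal.ofReal (∏ c, f (x c))} := by
    rintro x ⟨hx, hs⟩
    apply ENNReal.ofReal_le_ofReal
    have : ∏ c, f (x c) = Real.exp (∑ c, -a * x c) := by
      rw [Real.exp_sum]
      apply Finset.prod_congr rfl
      intro c _
      exact Set.indicator_of_mem (hx c) _
    rw [this, ← Finset.mul_sum]
    apply Real.exp_le_exp.2
    nlinarith
  have h3 := (mul_le_mul_right (measure_mono h2) _).trans h1
  have h4 : ENNReal.ofReal (Real.exp a) * ENNReal.ofReal (Real.exp (-a)) = 1 := by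
    rw [← ENNReal.ofReal_mul (Real.exp_pos _).le, ← Real.exp_add]; simp
  calc _ = ENNReal.ofReal (Real.exp a) * (ENNReal.ofReal (Real.exp (-a)) *
        volume {x : ι → ℝ | (∀ c, 0 ≤ x c) ∧ ∑ c, x c ≤ 1}) := by rw [← mul_assoc, h4, one_mul]
    _ ≤ ENNReal.ofReal (Real.exp a) * ENNReal.ofReal ((1 / a) ^ Fintype.card ι) :=
        mul_le_mul_right h3 _
    _ = _ := by
        rw [← ENNReal.ofReal_mul (Real.exp_pos _).le]
        congr 1
        rw [one_div, inv_pow, div_eq_mul_inv]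

/-- the three unimodular cones -/
def mm : Fin 3 → Matrix (Fin 2) (Fin 2) ℝ := ![!![1, 0; 0, 1], !![-1, 0; -1, 1], !![0, -1; 1, -1]]

theorem mm_det (c : Fin 3) : |(mm c).det| = 1 := by
  fin_cases c <;> simp [mm, Matrix.det_fin_two]

theorem mm_cover (x y : ℝ) : ∃ c, 0 ≤ mm c 0 0 * x + mm c 0 1 * y ∧
    0 ≤ mm c 1 0 * x + mm c 1 1 * y ∧
    (mm c 0 0 * x + mm c 0 1 * y) + (mm c 1 0 * x + mm c 1 1 * y) ≤ g x y := by
  have h1 := le_g1 x y
  have h2 := le_g2 x y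
  have h3 := le_g3 x y
  by_cases hx : 0 ≤ x
  · by_cases hy : 0 ≤ y
    · refine ⟨0, ?_, ?_, ?_⟩ <;> simp [mm] <;> linarith
    · refine ⟨2, ?_, ?_, ?_⟩ <;> simp [mm] <;> linarith
  · by_cases hy : x ≤ y
    · refine ⟨1, ?_, ?_, ?_⟩ <;> simp [mm] <;> linarith
    · refine ⟨2, ?_, ?_, ?_⟩ <;> simp [mm] <;> linarith

theorem vol_K0 (n : ℕ) (a : ℝ) (ha : 0 < a) :
    volume {y : Fin 2 × Fin n → ℝ | G y ≤ 1} ≤
      ENNReal.ofReal (3 ^ n * (Real.exp a / a ^ (2 * n))) := by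
  set Δ := {x : Fin 2 × Fin n → ℝ | (∀ c, 0 ≤ x c) ∧ ∑ c, x c ≤ 1} with hΔ
  let M : (Fin n → Fin 3) → (Fin 2 × Fin n → ℝ) →ₗ[ℝ] (Fin 2 × Fin n → ℝ) := fun c =>
    Matrix.toLin' (Matrix.blockDiagonal fun l => mm (c l))
  have hdet : ∀ c, |LinearMap.det (M c)| = 1 := by
    intro c
    simp only [M, LinearMap.det_toLin', Matrix.det_blockDiagonal, Finset.abs_prod, mm_det,
      Finset.prod_const_one]
  have hM : ∀ c y e l, M c y (e, l) = mm (c l) e 0 * y (0, l) + mm (c l) e 1 * y (1, l) := by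
    intro c y e l
    simp only [M, Matrix.toLin'_apply, Matrix.mulVec, dotProduct]
    rw [sum_iota, Finset.sum_eq_single l]
    · simp [Matrix.blockDiagonal_apply]
    · intro b _ hb; simp [Matrix.blockDiagonal_apply, hb.symm]
    · simp
  have hsub : {y : Fin 2 × Fin n → ℝ | G y ≤ 1} ⊆ ⋃ c, M c ⁻¹' Δ := by
    intro y hy
    choose c h1 h2 h3 using fun l => mm_cover (y (0, l)) (y (1, l))
    refine Set.mem_iUnion.2 ⟨c, ?_, ?_⟩
    · rintro ⟨e, l⟩
      rw [hM]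
      fin_cases e
      · exact h1 l
      · exact h2 l
    · rw [sum_iota]
      refine le_trans (Finset.sum_le_sum fun l _ => ?_) hy
      rw [hM, hM]
      exact h3 l
  refine (measure_mono hsub).trans ((measure_iUnion_fintype_le _ _).trans ?_)
  have hv : ∀ c, volume (M c ⁻¹' Δ) ≤ ENNReal.ofReal (Real.exp a / a ^ (2 * n)) := by
    intro c
    have hne : LinearMap.det (M c) ≠ 0 := by
      intro h0
      have := hdet c
      rw [h0] at this
      simp at this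
    rw [Measure.addHaar_preimage_linearMap _ hne, abs_inv, hdet]
    have := vol_simplex (ι := Fin 2 × Fin n) a ha
    rw [← hΔ, Fintype.card_prod, Fintype.card_fin, Fintype.card_fin] at this
    simpa using this
  refine (Finset.sum_le_card_nsmul _ _ _ (fun c _ => hv c)).trans (le_of_eq ?_)
  rw [ENNReal.ofReal_mul (by positivity), ENNReal.ofReal_pow (by norm_num)]
  simp

theorem fact_le (d : ℕ) (hd : 0 < d) :
    (d.factorial : ℝ) * Real.exp d ≤ Real.exp 1 * d ^ (d + 1) := by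
  induction d, hd using Nat.le_induction with
  | base => simp
  | succ d hd ih =>
    have hd' : (0 : ℝ) < d := by exact_mod_cast hd
    have h1 : ((d : ℝ) / (d + 1)) ^ (d + 1) ≤ Real.exp (-1) := by
      have e : (d : ℝ) / (d + 1) ≤ Real.exp (-(1 / (d + 1))) := by
        have := Real.add_one_le_exp (-(1 / ((d : ℝ) + 1)))
        have e2 : (d : ℝ) / (d + 1) = -(1 / (d + 1)) + 1 := by field_simp; ring
        linarith
      refine (pow_le_pow_left₀ (by positivity) e _).trans (le_of_eq ?_)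
      rw [← Real.exp_nat_mul]
      congr 1
      push_cast
      field_simp
    rw [div_pow, div_le_iff₀ (by positivity), Real.exp_neg, inv_mul_eq_div,
      le_div_iff₀ (Real.exp_pos _)] at h1
    rw [Nat.factorial_succ]
    push_cast
    rw [Real.exp_add, pow_succ ((d : ℝ) + 1) (d + 1)]
    have he := Real.exp_pos 1
    calc ((d : ℝ) + 1) * d.factorial * (Real.exp d * Real.exp 1)
        = (d + 1) * Real.exp 1 * (d.factorial * Real.exp d) := by ring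
      _ ≤ (d + 1) * Real.exp 1 * (Real.exp 1 * d ^ (d + 1)) := by gcongr
      _ = (d + 1) * Real.exp 1 * (d ^ (d + 1) * Real.exp 1) := by ring
      _ ≤ (d + 1) * Real.exp 1 * (d + 1) ^ (d + 1) := by gcongr
      _ = _ := by ring

theorem prod_le (d E : ℕ) (lam : ℝ) (hl : 1 ≤ lam) :
    ∏ i : Fin d, (lam * ((i.val + 1 : ℕ) : ℝ) + E) ≤ lam ^ d * (d.factorial * (E + d) ^ E) := by
  have h1 : ∏ i : Fin d, (lam * ((i.val + 1 : ℕ) : ℝ) + E) ≤
      ∏ i : Fin d, (lam * ((E + 1 + i.val : ℕ) : ℝ)) := by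
    apply Finset.prod_le_prod
    · intro i _; positivity
    · intro i _
      push_cast
      have : (0 : ℝ) ≤ E := by positivity
      nlinarith
  refine h1.trans ?_
  rw [Finset.prod_mul_distrib, Finset.prod_const, Finset.card_univ, Fintype.card_fin]
  gcongr
  rw [← Nat.cast_prod, Fin.prod_univ_eq_prod_range (fun i => E + 1 + i) d,
    ← Nat.ascFactorial_eq_prod_range, Nat.ascFactorial_eq_factorial_mul_choose,
    ← Nat.choose_symm_add]
  have := Nat.choose_le_pow (E + d) E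
  exact_mod_cast Nat.mul_le_mul_left _ this

theorem numeric (n E k m X : ℕ) (hn : 0 < n) (hk : k ≤ 2 * n) (hE : E + 2 * n ≤ 2 ^ m)
    (hX : 7 * k + 2 + m * E ≤ X) (hnX : 128 * X ≤ n) :
    (2906 / 100 : ℝ) ^ (2 * n) * ((2 * n).factorial * ((E : ℝ) + (2 * n : ℕ)) ^ E) *
      (((101 : ℝ) ^ (2 * n - k))⁻¹ * (3 ^ n * (Real.exp (2 * n : ℕ) / ((2 * n : ℕ) : ℝ) ^ (2 * n)))) <
      (((2 * n : ℕ) : ℝ) + 1) / 2 ^ (2 * n) := by
  set d := 2 * n with hd
  have hd0 : (0 : ℝ) < d := by have : 0 < d := by omega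
                               exact_mod_cast this
  have h1 : (d.factorial : ℝ) * (Real.exp d / (d : ℝ) ^ d) ≤ 3 * d := by
    have := fact_le d (by omega)
    rw [← mul_div_assoc, div_le_iff₀ (by positivity)]
    refine this.trans ?_
    rw [pow_succ]
    have he : Real.exp 1 ≤ 3 := by linarith [Real.exp_one_lt_d9]
    calc Real.exp 1 * ((d : ℝ) ^ d * d) ≤ 3 * ((d : ℝ) ^ d * d) := by gcongr
      _ = _ := by ring
  have h2 : ((E : ℝ) + d) ^ E ≤ 2 ^ (m * E) := by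
    rw [pow_mul]
    apply pow_le_pow_left₀ (by positivity)
    exact_mod_cast hE
  have h3 : ((101 : ℝ) ^ (d - k))⁻¹ ≤ 2 ^ (7 * k) / 101 ^ d := by
    rw [pow_sub₀ _ (by norm_num) hk, mul_inv, inv_inv, div_eq_mul_inv, mul_comm, pow_mul 2 7 k]
    gcongr
    norm_num
  set a : ℝ := (2906 / 100) ^ 2 * 3 * 4 / 101 ^ 2 with ha
  have h4 : a ^ n ≤ 1 / 2 ^ X := by
    have ha0 : 0 ≤ a := by positivity
    have ha1 : a ≤ 1 := by rw [ha]; norm_num
    calc a ^ n ≤ a ^ (128 * X) := pow_le_pow_of_le_one ha0 ha1 hnX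
      _ = (a ^ 128) ^ X := pow_mul _ _ _
      _ ≤ (1 / 2) ^ X := by
          apply pow_le_pow_left₀ (by positivity)
          rw [ha]; norm_num
      _ = _ := by rw [div_pow, one_pow]
  have h5 : (2 : ℝ) ^ (7 * k) * 4 * 2 ^ (m * E) ≤ 2 ^ X := by
    have : (2 : ℝ) ^ (7 * k) * 4 * 2 ^ (m * E) = 2 ^ (7 * k + 2 + m * E) := by
      rw [pow_add, pow_add]; norm_num
    rw [this]
    exact pow_le_pow_right₀ (by norm_num) hX
  have h6 : a ^ n = (2906 / 100 : ℝ) ^ d * 3 ^ n * 2 ^ d / 101 ^ d := by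
    rw [ha, hd, div_pow, mul_pow, mul_pow, ← pow_mul, ← pow_mul, pow_mul 2 2 n]
    norm_num
  rw [lt_div_iff₀ (by positivity)]
  calc _ = (2906 / 100 : ℝ) ^ d * 3 ^ n * 2 ^ d * ((101 : ℝ) ^ (d - k))⁻¹ * ((E : ℝ) + d) ^ E *
        (d.factorial * (Real.exp d / (d : ℝ) ^ d)) := by ring
    _ ≤ (2906 / 100 : ℝ) ^ d * 3 ^ n * 2 ^ d * (2 ^ (7 * k) / 101 ^ d) * 2 ^ (m * E) *
        (3 * d) := by gcongr
    _ = a ^ n * (2 ^ (7 * k) * 4 * 2 ^ (m * E)) * (3 / 4 * d) := by rw [h6]; ring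
    _ ≤ 1 / 2 ^ X * 2 ^ X * (3 / 4 * d) := by gcongr
    _ = 3 / 4 * d := by field_simp
    _ < d + 1 := by linarith

theorem g_cont : Continuous fun p : ℝ × ℝ => g p.1 p.2 := by
  unfold g; fun_prop

theorem G_cont {n : ℕ} : Continuous (G : (Fin 2 × Fin n → ℝ) → ℝ) := by
  unfold G g; fun_prop

theorem K0_compact (n : ℕ) : IsCompact {y : Fin 2 × Fin n → ℝ | G y ≤ 1} := by
  refine (isCompact_closedBall (0 : Fin 2 × Fin n → ℝ) 1).of_isClosed_subset
    (isClosed_le G_cont continuous_const) ?_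
  intro y hy
  rw [mem_closedBall_zero_iff, pi_norm_le_iff_of_nonneg zero_le_one]
  rintro ⟨e, l⟩
  have h0 : g (y (0, l)) (y (1, l)) ≤ 1 :=
    (Finset.single_le_sum (f := fun l => g (y (0, l)) (y (1, l))) (fun l _ => g_nonneg _ _)
      (mem_univ l)).trans hy
  have h1 := le_g1 (y (0, l)) (y (1, l))
  have h2 := le_g2 (y (0, l)) (y (1, l))
  have h3 := le_g3 (y (0, l)) (y (1, l))
  rw [Real.norm_eq_abs, abs_le]
  fin_cases e
  · simp only [Fin.zero_eta]; constructor <;> linarith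
  · simp only [Fin.mk_one]; constructor <;> linarith

theorem K0_convex (n : ℕ) : Convex ℝ {y : Fin 2 × Fin n → ℝ | G y ≤ 1} := by
  intro x hx y hy a b ha hb hab
  have h1 := G_smul a ha x
  have h2 := G_smul b hb y
  have h3 := G_add (a • x) (b • y)
  simp only [Set.mem_ofPred_eq] at hx hy ⊢
  nlinarith

theorem main_param (n s τ L h h' k X : ℕ) (hn : 0 < n) (hsn : s ≤ 2 * n) (hτ : τ ≤ n)
    (hL : 0 < L) (h1 : n * 101 ^ 2 ≤ 2 ^ L) (h2 : L * (τ + 2) * (2 * n) ≤ s * h)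
    (h3 : L * n ≤ τ * h') (hk : k ≤ 2 * n) (hs : (2 * n * 101) ^ s < 101 ^ k)
    (hE : (101 * h + 202 * h' + 1) + 2 * n ≤ 2 ^ L)
    (hX : 7 * k + 2 + L * (101 * h + 202 * h' + 1) ≤ X) (hnX : 128 * X ≤ n) :
    ∃ K : Set (Fin (2 * n) → ℝ), Convex ℝ K ∧ IsCompact K ∧ (interior K).Nonempty ∧
      (∏ i : Fin (2 * n), sInf {μ : ℝ | 0 < μ ∧
          ∀ A : AffineSubspace ℝ (Fin (2 * n) → ℝ), (A : Set (Fin (2 * n) → ℝ)).Nonempty →
            Module.finrank ℝ A.direction = 2 * n - (i.val + 1) →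
            ∃ x ∈ K, ∃ z : Fin (2 * n) → ℤ, μ • x + (fun j => (z j : ℝ)) ∈ A})
        * (MeasureTheory.volume K).toReal < (((2 * n : ℕ) : ℝ) + 1) / 2 ^ (2 * n) := by
  classical
  have : Nonempty (Fin n) := ⟨⟨0, hn⟩⟩
  have cardι : Fintype.card (Fin 2 × Fin n) = 2 * n := by simp
  obtain ⟨S, -, hS⟩ := Finset.exists_subset_card_eq (s := (univ : Finset (Fin 2 × Fin n)))
    (n := k) (by rw [Finset.card_univ, cardι]; exact hk)
  obtain ⟨A, hA⟩ := code_exists (F := F) S s (by rw [cardι, cardF, hS]; exact hs)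
  let e : Fin 2 × Fin n ≃ Fin (2 * n) := finProdFinEquiv
  let Br : Matrix (Fin 2 × Fin n) (Fin 2 × Fin n) ℝ := (Bz S A).map (Int.castRingHom ℝ)
  have hdet : LinearMap.det (Matrix.toLin' Br) = 101 ^ (2 * n - k) := by
    rw [LinearMap.det_toLin']
    have := RingHom.map_det (Int.castRingHom ℝ) (Bz S A)
    rw [det_Bz, cardι, hS] at this
    simpa [Br] using this.symm
  have hdet0 : LinearMap.det (Matrix.toLin' Br) ≠ 0 := by rw [hdet]; positivity
  obtain ⟨Φ, hΦ⟩ : ∃ Φ : (Fin (2 * n) → ℝ) ≃ₗ[ℝ] (Fin 2 × Fin n → ℝ),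
      ∀ x, Φ x = Matrix.toLin' Br (fun c => x (e c)) :=
    ⟨(LinearEquiv.funCongrLeft ℝ ℝ e).trans ((Matrix.toLin' Br).equivOfDetNeZero hdet0),
      fun x => rfl⟩
  obtain ⟨K0, hK0⟩ : ∃ K0, K0 = {y : Fin 2 × Fin n → ℝ | G y ≤ 1} := ⟨_, rfl⟩
  have hconv : Convex ℝ K0 := hK0 ▸ K0_convex n
  have hcomp : IsCompact K0 := hK0 ▸ K0_compact n
  refine ⟨Φ ⁻¹' K0, hconv.linear_preimage Φ.toLinearMap,
    Φ.toContinuousLinearEquiv.toHomeomorph.isCompact_preimage.2 hcomp, ?_, ?_⟩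
  · refine ⟨0, mem_interior.2 ⟨{x | G (Φ x) < 1}, fun x hx => by
      rw [hK0]; exact le_of_lt (show G (Φ x) < 1 from hx), ?_, ?_⟩⟩
    · exact isOpen_lt (G_cont.comp Φ.toContinuousLinearEquiv.continuous) continuous_const
    · simp [G, g]
  set E : ℕ := 101 * h + 202 * h' + 1 with hEdef
  have hvol : (volume (Φ ⁻¹' K0)).toReal ≤ ((101 : ℝ) ^ (2 * n - k))⁻¹ *
      (3 ^ n * (Real.exp (2 * n : ℕ) / ((2 * n : ℕ) : ℝ) ^ (2 * n))) := by
    have hmp := volume_preserving_arrowCongr' (β₁ := ℝ) (β₂ := ℝ) e.symm (MeasurableEquiv.refl ℝ)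
      (MeasurePreserving.id _)
    have e1 : Φ ⁻¹' K0 = (MeasurableEquiv.arrowCongr' e.symm (MeasurableEquiv.refl ℝ)) ⁻¹'
        (Matrix.toLin' Br ⁻¹' K0) := by
      ext x
      simp only [Set.mem_preimage, hΦ]
      rfl
    rw [e1, hmp.measure_preimage_equiv, Measure.addHaar_preimage_linearMap _ hdet0, hdet]
    apply ENNReal.toReal_le_of_le_ofReal (by positivity)
    rw [ENNReal.ofReal_mul (by positivity), abs_of_nonneg (by positivity)]
    rw [hK0]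
    exact mul_le_mul_right (vol_K0 n _ (by positivity)) _
  refine lt_of_le_of_lt ?_ (numeric n E k L X hn hk hE hX hnX)
  refine mul_le_mul (le_trans ?_ (prod_le (2 * n) E (2906 / 100) (by norm_num))) hvol
    ENNReal.toReal_nonneg (by positivity)
  apply Finset.prod_le_prod
  · intro i _
    exact Real.sInf_nonneg fun x hx => hx.1.le
  intro i _
  apply csInf_le ⟨0, fun x hx => hx.1.le⟩
  set μ : ℝ := 2906 / 100 * ((i.val + 1 : ℕ) : ℝ) + E with hμ
  have hμ0 : 0 < μ := by positivity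
  refine ⟨hμ0, ?_⟩
  rintro A' ⟨x0, hx0⟩ hA'
  obtain ⟨y, t, hy, hW⟩ := cover hn S A s τ L h h' hA hsn hτ hL h1 h2 h3
    (A'.direction.map Φ.toLinearMap) (i.val + 1)
    (by rw [LinearEquiv.finrank_map_eq, hA']; omega) (Φ x0)
  obtain ⟨w, hw, hw'⟩ := Submodule.mem_map.1 hW
  refine ⟨Φ.symm (μ⁻¹ • y), ?_, fun j => t (e.symm j), ?_⟩
  · simp only [Set.mem_preimage, LinearEquiv.apply_symm_apply, hK0, Set.mem_ofPred_eq]
    refine (G_smul _ (by positivity) _).trans ?_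
    rw [inv_mul_le_iff₀ hμ0, mul_one, hμ, hEdef]
    push_cast at hy ⊢
    exact hy
  · have : μ • Φ.symm (μ⁻¹ • y) + (fun j => ((t (e.symm j) : ℤ) : ℝ)) = w +ᵥ x0 := by
      apply Φ.injective
      have e2 : Φ (fun j => ((t (e.symm j) : ℤ) : ℝ)) =
          fun c => (((Bz S A).mulVec t c : ℤ) : ℝ) := by
        rw [hΦ]
        ext c
        simp [Br, Matrix.mulVec, dotProduct]
      have hw'' : Φ w = _ := hw'
      rw [map_add, map_smul, LinearEquiv.apply_symm_apply, smul_smul, mul_inv_cancel₀ hμ0.ne',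
        one_smul, e2, vadd_eq_add, map_add, hw'']
      abel
    rw [this]
    exact AffineSubspace.vadd_mem_of_mem_direction hw hx0

theorem params (m : ℕ) (hm : 131072 ≤ m) (hm2 : m ^ 8 * 101 ^ 2 ≤ 2 ^ m) :
    ∃ n s τ L h h' k X : ℕ, 0 < n ∧ s ≤ 2 * n ∧ τ ≤ n ∧ 0 < L ∧ n * 101 ^ 2 ≤ 2 ^ L ∧
      L * (τ + 2) * (2 * n) ≤ s * h ∧ L * n ≤ τ * h' ∧ k ≤ 2 * n ∧
      (2 * n * 101) ^ s < 101 ^ k ∧ (101 * h + 202 * h' + 1) + 2 * n ≤ 2 ^ L ∧
      7 * k + 2 + L * (101 * h + 202 * h' + 1) ≤ X ∧ 128 * X ≤ n := by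
  have hm0 : 1 ≤ m := by omega
  have p03 : 1 ≤ m ^ 3 := Nat.one_le_pow _ _ hm0
  have p36 : m ^ 3 ≤ m ^ 6 := Nat.pow_le_pow_right hm0 (by norm_num)
  have p67 : m ^ 6 ≤ m ^ 7 := Nat.pow_le_pow_right hm0 (by norm_num)
  have p78 : m ^ 7 ≤ m ^ 8 := Nat.pow_le_pow_right hm0 (by norm_num)
  have hE : 101 * (2 * m ^ 3 * (m ^ 3 + 2)) + 202 * m ^ 6 + 1 ≤ 809 * m ^ 6 := by
    have : 2 * m ^ 3 * (m ^ 3 + 2) = 2 * m ^ 6 + 4 * m ^ 3 := by ring
    omega
  refine ⟨m ^ 8, m ^ 6, m ^ 3, m, 2 * m ^ 3 * (m ^ 3 + 2), m ^ 6, m ^ 7, 818 * m ^ 7,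
    by omega, by omega, by omega, by omega, hm2, le_of_eq (by ring), le_of_eq (by ring),
    by omega, ?_, by omega, ?_, ?_⟩
  · calc (2 * m ^ 8 * 101) ^ m ^ 6 ≤ (2 ^ m) ^ m ^ 6 := Nat.pow_le_pow_left (by omega) _
      _ = 2 ^ m ^ 7 := by rw [← pow_mul]; congr 1; ring
      _ < 101 ^ m ^ 7 := Nat.pow_lt_pow_left (by norm_num) (by omega)
  · have := Nat.mul_le_mul_left m hE
    have e : m * (809 * m ^ 6) = 809 * m ^ 7 := by ring
    omega
  · have := Nat.mul_le_mul_right (m ^ 7) hm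
    have e : m * m ^ 7 = m ^ 8 := by ring
    omega

theorem exists_m : ∃ m : ℕ, 131072 ≤ m ∧ m ^ 8 * 101 ^ 2 ≤ 2 ^ m := by
  have h : ∀ m : ℕ, m = 131072 → m ^ 8 * 101 ^ 2 ≤ 2 ^ m := by
    intro m hm
    calc m ^ 8 * 101 ^ 2 ≤ 2 ^ 150 := by rw [hm]; norm_num
      _ ≤ 2 ^ m := Nat.pow_le_pow_right (by norm_num) (by omega)
  exact ⟨131072, le_rfl, h _ rfl⟩

theorem main :
    ¬ (∀ d : ℕ, 1 ≤ d → ∀ K : Set (Fin d → ℝ), Convex ℝ K → IsCompact K → (interior K).Nonempty →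
      (∏ i : Fin d, sInf {μ : ℝ | 0 < μ ∧
          ∀ A : AffineSubspace ℝ (Fin d → ℝ), (A : Set (Fin d → ℝ)).Nonempty →
            Module.finrank ℝ A.direction = d - (i.val + 1) →
            ∃ x ∈ K, ∃ z : Fin d → ℤ, μ • x + (fun j => (z j : ℝ)) ∈ A})
        * (MeasureTheory.volume K).toReal ≥ ((d : ℝ) + 1) / 2 ^ d) := by
  intro H
  obtain ⟨m, hm, hm2⟩ := exists_m
  obtain ⟨n, s, τ, L, h, h', k, X, a1, a2, a3, a4, a5, a6, a7, a8, a9, a10, a11, a12⟩ :=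
    params m hm hm2
  obtain ⟨K, k1, k2, k3, k4⟩ := main_param n s τ L h h' k X a1 a2 a3 a4 a5 a6 a7 a8 a9 a10 a11 a12
  exact absurd (H (2 * n) (by omega) K k1 k2 k3) (not_le.2 k4)

end Pool.Agent.H45Z.CP
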