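import Mathlib

set_option autoImplicit false

open MeasureTheory Set

namespace Pool.Agent.H45Z.Lp

/-- The Euclidean plane. -/
abbrev E : Type := EuclideanSpace ℝ (Fin 2)

lemma inner2 (x y : E) : inner ℝ x y = x 0 * y 0 + x 1 * y 1 := by
  simp [PiLp.inner_apply, Fin.sum_univ_two]
  ring

lemma norm_one_iff (u : E) : ‖u‖ = 1 ↔ u 0 * u 0 + u 1 * u 1 = 1 := by
  rw [← inner2, real_inner_self_eq_norm_sq]
  constructor
  · intro h; rw [h]; norm_num
  · intro h; nlinarith [norm_nonneg u]

/-- The set of support values at `x`. -/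
def sv (A : Set E) (x : E) : Set ℝ :=
  {t : ℝ | ∃ u : E, ‖u‖ = 1 ∧ (∀ y ∈ A, inner ℝ y u ≤ inner ℝ x u) ∧ t = inner ℝ x u}

lemma unique_normal {A : Set E} (h0 : (0 : E) ∈ A) {v w n x u : E} {h : ℝ} (hn : ‖n‖ = 1)
    (hh : 0 < h) (hv : v ∈ A) (hw : w ∈ A) (hvn : inner ℝ v n = h) (hwn : inner ℝ w n = h)
    (hx : x ∈ segment ℝ v w \ {v, w}) (hu : ‖u‖ = 1) (hsup : ∀ y ∈ A, inner ℝ y u ≤ inner ℝ x u) :
    u = n := by
  obtain ⟨⟨a, b, ha, hb, hab, rfl⟩, hne⟩ := hx
  simp only [mem_insert_iff, mem_singleton_iff, not_or] at hne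
  have ha' : 0 < a := by
    rcases ha.lt_or_eq with h1 | h1
    · exact h1
    · exfalso; apply hne.2
      have : b = 1 := by linarith
      rw [← h1, this]; simp
  have hb' : 0 < b := by
    rcases hb.lt_or_eq with h1 | h1
    · exact h1
    · exfalso; apply hne.1
      have : a = 1 := by linarith
      rw [← h1, this]; simp
  have hvw : v ≠ w := by
    rintro rfl
    apply hne.1
    rw [← add_smul, hab, one_smul]
  have e1 := hsup v hv
  have e2 := hsup w hw
  have e3 := hsup 0 h0
  rw [inner_add_left, real_inner_smul_left, real_inner_smul_left] at e1 e2 e3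
  rw [inner_zero_left] at e3
  have e4 : inner ℝ v u = inner ℝ w u := by
    have hb2 : b = 1 - a := by linarith
    subst hb2
    nlinarith
  have e5 : 0 ≤ inner ℝ v u := by
    rw [← e4, ← add_mul, hab, one_mul] at e3
    exact e3
  rw [norm_one_iff] at hn hu
  rw [inner2] at e5 hvn hwn
  rw [inner2, inner2] at e4
  have hd : v 0 - w 0 ≠ 0 ∨ v 1 - w 1 ≠ 0 := by
    by_contra hc
    push Not at hc
    apply hvw
    ext i
    fin_cases i
    · simp; linarith [hc.1]
    · simp; linarith [hc.2]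
  have hcross : u 0 * n 1 - u 1 * n 0 = 0 := by
    rcases hd with hd | hd
    · apply mul_left_cancel₀ hd
      linear_combination n 1 * e4 - u 1 * hvn + u 1 * hwn
    · apply mul_left_cancel₀ hd
      linear_combination (-n 0) * e4 + u 0 * hvn - u 0 * hwn
  set l := u 0 * n 0 + u 1 * n 1 with hl
  have f0 : u 0 = l * n 0 := by linear_combination (-u 0) * hn + n 1 * hcross
  have f1 : u 1 = l * n 1 := by linear_combination (-u 1) * hn - n 0 * hcross
  have hl2 : l * l = 1 := by
    have : u 0 * u 0 + u 1 * u 1 = l * l * (n 0 * n 0 + n 1 * n 1) := by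
      rw [f0, f1]; ring
    rw [hn, hu] at this
    linarith
  have hl0 : 0 ≤ l := by
    have : v 0 * u 0 + v 1 * u 1 = l * h := by rw [f0, f1, ← hvn]; ring
    rw [this] at e5
    exact nonneg_of_mul_nonneg_left e5 hh
  have hl1 : l = 1 := by nlinarith
  ext i
  fin_cases i
  · simp; rw [f0, hl1, one_mul]
  · simp; rw [f1, hl1, one_mul]

lemma seg_inner {v w n x : E} {h : ℝ} (hvn : inner ℝ v n = h) (hwn : inner ℝ w n = h)
    (hx : x ∈ segment ℝ v w) : inner ℝ x n = h := by
  obtain ⟨a, b, -, -, hab, rfl⟩ := hx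
  rw [inner_add_left, real_inner_smul_left, real_inner_smul_left, hvn, hwn, ← add_mul, hab, one_mul]

theorem polygon_integral {ι : Type} [Fintype ι] (A : Set E) (v w n : ι → E) (h : ι → ℝ) (q : ℝ)
    (h0 : (0 : E) ∈ A) (hconv : Convex ℝ A) (hcl : IsClosed A)
    (hn : ∀ i, ‖n i‖ = 1) (hh : ∀ i, 0 < h i) (hA : ∀ i, ∀ y ∈ A, inner ℝ y (n i) ≤ h i)
    (hv : ∀ i, v i ∈ A) (hw : ∀ i, w i ∈ A) (hvn : ∀ i, inner ℝ (v i) (n i) = h i)
    (hwn : ∀ i, inner ℝ (w i) (n i) = h i) (hinj : Function.Injective n)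
    (hfr : frontier A ⊆ ⋃ i, segment ℝ (v i) (w i)) :
    ∫ x in frontier A, (sSup (sv A x)) ^ q ∂(μH[1]) = ∑ i, h i ^ q * dist (v i) (w i) := by
  have : NullSingletonClass (μH[1] : Measure E) :=
    Measure.nullSingletonClass_hausdorff E one_pos
  set O : ι → Set E := fun i => segment ℝ (v i) (w i) \ {v i, w i} with hO
  have hseg : ∀ i, segment ℝ (v i) (w i) ⊆ frontier A := by
    intro i x hx
    rw [hcl.frontier_eq]
    refine ⟨hconv.segment_subset (hv i) (hw i) hx, fun hi => ?_⟩
    have h1 := seg_inner (hvn i) (hwn i) hx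
    obtain ⟨e, he, hb⟩ := Metric.mem_nhds_iff.mp (mem_interior_iff_mem_nhds.mp hi)
    have h2 : x + (e / 2) • n i ∈ A := by
      apply hb
      rw [Metric.mem_ball, dist_eq_norm, add_sub_cancel_left, norm_smul, hn i, Real.norm_eq_abs,
        abs_of_pos (by linarith)]
      linarith
    have h3 := hA i _ h2
    rw [inner_add_left, real_inner_smul_left, real_inner_self_eq_norm_sq, hn i, h1] at h3
    linarith
  have hsup : ∀ i, ∀ x ∈ O i, ∀ y ∈ A, inner ℝ y (n i) ≤ inner ℝ x (n i) := by
    intro i x hx y hy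
    rw [seg_inner (hvn i) (hwn i) hx.1]
    exact hA i y hy
  have hval : ∀ i, ∀ x ∈ O i, sv A x = {h i} := by
    intro i x hx
    ext t
    simp only [sv, mem_ofPred_eq, mem_singleton_iff]
    constructor
    · rintro ⟨u, hu, hs, rfl⟩
      rw [unique_normal h0 (hn i) (hh i) (hv i) (hw i) (hvn i) (hwn i) hx hu hs]
      exact seg_inner (hvn i) (hwn i) hx.1
    · rintro rfl
      exact ⟨n i, hn i, hsup i x hx, (seg_inner (hvn i) (hwn i) hx.1).symm⟩
  have hmeas : ∀ i, MeasurableSet (O i) := by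
    intro i
    refine MeasurableSet.diff ?_ (Set.toFinite _).measurableSet
    rw [segment_eq_image_lineMap]
    exact (isCompact_Icc.image AffineMap.lineMap_continuous).isClosed.measurableSet
  have hmu : ∀ i, (μH[1] : Measure E) (O i) = edist (v i) (w i) := by
    intro i
    rw [hO]
    simp only
    rw [measure_sdiff_null ((Set.toFinite _).measure_zero _), hausdorffMeasure_segment]
  have hdisj : Pairwise (Function.onFun Disjoint O) := by
    intro i j hij
    rw [Function.onFun, Set.disjoint_left]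
    intro x hi hj
    exact hij (hinj (unique_normal h0 (hn j) (hh j) (hv j) (hw j) (hvn j) (hwn j) hj (hn i)
      (hsup i x hi)))
  have hae : (frontier A : Set E) =ᵐ[μH[1]] (⋃ i, O i : Set E) := by
    rw [ae_eq_set]
    constructor
    · apply measure_mono_null (t := ⋃ i, ({v i, w i} : Set E))
      · intro x hx
        obtain ⟨i, hi⟩ := mem_iUnion.mp (hfr hx.1)
        by_contra hc
        apply hx.2
        exact mem_iUnion.mpr ⟨i, hi, fun h' => hc (mem_iUnion.mpr ⟨i, h'⟩)⟩
      · exact (Set.finite_iUnion fun i => Set.toFinite _).measure_zero _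
    · rw [sdiff_eq_empty.mpr, measure_empty]
      exact iUnion_subset fun i => sdiff_subset.trans (hseg i)
  have hcongr : ∀ i, EqOn (fun x => (sSup (sv A x)) ^ q) (fun _ => h i ^ q) (O i) := by
    intro i x hx
    simp only [hval i x hx, csSup_singleton]
  rw [setIntegral_congr_set hae, integral_iUnion_fintype hmeas hdisj]
  · refine Finset.sum_congr rfl fun i _ => ?_
    rw [setIntegral_congr_fun (hmeas i) (hcongr i), setIntegral_const, Measure.real, hmu i,
      smul_eq_mul, mul_comm, dist_edist]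
  · intro i
    refine IntegrableOn.congr_fun ?_ (hcongr i).symm (hmeas i)
    apply integrableOn_const
    · rw [hmu i]; exact edist_ne_top _ _
    · simp

end Pool.Agent.H45Z.Lp
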