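import Pool.Agent.H45Z.LpA

set_option autoImplicit false

open MeasureTheory Set
open scoped Pointwise

namespace Pool.Agent.H45Z.Lp

/-- Hexagons symmetric about the horizontal axis. -/
def P (c s a b H1 H2 : ℝ) : Set E :=
  {x | -a ≤ x 0 ∧ x 0 ≤ b ∧ s * x 1 - c * x 0 ≤ H1 ∧ -(s * x 1) - c * x 0 ≤ H1 ∧
    s * x 1 + c * x 0 ≤ H2 ∧ -(s * x 1) + c * x 0 ≤ H2}

/-- The open hexagon. -/
def U (c s a b H1 H2 : ℝ) : Set E :=
  {x | -a < x 0 ∧ x 0 < b ∧ s * x 1 - c * x 0 < H1 ∧ -(s * x 1) - c * x 0 < H1 ∧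
    s * x 1 + c * x 0 < H2 ∧ -(s * x 1) + c * x 0 < H2}

lemma P_closed (c s a b H1 H2 : ℝ) : IsClosed (P c s a b H1 H2) := by
  unfold P
  simp only [ofPred_and]
  refine IsClosed.inter ?_ (IsClosed.inter ?_ (IsClosed.inter ?_ (IsClosed.inter ?_
    (IsClosed.inter ?_ ?_)))) <;> exact isClosed_le (by fun_prop) (by fun_prop)

lemma U_open (c s a b H1 H2 : ℝ) : IsOpen (U c s a b H1 H2) := by
  unfold U
  simp only [ofPred_and]
  refine IsOpen.inter ?_ (IsOpen.inter ?_ (IsOpen.inter ?_ (IsOpen.inter ?_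
    (IsOpen.inter ?_ ?_)))) <;> exact isOpen_lt (by fun_prop) (by fun_prop)

lemma U_sub (c s a b H1 H2 : ℝ) : U c s a b H1 H2 ⊆ interior (P c s a b H1 H2) :=
  interior_maximal (fun _ h => ⟨h.1.le, h.2.1.le, h.2.2.1.le, h.2.2.2.1.le, h.2.2.2.2.1.le,
    h.2.2.2.2.2.le⟩) (U_open c s a b H1 H2)

lemma P_convex (c s a b H1 H2 : ℝ) : Convex ℝ (P c s a b H1 H2) := by
  rintro x ⟨x1, x2, x3, x4, x5, x6⟩ y ⟨y1, y2, y3, y4, y5, y6⟩ p q hp hq hpq
  have key : ∀ u v r : ℝ, u ≤ r → v ≤ r → p * u + q * v ≤ r := by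
    intro u v r hu hv
    have : r = p * r + q * r := by rw [← add_mul, hpq, one_mul]
    nlinarith [mul_le_mul_of_nonneg_left hu hp, mul_le_mul_of_nonneg_left hv hq]
  simp only [P, mem_ofPred_eq, PiLp.add_apply, PiLp.smul_apply, smul_eq_mul]
  refine ⟨?_, key _ _ _ x2 y2, ?_, ?_, ?_, ?_⟩
  · linarith [key (-x 0) (-y 0) a (by linarith) (by linarith)]
  · linarith [key _ _ _ x3 y3]
  · linarith [key _ _ _ x4 y4]
  · linarith [key _ _ _ x5 y5]
  · linarith [key _ _ _ x6 y6]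

lemma P_compact {c s a b H1 H2 : ℝ} (hs : 0 < s) : IsCompact (P c s a b H1 H2) := by
  apply Metric.isCompact_of_isClosed_isBounded (P_closed c s a b H1 H2)
  rw [isBounded_iff_forall_norm_le]
  refine ⟨(|a| + |b|) + |H1 + H2| / s, ?_⟩
  rintro x ⟨x1, x2, x3, x4, x5, x6⟩
  have h0 : |x 0| ≤ |a| + |b| := by
    rw [abs_le]
    constructor <;> linarith [le_abs_self a, le_abs_self b, abs_nonneg a, abs_nonneg b]
  have h1 : |x 1| ≤ |H1 + H2| / s := by
    rw [le_div_iff₀ hs, ← abs_of_pos hs, ← abs_mul, abs_le]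
    have := le_abs_self (H1 + H2)
    have := abs_nonneg (H1 + H2)
    constructor <;> nlinarith
  have h2 : ‖x‖ ≤ |x 0| + |x 1| := by
    apply abs_le_of_sq_le_sq' _ (by positivity) |>.2
    rw [← real_inner_self_eq_norm_sq, inner2]
    nlinarith [abs_mul_abs_self (x 0), abs_mul_abs_self (x 1), mul_nonneg (abs_nonneg (x 0)) (abs_nonneg (x 1))]
  linarith

lemma seg_of_t {x : E} {v0 v1 w0 w1 : ℝ} (t : ℝ) (h0 : 0 ≤ t) (h1 : t ≤ 1)
    (e0 : x 0 = v0 + t * (w0 - v0)) (e1 : x 1 = v1 + t * (w1 - v1)) :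
    x ∈ segment ℝ (!₂[v0, v1] : E) !₂[w0, w1] := by
  refine ⟨1 - t, t, by linarith, h0, by ring, ?_⟩
  ext i
  fin_cases i
  · simp; linarith
  · simp; linarith

lemma seg_h {x : E} {v0 v1 w0 w1 : ℝ} (hlt : v0 < w0) (h0 : v0 ≤ x 0) (h1 : x 0 ≤ w0)
    (e : (x 1 - v1) * (w0 - v0) = (w1 - v1) * (x 0 - v0)) :
    x ∈ segment ℝ (!₂[v0, v1] : E) !₂[w0, w1] := by
  have hd : 0 < w0 - v0 := by linarith
  refine seg_of_t ((x 0 - v0) / (w0 - v0)) (div_nonneg (by linarith) hd.le)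
    ((div_le_one hd).mpr (by linarith)) (by field_simp; ring) ?_
  field_simp
  linarith

lemma seg_v {x : E} {v0 y : ℝ} (hy : 0 < y) (e : x 0 = v0) (h0 : -y ≤ x 1) (h1 : x 1 ≤ y) :
    x ∈ segment ℝ (!₂[v0, -y] : E) !₂[v0, y] := by
  refine seg_of_t ((x 1 + y) / (2 * y)) (div_nonneg (by linarith) (by linarith))
    ((div_le_one (by linarith)).mpr (by linarith)) (by rw [e]; ring) ?_
  field_simp
  ring

lemma dist_of {v0 v1 w0 w1 d : ℝ} (hd : 0 ≤ d) (h : (v0 - w0) ^ 2 + (v1 - w1) ^ 2 = d ^ 2) :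
    dist (!₂[v0, v1] : E) !₂[w0, w1] = d := by
  rw [EuclideanSpace.dist_eq]
  simp [Fin.sum_univ_two, Real.dist_eq, sq_abs, h, Real.sqrt_sq hd]

theorem P_integral {c s a b H1 H2 m T yl yr : ℝ} (q : ℝ) (hc : 0 < c) (hs : 0 < s)
    (hcs : c * c + s * s = 1) (ha : 0 < a) (hb : 0 < b) (hyl : 0 < yl) (hyr : 0 < yr)
    (hm1 : -a < m) (hm2 : m < b) (e1 : s * T - c * m = H1) (e2 : s * T + c * m = H2)
    (e3 : s * yl + c * a = H1) (e4 : s * yr + c * b = H2) :
    ∫ x in frontier (P c s a b H1 H2), (sSup (sv (P c s a b H1 H2) x)) ^ q ∂(μH[1]) =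
      a ^ q * (2 * yl) + b ^ q * (2 * yr) + 2 * (H1 ^ q * ((m + a) / s)) +
        2 * (H2 ^ q * ((b - m) / s)) := by
  have hH1 : 0 < H1 := by rw [← e3]; positivity
  have hH2 : 0 < H2 := by rw [← e4]; positivity
  have p1 : 0 < c * (m + a) := mul_pos hc (by linarith)
  have p2 : 0 < c * (b - m) := mul_pos hc (by linarith)
  have p3 : 0 < s * yl := mul_pos hs hyl
  have p4 : 0 < s * yr := mul_pos hs hyr
  have mem : ∀ x y : ℝ, -a ≤ x → x ≤ b → s * y - c * x ≤ H1 → -(s * y) - c * x ≤ H1 →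
      s * y + c * x ≤ H2 → -(s * y) + c * x ≤ H2 → (!₂[x, y] : E) ∈ P c s a b H1 H2 := by
    intro x y h1 h2 h3 h4 h5 h6
    exact ⟨h1, h2, h3, h4, h5, h6⟩
  have m1 := mem (-a) (-yl) le_rfl (by linarith) (by linarith) (by linarith) (by linarith) (by linarith)
  have m2 := mem (-a) yl le_rfl (by linarith) (by linarith) (by linarith) (by linarith) (by linarith)
  have m3 := mem b (-yr) (by linarith) le_rfl (by linarith) (by linarith) (by linarith) (by linarith)
  have m4 := mem b yr (by linarith) le_rfl (by linarith) (by linarith) (by linarith) (by linarith)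
  have m5 := mem m T hm1.le hm2.le (by linarith) (by linarith) (by linarith) (by linarith)
  have m6 := mem m (-T) hm1.le hm2.le (by linarith) (by linarith) (by linarith) (by linarith)
  have d1 : T - yl = c * ((m + a) / s) := by field_simp; linarith
  have d2 : T - yr = c * ((b - m) / s) := by field_simp; linarith
  have d3 : m + a = s * ((m + a) / s) := by field_simp
  have d4 : b - m = s * ((b - m) / s) := by field_simp
  have q1 : 0 ≤ (m + a) / s := div_nonneg (by linarith) hs.le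
  have q2 : 0 ≤ (b - m) / s := div_nonneg (by linarith) hs.le
  rw [polygon_integral (ι := Fin 6) (P c s a b H1 H2)
    ![!₂[-a, -yl], !₂[b, -yr], !₂[-a, yl], !₂[-a, -yl], !₂[m, T], !₂[m, -T]]
    ![!₂[-a, yl], !₂[b, yr], !₂[m, T], !₂[m, -T], !₂[b, yr], !₂[b, -yr]]
    ![!₂[-1, 0], !₂[1, 0], !₂[-c, s], !₂[-c, -s], !₂[c, s], !₂[c, -s]]
    ![a, b, H1, H1, H2, H2] q]
  · simp only [Fin.sum_univ_six, Matrix.cons_val_zero, Matrix.cons_val_one, Matrix.cons_val]
    rw [dist_of (d := 2 * yl) (by linarith) (by ring), dist_of (d := 2 * yr) (by linarith) (by ring),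
      dist_of (d := (m + a) / s) q1
        (by linear_combination (T - yl + c * ((m + a) / s)) * d1 + (m + a + s * ((m + a) / s)) * d3
          + ((m + a) / s) ^ 2 * hcs),
      dist_of (d := (m + a) / s) q1
        (by linear_combination (T - yl + c * ((m + a) / s)) * d1 + (m + a + s * ((m + a) / s)) * d3
          + ((m + a) / s) ^ 2 * hcs),
      dist_of (d := (b - m) / s) q2
        (by linear_combination (T - yr + c * ((b - m) / s)) * d2 + (b - m + s * ((b - m) / s)) * d4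
          + ((b - m) / s) ^ 2 * hcs),
      dist_of (d := (b - m) / s) q2
        (by linear_combination (T - yr + c * ((b - m) / s)) * d2 + (b - m + s * ((b - m) / s)) * d4
          + ((b - m) / s) ^ 2 * hcs)]
    ring
  · simp [P]
    exact ⟨ha.le, hb.le, hH1.le, hH2.le⟩
  · exact P_convex _ _ _ _ _ _
  · exact P_closed _ _ _ _ _ _
  · intro i
    rw [norm_one_iff]
    fin_cases i <;> simp <;> linarith
  · intro i
    fin_cases i <;> simpa
  · rintro i y ⟨y1, y2, y3, y4, y5, y6⟩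
    rw [inner2]
    fin_cases i <;> simp <;> linarith
  · intro i
    fin_cases i <;> simpa
  · intro i
    fin_cases i <;> simpa
  · intro i
    rw [inner2]
    fin_cases i <;> simp <;> linarith
  · intro i
    rw [inner2]
    fin_cases i <;> simp <;> linarith
  · intro i j hij
    have h0 := congrArg (fun z : E => z 0) hij
    have h1 := congrArg (fun z : E => z 1) hij
    fin_cases i <;> fin_cases j <;> simp at h0 h1 ⊢ <;> linarith
  · intro x hx
    rw [(P_closed c s a b H1 H2).frontier_eq] at hx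
    obtain ⟨⟨x1, x2, x3, x4, x5, x6⟩, hx2⟩ := hx
    have hx3 : x ∉ U c s a b H1 H2 := fun h => hx2 (U_sub _ _ _ _ _ _ h)
    simp only [U, mem_ofPred_eq, not_and_or, not_lt] at hx3
    rw [mem_iUnion]
    have cancel : ∀ u v : ℝ, s * u ≤ s * v → u ≤ v := fun u v h => le_of_mul_le_mul_left h hs
    have cancelc : ∀ u v : ℝ, c * u ≤ c * v → u ≤ v := fun u v h => le_of_mul_le_mul_left h hc
    rcases hx3 with h | h | h | h | h | h
    · have e : x 0 = -a := by linarith
      rw [e] at x3 x4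
      exact ⟨0, seg_v hyl e (cancel _ _ (by linarith)) (cancel _ _ (by linarith))⟩
    · have e : x 0 = b := by linarith
      rw [e] at x5 x6
      exact ⟨1, seg_v hyr e (cancel _ _ (by linarith)) (cancel _ _ (by linarith))⟩
    · refine ⟨2, seg_h hm1 x1 (cancelc _ _ (by linarith)) (mul_left_cancel₀ hs.ne' ?_)⟩
      have e : s * x 1 - c * x 0 = H1 := by linarith
      linear_combination (m + a) * e - (x 0 + a) * e1 - (m - x 0) * e3
    · refine ⟨3, seg_h hm1 x1 (cancelc _ _ (by linarith)) (mul_left_cancel₀ hs.ne' ?_)⟩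
      have e : -(s * x 1) - c * x 0 = H1 := by linarith
      linear_combination -(m + a) * e + (x 0 + a) * e1 + (m - x 0) * e3
    · refine ⟨4, seg_h hm2 (cancelc _ _ (by linarith)) x2 (mul_left_cancel₀ hs.ne' ?_)⟩
      have e : s * x 1 + c * x 0 = H2 := by linarith
      linear_combination (b - m) * e - (b - x 0) * e2 - (x 0 - m) * e4
    · refine ⟨5, seg_h hm2 (cancelc _ _ (by linarith)) x2 (mul_left_cancel₀ hs.ne' ?_)⟩
      have e : -(s * x 1) + c * x 0 = H2 := by linarith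
      linear_combination -(b - m) * e + (b - x 0) * e2 + (x 0 - m) * e4

lemma split {y B1 B2 : ℝ} (h1 : 0 ≤ B1) (h2 : 0 ≤ B2) (h : |y| ≤ B1 + B2) :
    ∃ y1 y2, |y1| ≤ B1 ∧ |y2| ≤ B2 ∧ y1 + y2 = y := by
  rw [abs_le] at h
  by_cases p : y ≤ -B1
  · exact ⟨-B1, y + B1, by rw [abs_le]; constructor <;> linarith,
      by rw [abs_le]; constructor <;> linarith, by ring⟩
  by_cases p' : y ≤ B1
  · exact ⟨y, 0, by rw [abs_le]; constructor <;> linarith, by simpa, by ring⟩
  · exact ⟨B1, y - B1, by rw [abs_le]; constructor <;> linarith,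
      by rw [abs_le]; constructor <;> linarith, by ring⟩

lemma sum_eq : P (400 / 40001) (39999 / 40001) 1500 100 16 9 +
    P (400 / 40001) (39999 / 40001) 100 1500 9 16 =
    P (400 / 40001) (39999 / 40001) 1600 1600 25 25 := by
  ext x
  constructor
  · rintro ⟨y, ⟨y1, y2, y3, y4, y5, y6⟩, z, ⟨z1, z2, z3, z4, z5, z6⟩, rfl⟩
    simp only [P, mem_ofPred_eq, PiLp.add_apply]
    refine ⟨?_, ?_, ?_, ?_, ?_, ?_⟩ <;> linarith
  · rintro ⟨x1, x2, x3, x4, x5, x6⟩
    have fin : ∀ u v : ℝ, u + v = x 0 → -1500 ≤ u → u ≤ 100 → -100 ≤ v → v ≤ 1500 →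
        ∀ B1 B2 : ℝ, 0 ≤ B1 → 0 ≤ B2 → |x 1| ≤ B1 + B2 →
        39999 / 40001 * B1 ≤ 16 + 400 / 40001 * u → 39999 / 40001 * B1 ≤ 9 - 400 / 40001 * u →
        39999 / 40001 * B2 ≤ 9 + 400 / 40001 * v → 39999 / 40001 * B2 ≤ 16 - 400 / 40001 * v →
        x ∈ P (400 / 40001) (39999 / 40001) 1500 100 16 9 +
          P (400 / 40001) (39999 / 40001) 100 1500 9 16 := by
      intro u v huv a1 a2 a3 a4 B1 B2 b1 b2 b3 c1 c2 c3 c4
      obtain ⟨y1, y2, h1, h2, h3⟩ := split b1 b2 b3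
      rw [abs_le] at h1 h2
      refine ⟨!₂[u, y1], ?_, !₂[v, y2], ?_, ?_⟩
      · simp only [P, mem_ofPred_eq, Matrix.cons_val_zero, Matrix.cons_val_one]
        refine ⟨?_, ?_, ?_, ?_, ?_, ?_⟩ <;> linarith [h1.1, h1.2]
      · simp only [P, mem_ofPred_eq, Matrix.cons_val_zero, Matrix.cons_val_one]
        refine ⟨?_, ?_, ?_, ?_, ?_, ?_⟩ <;> linarith [h2.1, h2.2]
      · ext i
        fin_cases i
        · simpa using huv
        · simpa using h3
    by_cases h : x 0 ≤ 0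
    · refine fin (-1500 + (x 0 + 1600) * ((1500 - 280007 / 800) / 1600))
        (-100 + (x 0 + 1600) * ((100 + 280007 / 800) / 1600)) (by ring) (by linarith) (by linarith)
        (by linarith) (by linarith)
        ((16 + 400 / 40001 * (-1500 + (x 0 + 1600) * ((1500 - 280007 / 800) / 1600))) * (40001 / 39999))
        ((9 + 400 / 40001 * (-100 + (x 0 + 1600) * ((100 + 280007 / 800) / 1600))) * (40001 / 39999))
        (by linarith) (by linarith) ?_ (by linarith) (by linarith) (by linarith) (by linarith)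
      rw [abs_le]
      constructor <;> linarith
    · refine fin (100 - (1600 - x 0) * ((100 + 280007 / 800) / 1600))
        (1500 - (1600 - x 0) * ((1500 - 280007 / 800) / 1600)) (by ring) (by linarith) (by linarith)
        (by linarith) (by linarith)
        ((9 - 400 / 40001 * (100 - (1600 - x 0) * ((100 + 280007 / 800) / 1600))) * (40001 / 39999))
        ((16 - 400 / 40001 * (1500 - (1600 - x 0) * ((1500 - 280007 / 800) / 1600))) * (40001 / 39999))
        (by linarith) (by linarith) ?_ (by linarith) (by linarith) (by linarith) (by linarith)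
      rw [abs_le]
      constructor <;> linarith

lemma rp (t : ℝ) (ht : 0 ≤ t) : (t ^ 2) ^ (1 - 1 / 2 : ℝ) = t := by
  rw [← Real.rpow_natCast, ← Real.rpow_mul ht]
  norm_num

lemma rp3 (t : ℝ) (ht : 0 ≤ t) : (t ^ 3) ^ (1 / (((2 : ℕ) : ℝ) - 1 / 2)) = t ^ 2 := by
  rw [← Real.rpow_natCast, ← Real.rpow_mul ht, ← Real.rpow_natCast]
  norm_num

/-- The `L_{1/2}` surface area in the plane. -/
noncomputable def S (A : Set E) : ℝ :=
  ∫ x in frontier A, (sSup (sv A x)) ^ (1 - 1 / 2 : ℝ) ∂(μH[1])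

lemma SK : (22.9 : ℝ) ^ 3 ≤ S (P (400 / 40001) (39999 / 40001) 1500 100 16 9) := by
  unfold S
  rw [P_integral (m := -(280007 / 800)) (T := 25 / 2 * (40001 / 39999))
    (yl := 40016 / 39999) (yr := 320009 / 39999)] <;> try norm_num
  have h1 := rp 10 (by norm_num)
  have h2 := rp 4 (by norm_num)
  have h3 := rp 3 (by norm_num)
  have h4 : 0 ≤ (1500 : ℝ) ^ (1 / 2 : ℝ) := by positivity
  norm_num at h1 h2 h3 h4 ⊢
  linarith

lemma SL : (22.9 : ℝ) ^ 3 ≤ S (P (400 / 40001) (39999 / 40001) 100 1500 9 16) := by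
  unfold S
  rw [P_integral (m := (280007 / 800)) (T := 25 / 2 * (40001 / 39999))
    (yr := 40016 / 39999) (yl := 320009 / 39999)] <;> try norm_num
  have h4 : 0 ≤ (1500 : ℝ) ^ (1 / 2 : ℝ) := by positivity
  norm_num at h4 ⊢
  linarith

lemma SKL : S (P (400 / 40001) (39999 / 40001) 1600 1600 25 25) =
    2 * 40 * (2 * (360025 / 39999)) + 4 * (5 * (1600 / (39999 / 40001))) := by
  unfold S
  rw [P_integral (m := 0) (T := 25 * (40001 / 39999))
    (yr := 360025 / 39999) (yl := 360025 / 39999)] <;> try norm_num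

theorem fails : S (P (400 / 40001) (39999 / 40001) 1500 100 16 9 +
      P (400 / 40001) (39999 / 40001) 100 1500 9 16) ^ (1 / (((2 : ℕ) : ℝ) - 1 / 2)) <
    S (P (400 / 40001) (39999 / 40001) 1500 100 16 9) ^ (1 / (((2 : ℕ) : ℝ) - 1 / 2)) +
    S (P (400 / 40001) (39999 / 40001) 100 1500 9 16) ^ (1 / (((2 : ℕ) : ℝ) - 1 / 2)) := by
  have he : (0 : ℝ) ≤ 1 / (((2 : ℕ) : ℝ) - 1 / 2) := by norm_num
  have h1 := Real.rpow_le_rpow (by norm_num) SK he
  have h2 := Real.rpow_le_rpow (by norm_num) SL he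
  have h3 : S (P (400 / 40001) (39999 / 40001) 1600 1600 25 25) ≤ (32.3 : ℝ) ^ 3 := by
    rw [SKL]; norm_num
  have h4 := Real.rpow_le_rpow (by rw [SKL]; norm_num) h3 he
  rw [rp3 _ (by norm_num)] at h1 h2 h4
  rw [sum_eq]
  have : (32.3 : ℝ) ^ 2 < 22.9 ^ 2 + 22.9 ^ 2 := by norm_num
  linarith

lemma zero_int {c s a b H1 H2 : ℝ} (ha : 0 < a) (hb : 0 < b) (h1 : 0 < H1) (h2 : 0 < H2) :
    (0 : E) ∈ interior (P c s a b H1 H2) := by
  apply U_sub
  simp [U, ha, hb, h1, h2]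

end Pool.Agent.H45Z.Lp
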