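import Mathlib

set_option autoImplicit false

namespace Pool.Agent.H45Z.Scheme

open Finset

/-- A `d`-class symmetric association scheme on the finite set `X`; `rel x y = i` means
`(x, y)` lies in the relation `R_i`. -/
structure SymScheme (X : Type) [Fintype X] [DecidableEq X] (d : ℕ) where
  rel : X → X → Fin (d + 1)
  nonempty : Nonempty X
  surj : ∀ i, ∃ x y, rel x y = i
  diag : ∀ x y, rel x y = 0 ↔ x = y
  symm : ∀ x y, rel x y = rel y x
  inter : ∀ i j k, ∃ p : ℕ, ∀ x y, rel x y = k →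
    (univ.filter fun z => rel x z = i ∧ rel z y = j).card = p

variable {X : Type} [Fintype X] [DecidableEq X] {d : ℕ}

/-- The 0/1 adjacency matrix `A_i`. -/
def adj (S : SymScheme X d) (i : Fin (d + 1)) : Matrix X X ℂ :=
  fun x y => if S.rel x y = i then 1 else 0

/-- The Bose-Mesner algebra, as the span of the `A_i`. -/
def bm (S : SymScheme X d) : Submodule ℂ (Matrix X X ℂ) :=
  Submodule.span ℂ (Set.range (adj S))

/-- The triangle tensor: its coefficient at `(x, y, z)` is `L x z * M x y * N y z`. -/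
def triT (L M N : Matrix X X ℂ) : X × X × X → ℂ :=
  fun p => L p.1 p.2.2 * M p.1 p.2.1 * N p.2.1 p.2.2

/-- The star tensor: its coefficient at `(x, y, z)` is the sum over `u` of
`L x u * M y u * N z u`. -/
def starT (L M N : Matrix X X ℂ) : X × X × X → ℂ :=
  fun p => ∑ u, L p.1 u * M p.2.1 u * N p.2.2 u

/-- The span of all triangle tensors. -/
def WDelta (S : SymScheme X d) : Submodule ℂ (X × X × X → ℂ) :=
  Submodule.span ℂ {t | ∃ L ∈ bm S, ∃ M ∈ bm S, ∃ N ∈ bm S, t = triT L M N}

/-- The span of all star tensors. -/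
def WY (S : SymScheme X d) : Submodule ℂ (X × X × X → ℂ) :=
  Submodule.span ℂ {t | ∃ L ∈ bm S, ∃ M ∈ bm S, ∃ N ∈ bm S, t = starT L M N}

/-- Triple regularity, by counting. -/
def TriplyRegular (S : SymScheme X d) : Prop :=
  ∀ (i j k : Fin (d + 1)) (x y z x' y' z' : X),
    S.rel x y = S.rel x' y' → S.rel x z = S.rel x' z' → S.rel y z = S.rel y' z' →
    (univ.filter fun u => S.rel x u = i ∧ S.rel y u = j ∧ S.rel z u = k).card =
      (univ.filter fun u => S.rel x' u = i ∧ S.rel y' u = j ∧ S.rel z' u = k).card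

/-- Dual triple regularity. -/
def DuallyTriplyRegular (S : SymScheme X d) : Prop :=
  WDelta S ≤ WY S

/-- `E` lists the primitive idempotents of the Bose-Mesner algebra, in some order with
`E 0 = J / |X|`: `d + 1` nonzero, pairwise orthogonal idempotents of the algebra with sum `I`. -/
def IsPrimIdem (S : SymScheme X d) (E : Fin (d + 1) → Matrix X X ℂ) : Prop :=
  (∀ j, E j ∈ bm S) ∧ (∀ j, E j ≠ 0) ∧ (∀ j, E j * E j = E j) ∧
    (∀ i j, i ≠ j → E i * E j = 0) ∧ ∑ j, E j = 1 ∧
    ∀ x y, E 0 x y = (Fintype.card X : ℂ)⁻¹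

/-- `P` and `Q` are the eigenmatrices for the ordering `σ` of the `A_i` and the ordering `E` of
the primitive idempotents. -/
def IsEigen (S : SymScheme X d) (σ : Equiv.Perm (Fin (d + 1))) (E : Fin (d + 1) → Matrix X X ℂ)
    (P Q : Matrix (Fin (d + 1)) (Fin (d + 1)) ℂ) : Prop :=
  IsPrimIdem S E ∧ (∀ i, adj S (σ i) = ∑ j, P j i • E j) ∧
    ∀ i, E i = (Fintype.card X : ℂ)⁻¹ • ∑ j, Q j i • adj S (σ j)

/-- Formal self-duality: for some orderings, `P = Q`. -/
def FormallySelfDual (S : SymScheme X d) : Prop :=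
  ∃ σ E P Q, IsEigen S σ E P Q ∧ P = Q

end Pool.Agent.H45Z.Scheme
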