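import Pool.Agent.H45Z.SchemeDefs

set_option autoImplicit false

namespace Pool.Agent.H45Z.Scheme

open Finset

theorem ext_perm {α β : Type} [Finite α] (f g : β → α) (h : ∀ a b, f a = f b ↔ g a = g b) :
    ∃ σ : Equiv.Perm α, ∀ a, σ (f a) = g a := by
  classical
  let f' : Set.range f → α := fun y => y.1
  let g' : Set.range f → α := fun y => g y.2.choose
  have hf' : Function.Injective f' := Subtype.val_injective
  have hg' : Function.Injective g' := by
    intro y z hyz
    apply Subtype.ext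
    have := (h _ _).2 hyz
    rw [y.2.choose_spec, z.2.choose_spec] at this
    exact this
  obtain ⟨σ, hσ⟩ := Equiv.Perm.exists_extending_pair f' g' hf' hg'
  refine ⟨σ, fun a => ?_⟩
  have := hσ ⟨f a, a, rfl⟩
  simp only [f', g'] at this
  rw [this]
  apply (h _ _).1
  exact (⟨a, rfl⟩ : f a ∈ Set.range f).choose_spec

variable {m n : ℕ}

/-- the relation: equal, same part, different parts -/
def r (x y : Fin m × Fin n) : Fin 3 := if x = y then 0 else if x.1 = y.1 then 1 else 2

theorem r_eq_iff {x y x' y' : Fin m × Fin n} (h : r x y = r x' y') :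
    (x = y ↔ x' = y') ∧ (x.1 = y.1 ↔ x'.1 = y'.1) := by
  unfold r at h
  by_cases h1 : x = y <;> by_cases h2 : x' = y' <;> by_cases h3 : x.1 = y.1 <;>
    by_cases h4 : x'.1 = y'.1 <;> simp_all

theorem r_symm (x y : Fin m × Fin n) : r x y = r y x := by
  unfold r
  simp only [eq_comm (a := x), eq_comm (a := x.1)]

theorem homog {β : Type} (f g : β → Fin m × Fin n) (h : ∀ a b, r (f a) (f b) = r (g a) (g b)) :
    ∃ σ : Equiv.Perm (Fin m × Fin n), (∀ u v, r (σ u) (σ v) = r u v) ∧ ∀ a, σ (f a) = g a := by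
  obtain ⟨π, hπ⟩ := ext_perm (fun a => (f a).1) (fun a => (g a).1)
    (fun a b => (r_eq_iff (h a b)).2)
  have : ∀ s : Fin m, ∃ τ : Equiv.Perm (Fin n), ∀ a : {a // (f a).1 = s},
      τ (f a.1).2 = (g a.1).2 := by
    intro s
    apply ext_perm (fun a : {a // (f a).1 = s} => (f a.1).2) (fun a => (g a.1).2)
    intro a b
    have h1 := r_eq_iff (h a.1 b.1)
    have h2 : (f a.1).1 = (f b.1).1 := a.2.trans b.2.symm
    have h3 := h1.2.1 h2
    constructor
    · intro h4
      exact congrArg Prod.snd (h1.1.1 (Prod.ext h2 h4))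
    · intro h4
      exact congrArg Prod.snd (h1.1.2 (Prod.ext h3 h4))
  choose τ hτ using this
  refine ⟨Equiv.prodShear π τ, fun u v => ?_, fun a => ?_⟩
  · unfold r
    have e1 : (Equiv.prodShear π τ u = Equiv.prodShear π τ v) ↔ u = v :=
      (Equiv.prodShear π τ).apply_eq_iff_eq
    have e2 : ((Equiv.prodShear π τ u).1 = (Equiv.prodShear π τ v).1) ↔ u.1 = v.1 := by
      simp [Equiv.prodShear]
    simp only [e1, e2]
  · apply Prod.ext
    · simpa [Equiv.prodShear] using hπ a
    · simpa [Equiv.prodShear] using hτ (f a).1 ⟨a, rfl⟩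

theorem r_self (x : Fin m × Fin n) : r x x = 0 := by simp [r]

theorem triple_count (i j k : Fin 3) (x y z x' y' z' : Fin m × Fin n)
    (h1 : r x y = r x' y') (h2 : r x z = r x' z') (h3 : r y z = r y' z') :
    (univ.filter fun u => r x u = i ∧ r y u = j ∧ r z u = k).card =
      (univ.filter fun u => r x' u = i ∧ r y' u = j ∧ r z' u = k).card := by
  obtain ⟨σ, hσ, hf⟩ := homog (β := Fin 3) ![x, y, z] ![x', y', z'] (by
    intro a b
    fin_cases a <;> fin_cases b <;> simp [r_self, h1, h2, h3, r_symm y x, r_symm z x,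
      r_symm z y, r_symm y' x', r_symm z' x', r_symm z' y'])
  have e0 : σ x = x' := hf 0
  have e1 : σ y = y' := hf 1
  have e2 : σ z = z' := hf 2
  apply Finset.card_equiv σ
  intro u
  simp only [mem_filter, mem_univ, true_and]
  rw [← e0, ← e1, ← e2, hσ, hσ, hσ]

theorem pair_count (i j : Fin 3) (x y x' y' : Fin m × Fin n) (h1 : r x y = r x' y') :
    (univ.filter fun u => r x u = i ∧ r u y = j).card =
      (univ.filter fun u => r x' u = i ∧ r u y' = j).card := by
  obtain ⟨σ, hσ, hf⟩ := homog (β := Fin 2) ![x, y] ![x', y'] (by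
    intro a b
    fin_cases a <;> fin_cases b <;> simp [r_self, h1, r_symm y x, r_symm y' x'])
  have e0 : σ x = x' := hf 0
  have e1 : σ y = y' := hf 1
  apply Finset.card_equiv σ
  intro u
  simp only [mem_filter, mem_univ, true_and]
  rw [← e0, ← e1, hσ, hσ]

/-- the scheme of the complete multipartite graph with `m` parts of size `n` -/
def multi (m n : ℕ) (hm : 2 ≤ m) (hn : 2 ≤ n) : SymScheme (Fin m × Fin n) 2 where
  rel := r
  nonempty := ⟨(⟨0, by omega⟩, ⟨0, by omega⟩)⟩
  surj := by
    intro i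
    fin_cases i
    · exact ⟨(⟨0, by omega⟩, ⟨0, by omega⟩), (⟨0, by omega⟩, ⟨0, by omega⟩), by simp [r]⟩
    · exact ⟨(⟨0, by omega⟩, ⟨0, by omega⟩), (⟨0, by omega⟩, ⟨1, by omega⟩), by simp [r]⟩
    · exact ⟨(⟨0, by omega⟩, ⟨0, by omega⟩), (⟨1, by omega⟩, ⟨0, by omega⟩), by simp [r]⟩
  diag := by
    intro x y
    unfold r
    by_cases h1 : x = y <;> by_cases h3 : x.1 = y.1 <;> simp_all
  symm := r_symm
  inter := by
    intro i j k
    by_cases h : ∃ x y : Fin m × Fin n, r x y = k
    · obtain ⟨x0, y0, h0⟩ := h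
      exact ⟨_, fun x y hxy => pair_count i j x y x0 y0 (hxy.trans h0.symm)⟩
    · exact ⟨0, fun x y hxy => absurd ⟨x, y, hxy⟩ h⟩

/-- same part -/
def BB (m n : ℕ) : Matrix (Fin m × Fin n) (Fin m × Fin n) ℂ :=
  fun x y => if x.1 = y.1 then 1 else 0

/-- all ones -/
def JJ (m n : ℕ) : Matrix (Fin m × Fin n) (Fin m × Fin n) ℂ := fun _ _ => 1

variable {hm : 2 ≤ m} {hn : 2 ≤ n}

theorem adj0 : adj (multi m n hm hn) 0 = 1 := by
  ext x y
  simp only [adj, multi, r, Matrix.one_apply]
  by_cases h1 : x = y <;> by_cases h3 : x.1 = y.1 <;> simp_all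

theorem adj1 : adj (multi m n hm hn) 1 = BB m n - 1 := by
  ext x y
  simp only [adj, multi, r, Matrix.one_apply, Matrix.sub_apply, BB]
  by_cases h1 : x = y <;> by_cases h3 : x.1 = y.1 <;> simp_all

theorem adj2 : adj (multi m n hm hn) 2 = JJ m n - BB m n := by
  ext x y
  simp only [adj, multi, r, Matrix.sub_apply, BB, JJ]
  by_cases h1 : x = y <;> by_cases h3 : x.1 = y.1 <;> simp_all

theorem one_mem : (1 : Matrix _ _ ℂ) ∈ bm (multi m n hm hn) := by
  rw [← adj0 (hm := hm) (hn := hn)]
  exact Submodule.subset_span ⟨0, rfl⟩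

theorem BB_mem : BB m n ∈ bm (multi m n hm hn) := by
  have h1 : BB m n - 1 ∈ bm (multi m n hm hn) := by
    rw [← adj1 (hm := hm) (hn := hn)]
    exact Submodule.subset_span ⟨1, rfl⟩
  simpa using add_mem h1 one_mem

theorem JJ_mem : JJ m n ∈ bm (multi m n hm hn) := by
  have h1 : JJ m n - BB m n ∈ bm (multi m n hm hn) := by
    rw [← adj2 (hm := hm) (hn := hn)]
    exact Submodule.subset_span ⟨2, rfl⟩
  simpa using add_mem h1 BB_mem

theorem mem_bm {L : Matrix _ _ ℂ} (hL : L ∈ bm (multi m n hm hn)) :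
    ∃ a b c : ℂ, L = a • 1 + b • BB m n + c • JJ m n := by
  rw [bm, Submodule.mem_span_range_iff_exists_fun] at hL
  obtain ⟨c, rfl⟩ := hL
  refine ⟨c 0 - c 1, c 1 - c 2, c 2, ?_⟩
  rw [Fin.sum_univ_three, adj0, adj1, adj2]
  module

theorem BB_mul_BB : BB m n * BB m n = (n : ℂ) • BB m n := by
  ext x y
  simp only [Matrix.mul_apply, BB, Matrix.smul_apply, Fintype.sum_prod_type]
  by_cases h : x.1 = y.1
  · simp [h]
  · simp [h]

theorem BB_mul_JJ : BB m n * JJ m n = (n : ℂ) • JJ m n := by
  ext x y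
  simp only [Matrix.mul_apply, BB, JJ, Matrix.smul_apply, mul_one]
  rw [Fintype.sum_prod_type_right]
  simp only [Finset.sum_ite_eq, Finset.mem_univ, if_true]
  simp

theorem JJ_mul_BB : JJ m n * BB m n = (n : ℂ) • JJ m n := by
  ext x y
  simp only [Matrix.mul_apply, BB, JJ, Matrix.smul_apply, Fintype.sum_prod_type]
  simp

theorem JJ_mul_JJ : JJ m n * JJ m n = ((m : ℂ) * n) • JJ m n := by
  ext x y
  simp [Matrix.mul_apply, JJ]

theorem comb_mul (a b c a' b' c' : ℂ) :
    (a • 1 + b • BB m n + c • JJ m n) * (a' • 1 + b' • BB m n + c' • JJ m n) =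
      (a * a') • 1 + (a * b' + b * a' + n * b * b') • BB m n +
        (a * c' + c * a' + n * b * c' + n * c * b' + m * n * c * c') • JJ m n := by
  simp only [add_mul, mul_add, smul_mul_assoc, mul_smul_comm, one_mul, mul_one, BB_mul_BB,
    BB_mul_JJ, JJ_mul_BB, JJ_mul_JJ]
  module

theorem comb_inj (hm : 2 ≤ m) (hn : 2 ≤ n) {a b c a' b' c' : ℂ}
    (h : a • 1 + b • BB m n + c • JJ m n = a' • 1 + b' • BB m n + c' • JJ m n) :
    a = a' ∧ b = b' ∧ c = c' := by
  have h0 := congrFun (congrFun h (⟨0, by omega⟩, ⟨0, by omega⟩)) (⟨0, by omega⟩, ⟨0, by omega⟩)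
  have h1 := congrFun (congrFun h (⟨0, by omega⟩, ⟨0, by omega⟩)) (⟨0, by omega⟩, ⟨1, by omega⟩)
  have h2 := congrFun (congrFun h (⟨0, by omega⟩, ⟨0, by omega⟩)) (⟨1, by omega⟩, ⟨0, by omega⟩)
  simp [BB, JJ] at h0 h1 h2
  refine ⟨?_, ?_, h2⟩
  · linear_combination h0 - h1
  · linear_combination h1 - h2

section tri
variable {X : Type}

theorem tri_span (s : Set (Matrix X X ℂ)) (W : Submodule ℂ (X × X × X → ℂ))
    (h : ∀ P ∈ s, ∀ Q ∈ s, ∀ R ∈ s, triT P Q R ∈ W) :
    ∀ L ∈ Submodule.span ℂ s, ∀ M ∈ Submodule.span ℂ s, ∀ N ∈ Submodule.span ℂ s,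
      triT L M N ∈ W := by
  have h1 : ∀ P ∈ s, ∀ Q ∈ s, ∀ N ∈ Submodule.span ℂ s, triT P Q N ∈ W := by
    intro P hP Q hQ N hN
    induction hN using Submodule.span_induction with
    | mem R hR => exact h P hP Q hQ R hR
    | zero =>
      have : triT P Q 0 = 0 := by ext p; simp [triT]
      rw [this]; exact zero_mem W
    | add A B _ _ hA hB =>
      have : triT P Q (A + B) = triT P Q A + triT P Q B := by ext p; simp [triT]; ring
      rw [this]; exact add_mem hA hB
    | smul a A _ hA =>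
      have : triT P Q (a • A) = a • triT P Q A := by ext p; simp [triT]; ring
      rw [this]; exact W.smul_mem a hA
  have h2 : ∀ P ∈ s, ∀ M ∈ Submodule.span ℂ s, ∀ N ∈ Submodule.span ℂ s, triT P M N ∈ W := by
    intro P hP M hM N hN
    induction hM using Submodule.span_induction with
    | mem R hR => exact h1 P hP R hR N hN
    | zero =>
      have : triT P 0 N = 0 := by ext p; simp [triT]
      rw [this]; exact zero_mem W
    | add A B _ _ hA hB =>
      have : triT P (A + B) N = triT P A N + triT P B N := by ext p; simp [triT]; ring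
      rw [this]; exact add_mem hA hB
    | smul a A _ hA =>
      have : triT P (a • A) N = a • triT P A N := by ext p; simp [triT]; ring
      rw [this]; exact W.smul_mem a hA
  intro L hL M hM N hN
  induction hL using Submodule.span_induction with
  | mem R hR => exact h2 R hR M hM N hN
  | zero =>
    have : triT 0 M N = 0 := by ext p; simp [triT]
    rw [this]; exact zero_mem W
  | add A B _ _ hA hB =>
    have : triT (A + B) M N = triT A M N + triT B M N := by ext p; simp [triT]; ring
    rw [this]; exact add_mem hA hB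
  | smul a A _ hA =>
    have : triT (a • A) M N = a • triT A M N := by ext p; simp [triT]; ring
    rw [this]; exact W.smul_mem a hA

end tri

theorem star_mem {L M N : Matrix _ _ ℂ} (hL : L ∈ bm (multi m n hm hn))
    (hM : M ∈ bm (multi m n hm hn)) (hN : N ∈ bm (multi m n hm hn)) :
    starT L M N ∈ WY (multi m n hm hn) :=
  Submodule.subset_span ⟨L, hL, M, hM, N, hN, rfl⟩

theorem bm_symm {L : Matrix _ _ ℂ} (hL : L ∈ bm (multi m n hm hn)) (x y : Fin m × Fin n) :
    L x y = L y x := by
  obtain ⟨a, b, c, rfl⟩ := mem_bm hL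
  simp only [Matrix.add_apply, Matrix.smul_apply, Matrix.one_apply, BB, JJ, eq_comm (a := x),
    eq_comm (a := x.1)]

theorem triA {L M : Matrix _ _ ℂ} (hL : L ∈ bm (multi m n hm hn))
    (hM : M ∈ bm (multi m n hm hn)) : triT L M (JJ m n) ∈ WY (multi m n hm hn) := by
  have : triT L M (JJ m n) = starT 1 M L := by
    ext ⟨x, y, z⟩
    simp only [triT, starT, JJ, Matrix.one_apply]
    simp [bm_symm hL z x, bm_symm hM y x, mul_comm]
  rw [this]; exact star_mem one_mem hM hL

theorem triB {L N : Matrix _ _ ℂ} (hL : L ∈ bm (multi m n hm hn))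
    (hN : N ∈ bm (multi m n hm hn)) : triT L (JJ m n) N ∈ WY (multi m n hm hn) := by
  have : triT L (JJ m n) N = starT L N 1 := by
    ext ⟨x, y, z⟩
    simp only [triT, starT, JJ, Matrix.one_apply]
    simp
  rw [this]; exact star_mem hL hN one_mem

theorem triC {M N : Matrix _ _ ℂ} (hM : M ∈ bm (multi m n hm hn))
    (hN : N ∈ bm (multi m n hm hn)) : triT (JJ m n) M N ∈ WY (multi m n hm hn) := by
  have : triT (JJ m n) M N = starT M 1 N := by
    ext ⟨x, y, z⟩
    simp only [triT, starT, JJ, Matrix.one_apply]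
    simp [bm_symm hN z y]
  rw [this]; exact star_mem hM one_mem hN

theorem dual_tr : DuallyTriplyRegular (multi m n hm hn) := by
  have hI : (1 : Matrix _ _ ℂ) ∈ bm (multi m n hm hn) := one_mem
  have hB : BB m n ∈ bm (multi m n hm hn) := BB_mem
  have hJ : JJ m n ∈ bm (multi m n hm hn) := JJ_mem
  have key : ∀ P ∈ ({1, BB m n, JJ m n} : Set (Matrix _ _ ℂ)),
      ∀ Q ∈ ({1, BB m n, JJ m n} : Set (Matrix _ _ ℂ)),
      ∀ R ∈ ({1, BB m n, JJ m n} : Set (Matrix _ _ ℂ)), triT P Q R ∈ WY (multi m n hm hn) := by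
    have e1 : triT (1 : Matrix _ _ ℂ) 1 1 = triT 1 1 (JJ m n) := by
      ext ⟨x, y, z⟩
      simp only [triT, JJ, Matrix.one_apply]
      by_cases h1 : x = y <;> by_cases h2 : x = z <;> simp_all
    have e2 : triT (1 : Matrix _ _ ℂ) 1 (BB m n) = triT 1 1 (JJ m n) := by
      ext ⟨x, y, z⟩
      simp only [triT, JJ, BB, Matrix.one_apply]
      by_cases h1 : x = y <;> by_cases h2 : x = z <;> simp_all
    have e3 : triT (1 : Matrix _ _ ℂ) (BB m n) 1 = triT 1 (JJ m n) 1 := by
      ext ⟨x, y, z⟩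
      simp only [triT, JJ, BB, Matrix.one_apply]
      by_cases h1 : y = z <;> by_cases h2 : x = z <;> simp_all
    have e4 : triT (BB m n) (1 : Matrix _ _ ℂ) 1 = triT (JJ m n) 1 1 := by
      ext ⟨x, y, z⟩
      simp only [triT, JJ, BB, Matrix.one_apply]
      by_cases h1 : y = z <;> by_cases h2 : x = y <;> simp_all
    have e5 : triT (1 : Matrix _ _ ℂ) (BB m n) (BB m n) = triT 1 (BB m n) (JJ m n) := by
      ext ⟨x, y, z⟩
      simp only [triT, JJ, BB, Matrix.one_apply]
      by_cases h1 : x = z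
      · subst h1
        by_cases h2 : x.1 = y.1
        · simp [h2]
        · simp [h2]
      · simp [h1]
    have e6 : triT (BB m n) (1 : Matrix _ _ ℂ) (BB m n) = triT (BB m n) 1 (JJ m n) := by
      ext ⟨x, y, z⟩
      simp only [triT, JJ, BB, Matrix.one_apply]
      by_cases h1 : x = y
      · subst h1
        by_cases h2 : x.1 = z.1
        · simp [h2]
        · simp [h2]
      · simp [h1]
    have e7 : triT (BB m n) (BB m n) (1 : Matrix _ _ ℂ) = triT (JJ m n) (BB m n) 1 := by
      ext ⟨x, y, z⟩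
      simp only [triT, JJ, BB, Matrix.one_apply]
      by_cases h1 : y = z
      · subst h1
        by_cases h2 : x.1 = y.1
        · simp [h2]
        · simp [h2]
      · simp [h1]
    have e8 : triT (BB m n) (BB m n) (BB m n) = triT (BB m n) (BB m n) (JJ m n) := by
      ext ⟨x, y, z⟩
      simp only [triT, JJ, BB]
      by_cases h1 : x.1 = y.1 <;> by_cases h2 : x.1 = z.1 <;> simp_all
    intro P hP Q hQ R hR
    simp only [Set.mem_insert_iff, Set.mem_singleton_iff] at hP hQ hR
    rcases hP with rfl | rfl | rfl <;> rcases hQ with rfl | rfl | rfl <;>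
      rcases hR with rfl | rfl | rfl
    · rw [e1]; exact triA hI hI
    · rw [e2]; exact triA hI hI
    · exact triA hI hI
    · rw [e3]; exact triB hI hI
    · rw [e5]; exact triA hI hB
    · exact triA hI hB
    · exact triB hI hI
    · exact triB hI hB
    · exact triA hI hJ
    · rw [e4]; exact triC hI hI
    · rw [e6]; exact triA hB hI
    · exact triA hB hI
    · rw [e7]; exact triC hB hI
    · rw [e8]; exact triA hB hB
    · exact triA hB hB
    · exact triB hB hI
    · exact triB hB hB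
    · exact triA hB hJ
    · exact triC hI hI
    · exact triC hI hB
    · exact triA hJ hI
    · exact triC hB hI
    · exact triC hB hB
    · exact triA hJ hB
    · exact triB hJ hI
    · exact triB hJ hB
    · exact triA hJ hJ
  have sub : ∀ L ∈ bm (multi m n hm hn),
      L ∈ Submodule.span ℂ ({1, BB m n, JJ m n} : Set (Matrix _ _ ℂ)) := by
    intro L hL
    obtain ⟨a, b, c, rfl⟩ := mem_bm hL
    refine add_mem (add_mem (Submodule.smul_mem _ _ ?_) (Submodule.smul_mem _ _ ?_))
      (Submodule.smul_mem _ _ ?_) <;> apply Submodule.subset_span <;> simp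
  unfold DuallyTriplyRegular WDelta
  rw [Submodule.span_le]
  rintro t ⟨L, hL, M, hM, N, hN, rfl⟩
  exact tri_span _ _ key L (sub L hL) M (sub M hM) N (sub N hN)

theorem not_fsd (hmn : m ≠ n) : ¬ FormallySelfDual (multi m n hm hn) := by
  rintro ⟨σ, E, P, Q, ⟨⟨hmem, -, hidem, horth, hsum, hE0⟩, hP, hQ⟩, rfl⟩
  have hm0 : (m : ℂ) ≠ 0 := by exact_mod_cast (by omega : m ≠ 0)
  have hn0 : (n : ℂ) ≠ 0 := by exact_mod_cast (by omega : n ≠ 0)
  have hcard : (Fintype.card (Fin m × Fin n) : ℂ) = m * n := by simp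
  rw [hcard] at hE0 hQ
  have hc : ((m : ℂ) * n)⁻¹ ≠ 0 := inv_ne_zero (mul_ne_zero hm0 hn0)
  -- entries of the E i
  have hent : ∀ i j x y, (multi m n hm hn).rel x y = σ j → E i x y = ((m : ℂ) * n)⁻¹ * P j i := by
    intro i j x y hxy
    rw [hQ i]
    simp only [Matrix.smul_apply, Matrix.sum_apply, adj, hxy, smul_eq_mul,
      σ.apply_eq_iff_eq]
    simp
  have hP0 : ∀ j, P j 0 = 1 := by
    intro j
    obtain ⟨x, y, hxy⟩ := (multi m n hm hn).surj (σ j)
    have := hent 0 j x y hxy
    rw [hE0] at this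
    exact mul_left_cancel₀ hc (by rw [← this, mul_one])
  let x0 : Fin m × Fin n := (⟨0, by omega⟩, ⟨0, by omega⟩)
  have hσ0 : σ 0 = 0 := by
    have h1 := hP 0
    simp only [hP0, one_smul, hsum] at h1
    have h2 := congrFun (congrFun h1 x0) x0
    simp only [adj, Matrix.one_apply_eq] at h2
    have h3 : (multi m n hm hn).rel x0 x0 = 0 := r_self x0
    rw [h3] at h2
    by_contra h4
    rw [if_neg (Ne.symm h4)] at h2
    exact zero_ne_one h2
  set i := σ.symm 1 with hi
  have hσi : σ i = 1 := by simp [hi]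
  have hi0 : i ≠ 0 := by
    intro h
    rw [h, hσ0] at hσi
    exact absurd hσi (by decide)
  have hE0' : E 0 = (0 : ℂ) • 1 + (0 : ℂ) • BB m n + ((m : ℂ) * n)⁻¹ • JJ m n := by
    ext x y; simp [hE0, JJ]
  have hval : P 0 i = n - 1 := by
    have h1 := hP i
    rw [hσi, adj1] at h1
    have h2 : (BB m n - 1) * E 0 = P 0 i • E 0 := by
      rw [h1, Finset.sum_mul, Finset.sum_eq_single 0]
      · rw [smul_mul_assoc, hidem]
      · intro j _ hj
        rw [smul_mul_assoc, horth j 0 hj, smul_zero]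
      · simp
    have h3 : BB m n - 1 = (-1 : ℂ) • 1 + (1 : ℂ) • BB m n + (0 : ℂ) • JJ m n := by module
    rw [h3, hE0', comb_mul] at h2
    have h4 : P 0 i • ((0 : ℂ) • (1 : Matrix (Fin m × Fin n) (Fin m × Fin n) ℂ) +
        (0 : ℂ) • BB m n + ((m : ℂ) * n)⁻¹ • JJ m n) =
        (0 : ℂ) • 1 + (0 : ℂ) • BB m n + (P 0 i * ((m : ℂ) * n)⁻¹) • JJ m n := by module
    rw [h4] at h2
    have h5 := (comb_inj hm hn h2).2.2
    apply mul_right_cancel₀ hc
    linear_combination -h5
  obtain ⟨a, b, c, habc⟩ := mem_bm (hmem i)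
  have hdiag : a + b + c = ((m : ℂ) * n)⁻¹ * (n - 1) := by
    have h1 := hent i 0 x0 x0 (by rw [hσ0]; exact r_self x0)
    rw [hval, habc] at h1
    simpa [BB, JJ] using h1
  have h1 := hidem i
  rw [habc, comb_mul] at h1
  obtain ⟨ea, eb, -⟩ := comb_inj hm hn h1
  have h2 := horth i 0 hi0
  rw [habc, hE0', comb_mul] at h2
  have h3 : (0 : Matrix (Fin m × Fin n) (Fin m × Fin n) ℂ) =
      (0 : ℂ) • 1 + (0 : ℂ) • BB m n + (0 : ℂ) • JJ m n := by simp
  rw [h3] at h2
  have h4 := (comb_inj hm hn h2).2.2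
  have h5 : a + n * b + m * n * c = 0 := by
    apply mul_right_cancel₀ hc
    linear_combination h4
  have h6 : (m : ℂ) * n * (a + b + c) = n - 1 := by
    rw [hdiag, ← mul_assoc, mul_inv_cancel₀ (mul_ne_zero hm0 hn0), one_mul]
  have h7 : a * m * (n - 1) + (a + n * b) * (m - 1) = n - 1 := by
    linear_combination h6 - h5
  have ha : a = 0 ∨ a = 1 := by
    have : a * (a - 1) = 0 := by linear_combination ea
    rcases mul_eq_zero.1 this with h | h
    · exact Or.inl h
    · exact Or.inr (by linear_combination h)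
  have ht : a + n * b = 0 ∨ a + n * b = 1 := by
    have : (a + n * b) * (a + n * b - 1) = 0 := by linear_combination ea + n * eb
    rcases mul_eq_zero.1 this with h | h
    · exact Or.inl h
    · exact Or.inr (by linear_combination h)
  rcases ha with ha | ha <;> rcases ht with ht | ht <;> rw [ht, ha] at h7
  · have : (n : ℂ) = 1 := by linear_combination -h7
    have : n = 1 := by exact_mod_cast this
    omega
  · have : (m : ℂ) = n := by linear_combination h7
    exact hmn (by exact_mod_cast this)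
  · have : ((m : ℂ) - 1) * (n - 1) = 0 := by linear_combination h7
    rcases mul_eq_zero.1 this with h | h
    · have : (m : ℂ) = 1 := by linear_combination h
      have : m = 1 := by exact_mod_cast this
      omega
    · have : (n : ℂ) = 1 := by linear_combination h
      have : n = 1 := by exact_mod_cast this
      omega
  · have : ((m : ℂ) - 1) * n = 0 := by linear_combination h7
    rcases mul_eq_zero.1 this with h | h
    · have : (m : ℂ) = 1 := by linear_combination h
      have : m = 1 := by exact_mod_cast this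
      omega
    · exact hn0 h

theorem has_eigen : ∃ E P Q, IsEigen (multi m n hm hn) 1 E P Q := by
  have hm0 : (m : ℂ) ≠ 0 := by exact_mod_cast (by omega : m ≠ 0)
  have hn0 : (n : ℂ) ≠ 0 := by exact_mod_cast (by omega : n ≠ 0)
  have hcard : (Fintype.card (Fin m × Fin n) : ℂ) = m * n := by simp
  let C : ℂ → ℂ → ℂ → Matrix (Fin m × Fin n) (Fin m × Fin n) ℂ :=
    fun a b c => a • 1 + b • BB m n + c • JJ m n
  have hC : ∀ a b c a' b' c', a = a' → b = b' → c = c' → C a b c = C a' b' c' := by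
    intro a b c a' b' c' h1 h2 h3; rw [h1, h2, h3]
  have hC0 : C 0 0 0 = 0 := by simp [C]
  have hmul : ∀ a b c a' b' c', C a b c * C a' b' c' = C (a * a') (a * b' + b * a' + n * b * b')
      (a * c' + c * a' + n * b * c' + n * c * b' + m * n * c * c') := comb_mul
  have hmem : ∀ a b c, C a b c ∈ bm (multi m n hm hn) := fun a b c =>
    add_mem (add_mem (Submodule.smul_mem _ _ one_mem) (Submodule.smul_mem _ _ BB_mem))
      (Submodule.smul_mem _ _ JJ_mem)
  refine ⟨![C 0 0 ((m : ℂ) * n)⁻¹, C 0 (n : ℂ)⁻¹ (-((m : ℂ) * n)⁻¹), C 1 (-(n : ℂ)⁻¹) 0],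
    !![1, n - 1, n * (m - 1); 1, n - 1, -n; 1, -1, 0],
    !![1, m - 1, m * (n - 1); 1, m - 1, -m; 1, -1, 0], ⟨?_, ?_, ?_, ?_, ?_, ?_⟩, ?_, ?_⟩
  · intro j
    fin_cases j <;> exact hmem _ _ _
  · intro j
    rw [← hC0]
    fin_cases j
    · intro h
      exact inv_ne_zero (mul_ne_zero hm0 hn0) (comb_inj hm hn h).2.2
    · intro h
      exact inv_ne_zero hn0 (comb_inj hm hn h).2.1
    · intro h
      exact one_ne_zero (comb_inj hm hn h).1
  · intro j
    fin_cases j <;> simp only [Fin.zero_eta, Fin.mk_one, Fin.reduceFinMk, Matrix.cons_val, hmul] <;>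
      apply hC <;> field_simp <;> ring
  · intro i j hij
    rw [← hC0]
    fin_cases i <;> fin_cases j <;> first
      | exact absurd rfl hij
      | (simp only [Fin.zero_eta, Fin.mk_one, Fin.reduceFinMk, Matrix.cons_val, hmul]
         apply hC <;> field_simp <;> ring)
  · rw [Fin.sum_univ_three]
    simp only [Matrix.cons_val, C]
    module
  · intro x y
    simp [C, JJ]
  · intro i
    rw [Fin.sum_univ_three]
    fin_cases i
    · simp only [Fin.zero_eta, Equiv.Perm.one_apply, adj0, C]
      simp only [Matrix.of_apply, Matrix.cons_val', Matrix.cons_val]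
      match_scalars <;> field_simp <;> ring
    · simp only [Fin.mk_one, Equiv.Perm.one_apply, adj1, C]
      simp only [Matrix.of_apply, Matrix.cons_val', Matrix.cons_val]
      match_scalars <;> field_simp <;> ring
    · simp only [Fin.reduceFinMk, Equiv.Perm.one_apply, adj2, C]
      simp only [Matrix.of_apply, Matrix.cons_val', Matrix.cons_val]
      match_scalars <;> field_simp <;> ring
  · intro i
    rw [Fin.sum_univ_three, hcard]
    simp only [Equiv.Perm.one_apply, adj0, adj1, adj2]
    fin_cases i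
    · simp only [Fin.zero_eta, C]
      simp only [Matrix.of_apply, Matrix.cons_val', Matrix.cons_val]
      match_scalars <;> field_simp <;> ring
    · simp only [Fin.mk_one, C]
      simp only [Matrix.of_apply, Matrix.cons_val', Matrix.cons_val]
      match_scalars <;> field_simp <;> ring
    · simp only [Fin.reduceFinMk, C]
      simp only [Matrix.of_apply, Matrix.cons_val', Matrix.cons_val]
      match_scalars <;> field_simp <;> ring

theorem main (m n : ℕ) (hm : 2 ≤ m) (hn : 2 ≤ n) (hmn : m ≠ n) :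
    ∃ S : SymScheme (Fin m × Fin n) 2,
      (∀ x y, S.rel x y = 2 ↔ x.1 ≠ y.1) ∧ TriplyRegular S ∧ DuallyTriplyRegular S ∧
      (∃ E P Q, IsEigen S 1 E P Q) ∧ ¬ FormallySelfDual S := by
  refine ⟨multi m n hm hn, ?_, triple_count, dual_tr, has_eigen, not_fsd hmn⟩
  intro x y
  simp only [multi, r]
  by_cases h1 : x = y <;> by_cases h3 : x.1 = y.1 <;> simp_all

end Pool.Agent.H45Z.Scheme
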