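import Mathlib

set_option autoImplicit false

namespace Pool.Agent.H45Z.TD

/-- `S` is a total dominating set of `G`: every vertex has a neighbour in `S`. -/
def IsTotalDom {V : Type} (G : SimpleGraph V) (S : Set V) : Prop :=
  ∀ v : V, ∃ u ∈ S, G.Adj v u

/-- `G` has two disjoint total dominating sets. -/
def HasTwoDisjointTD {V : Type} (G : SimpleGraph V) : Prop :=
  ∃ S T : Set V, Disjoint S T ∧ IsTotalDom G S ∧ IsTotalDom G T

/-- The least number of edges of the complement of `G` whose addition to `G` gives a graph `H`
with two disjoint total dominating sets. -/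
noncomputable def td {V : Type} (G : SimpleGraph V) : ℕ :=
  sInf {m : ℕ | ∃ H : SimpleGraph V, G ≤ H ∧ HasTwoDisjointTD H ∧ (H \ G).edgeSet.ncard = m}

end Pool.Agent.H45Z.TD
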