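import Pool.Agent.H45Z.TDDefs

set_option autoImplicit false

namespace Pool.Agent.H45Z.TD

open Finset

/-- `K_m` with every edge doubled and subdivided: the diagonal pairs are the branch vertices. -/
def Gm (m : ℕ) : SimpleGraph (Fin m × Fin m) where
  Adj x y := (x.1 ≠ x.2 ∧ (y = (x.1, x.1) ∨ y = (x.2, x.2))) ∨
    (y.1 ≠ y.2 ∧ (x = (y.1, y.1) ∨ x = (y.2, y.2)))
  symm := ⟨fun _ _ h => h.symm⟩
  loopless := ⟨fun x h => by
    rcases h with ⟨h1, h2 | h2⟩ | ⟨h1, h2 | h2⟩
    · exact h1 (congrArg Prod.snd h2).symm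
    · exact h1 (congrArg Prod.fst h2)
    · exact h1 (congrArg Prod.snd h2).symm
    · exact h1 (congrArg Prod.fst h2)⟩

lemma adj_off {m : ℕ} {i j : Fin m} (h : i ≠ j) {y : Fin m × Fin m} (hy : (Gm m).Adj (i, j) y) :
    y = (i, i) ∨ y = (j, j) := by
  rcases hy with ⟨_, h2⟩ | ⟨_, h2 | h2⟩
  · exact h2
  · exact absurd ((congrArg Prod.fst h2).trans (congrArg Prod.snd h2).symm) h
  · exact absurd ((congrArg Prod.fst h2).trans (congrArg Prod.snd h2).symm) h

lemma adj1 {m : ℕ} {i j : Fin m} (h : i ≠ j) : (Gm m).Adj (i, j) (i, i) := Or.inl ⟨h, Or.inl rfl⟩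
lemma adj2 {m : ℕ} {i j : Fin m} (h : i ≠ j) : (Gm m).Adj (i, j) (j, j) := Or.inl ⟨h, Or.inr rfl⟩

lemma connected (m : ℕ) : (Gm (m + 1)).Connected := by
  have h0 : ∀ i : Fin (m + 1), (Gm (m + 1)).Reachable (i, i) (0, 0) := by
    intro i
    by_cases h : i = 0
    · subst h; rfl
    · exact (adj1 h).symm.reachable.trans (adj2 h).reachable
  have h1 : ∀ x : Fin (m + 1) × Fin (m + 1), (Gm (m + 1)).Reachable x (0, 0) := by
    rintro ⟨i, j⟩
    by_cases h : i = j
    · subst h; exact h0 i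
    · exact (adj1 h).reachable.trans (h0 i)
  exact ⟨fun x y => (h1 x).trans (h1 y).symm⟩

lemma two_le_deg (m : ℕ) (v : Fin (m + 2) × Fin (m + 2)) :
    2 ≤ ((Gm (m + 2)).neighborSet v).ncard := by
  obtain ⟨i, j⟩ := v
  have key : ∀ a b : Fin (m + 2) × Fin (m + 2), a ≠ b → (Gm (m + 2)).Adj (i, j) a →
      (Gm (m + 2)).Adj (i, j) b → 2 ≤ ((Gm (m + 2)).neighborSet (i, j)).ncard := by
    intro a b hab ha hb
    refine (Set.ncard_pair hab).symm.le.trans ?_
    apply Set.ncard_le_ncard _ (Set.toFinite _)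
    intro x hx
    rcases hx with rfl | rfl
    · exact ha
    · exact hb
  by_cases h : i = j
  · subst h
    obtain ⟨k, hk⟩ := exists_ne i
    refine key (i, k) (k, i) (fun e => hk (congrArg Prod.snd e)) (adj1 hk.symm).symm (adj2 hk).symm
  · exact key (i, i) (j, j) (fun e => h (congrArg Prod.fst e)) (adj1 h) (adj2 h)

lemma top_two (m : ℕ) : HasTwoDisjointTD (⊤ : SimpleGraph (Fin (m + 2) × Fin (m + 2))) := by
  have key : ∀ i : Fin (m + 2), IsTotalDom (⊤ : SimpleGraph (Fin (m + 2) × Fin (m + 2)))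
      {x | x.1 = i} := by
    intro i v
    obtain ⟨k, hk⟩ := exists_ne v.2
    exact ⟨(i, k), rfl, fun e => hk (congrArg Prod.snd e).symm⟩
  refine ⟨{x | x.1 = 0}, {x | x.1 = 1}, ?_, key 0, key 1⟩
  rw [Set.disjoint_left]
  intro x h0 h1
  have : (0 : Fin (m + 2)) = 1 := h0.symm.trans h1
  exact absurd this (by simp)

lemma lower (k : ℕ) (H : SimpleGraph (Fin (2 * k + 1) × Fin (2 * k + 1)))
    (h2 : HasTwoDisjointTD H) : k ^ 2 ≤ (H \ Gm (2 * k + 1)).edgeSet.ncard := by
  classical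
  obtain ⟨S, T, hST, hS, hT⟩ := h2
  set D := H \ Gm (2 * k + 1) with hD
  set A : Finset (Fin (2 * k + 1)) := univ.filter fun i => (i, i) ∈ S with hA
  set B : Finset (Fin (2 * k + 1)) := univ.filter fun i => (i, i) ∉ S with hB
  have hAB : A.card + B.card = 2 * k + 1 := by
    rw [hA, hB, Finset.card_filter_add_card_filter_not]
    simp
  have hbad : ∀ x ∈ A.offDiag ∪ B.offDiag, 1 ≤ D.degree x := by
    rintro ⟨i, j⟩ hx
    rw [Nat.one_le_iff_ne_zero, ← Nat.pos_iff_ne_zero, SimpleGraph.degree_pos_iff_exists_adj]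
    rcases Finset.mem_union.mp hx with h | h
    · rw [Finset.mem_offDiag] at h
      obtain ⟨hi, hj, hij⟩ := h
      simp only [hA, Finset.mem_filter, Finset.mem_univ, true_and] at hi hj
      obtain ⟨u, hu, hadj⟩ := hT (i, j)
      refine ⟨u, hadj, fun hg => ?_⟩
      rcases adj_off hij hg with rfl | rfl
      · exact Set.disjoint_left.mp hST hi hu
      · exact Set.disjoint_left.mp hST hj hu
    · rw [Finset.mem_offDiag] at h
      obtain ⟨hi, hj, hij⟩ := h
      simp only [hB, Finset.mem_filter, Finset.mem_univ, true_and] at hi hj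
      obtain ⟨u, hu, hadj⟩ := hS (i, j)
      refine ⟨u, hadj, fun hg => ?_⟩
      rcases adj_off hij hg with rfl | rfl
      · exact hi hu
      · exact hj hu
  have hdisj : Disjoint A.offDiag B.offDiag := by
    rw [Finset.disjoint_left]
    intro x h1 h2
    rw [Finset.mem_offDiag] at h1 h2
    have a1 := h1.1
    have a2 := h2.1
    simp only [hA, hB, Finset.mem_filter, Finset.mem_univ, true_and] at a1 a2
    exact a2 a1
  have h1 : (A.offDiag ∪ B.offDiag).card ≤ ∑ x, D.degree x := by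
    calc (A.offDiag ∪ B.offDiag).card = ∑ _x ∈ A.offDiag ∪ B.offDiag, 1 := by simp
      _ ≤ ∑ x ∈ A.offDiag ∪ B.offDiag, D.degree x := Finset.sum_le_sum hbad
      _ ≤ ∑ x, D.degree x := Finset.sum_le_sum_of_subset (Finset.subset_univ _)
  rw [SimpleGraph.sum_degrees_eq_twice_card_edges, Finset.card_union_of_disjoint hdisj,
    Finset.offDiag_card, Finset.offDiag_card] at h1
  have e : ∀ inst : Fintype D.edgeSet, (@SimpleGraph.edgeFinset _ D inst).card = D.edgeSet.ncard := by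
    intro inst
    rw [← Set.ncard_coe_finset, SimpleGraph.coe_edgeFinset]
  rw [e] at h1
  clear e
  generalize A.card = a at *
  generalize B.card = b at *
  generalize D.edgeSet.ncard = c at *
  have ha : a ≤ a * a := Nat.le_mul_self a
  have hb : b ≤ b * b := Nat.le_mul_self b
  zify [ha, hb] at h1 hAB ⊢
  have hb' : (b : ℤ) = 2 * k + 1 - a := by linarith
  rw [hb'] at h1
  have : 0 ≤ ((a : ℤ) - k) * ((a : ℤ) - k - 1) := by
    rcases le_or_gt (a : ℤ) k with h | h
    · exact mul_nonneg_of_nonpos_of_nonpos (by linarith) (by linarith)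
    · exact mul_nonneg (by linarith) (by linarith)
  nlinarith

lemma td_lower (k : ℕ) (hk : 1 ≤ k) : k ^ 2 ≤ td (Gm (2 * k + 1)) := by
  unfold td
  apply le_csInf
  · obtain ⟨j, rfl⟩ : ∃ j, k = j + 1 := ⟨k - 1, by omega⟩
    exact ⟨_, ⊤, le_top, top_two (2 * j + 1), rfl⟩
  · rintro m ⟨H, -, h2, rfl⟩
    exact lower k H h2

theorem main (k : ℕ) (hk : 1 ≤ k) :
    ∃ (V : Type) (_ : Fintype V) (G : SimpleGraph V),
      Fintype.card V = (2 * k + 1) ^ 2 ∧ G.Connected ∧ (∀ v, 2 ≤ (G.neighborSet v).ncard) ∧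
      ((Fintype.card V : ℝ) - 2 * Real.sqrt (Fintype.card V)) / 4 < td G := by
  have hc : Fintype.card (Fin (2 * k + 1) × Fin (2 * k + 1)) = (2 * k + 1) ^ 2 := by
    simp [pow_two]
  refine ⟨Fin (2 * k + 1) × Fin (2 * k + 1), inferInstance, Gm (2 * k + 1), hc, connected _, ?_, ?_⟩
  · obtain ⟨j, rfl⟩ : ∃ j, k = j + 1 := ⟨k - 1, by omega⟩
    exact two_le_deg (2 * j + 1)
  · have h := td_lower k hk
    have h' : ((k : ℝ)) ^ 2 ≤ td (Gm (2 * k + 1)) := by exact_mod_cast h
    rw [hc]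
    push_cast
    rw [Real.sqrt_sq (by positivity)]
    nlinarith

end Pool.Agent.H45Z.TD
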