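import Mathlib

set_option autoImplicit false

open Complex

namespace Pool.Agent.H45Z.Univ

/-- Taylor coefficient at 0. -/
noncomputable def cf (f : ℂ → ℂ) (k : ℕ) : ℂ := iteratedDeriv k f 0 / (k.factorial : ℂ)

lemma cf_mul {f g : ℂ → ℂ} (hf : AnalyticAt ℂ f 0) (hg : AnalyticAt ℂ g 0) (n : ℕ) :
    cf (fun z => f z * g z) n = ∑ i ∈ Finset.range (n + 1), cf f i * cf g (n - i) := by
  unfold cf
  rw [iteratedDeriv_fun_mul hf.contDiffAt hg.contDiffAt, Finset.sum_div]
  refine Finset.sum_congr rfl fun i hi => ?_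
  have hi' : i ≤ n := Nat.lt_succ_iff.mp (Finset.mem_range.mp hi)
  have h := Nat.choose_mul_factorial_mul_factorial hi'
  have h' : (n.choose i : ℂ) * (i.factorial : ℂ) * ((n - i).factorial : ℂ) = (n.factorial : ℂ) := by
    exact_mod_cast h
  have h1 : (i.factorial : ℂ) ≠ 0 := by exact_mod_cast i.factorial_ne_zero
  have h2 : ((n - i).factorial : ℂ) ≠ 0 := by exact_mod_cast (n - i).factorial_ne_zero
  have h3 : (n.choose i : ℂ) ≠ 0 := by exact_mod_cast (Nat.choose_pos hi').ne'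
  rw [← h']
  field_simp

lemma cf_congr {f g : ℂ → ℂ} (h : f =ᶠ[nhds 0] g) (n : ℕ) : cf f n = cf g n := by
  unfold cf
  rw [h.iteratedDeriv_eq n]

lemma cf_zero (f : ℂ → ℂ) : cf f 0 = f 0 := by simp [cf]

lemma cf_lin {f g : ℂ → ℂ} (hf : AnalyticAt ℂ f 0) (hg : AnalyticAt ℂ g 0) (a b : ℂ) (n : ℕ) :
    cf (fun z => a * f z + b * g z) n = a * cf f n + b * cf g n := by
  unfold cf
  have h1 : ContDiffAt ℂ n (fun z => a * f z) 0 := (analyticAt_const.mul hf).contDiffAt
  have h2 : ContDiffAt ℂ n (fun z => b * g z) 0 := (analyticAt_const.mul hg).contDiffAt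
  rw [iteratedDeriv_fun_add h1 h2, iteratedDeriv_const_mul_field, iteratedDeriv_const_mul_field]
  ring

lemma cf_const (a : ℂ) (n : ℕ) : cf (fun _ => a) n = if n = 0 then a else 0 := by
  unfold cf
  rw [iteratedDeriv_const]
  split_ifs with h
  · subst h; simp
  · simp

lemma cf_add_const {f : ℂ → ℂ} (hf : AnalyticAt ℂ f 0) (a : ℂ) (n : ℕ) :
    cf (fun z => f z + a) n = cf f n + if n = 0 then a else 0 := by
  have := cf_lin hf (g := fun _ => a) analyticAt_const 1 1 n
  simp only [one_mul] at this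
  rw [this, cf_const]

lemma cf_pow (m n : ℕ) : cf (fun z => z ^ m) n = if n = m then 1 else 0 := by
  unfold cf
  rw [iteratedDeriv_fun_pow_zero]
  split_ifs with h
  · subst h
    have h1 : (n.factorial : ℂ) ≠ 0 := by exact_mod_cast n.factorial_ne_zero
    simp [h1]
  · simp

lemma cf_quad (a b c : ℂ) (n : ℕ) : cf (fun z => (b * z ^ 1 + c * z ^ 2) + a) n =
    if n = 0 then a else if n = 1 then b else if n = 2 then c else 0 := by
  rw [cf_add_const (by fun_prop), cf_lin (by fun_prop) (by fun_prop), cf_pow, cf_pow]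
  rcases n with _ | _ | _ | n <;> simp

/-- The half-plane coordinate. -/
noncomputable def s (z : ℂ) : ℂ := (210 - 31 * I) + 420 * z / (1 - z)

/-- The slit map. -/
noncomputable def sg (z : ℂ) : ℂ := Complex.sqrt (s z ^ 2 + 3050)

/-- First pole. -/
noncomputable def A (z : ℂ) : ℂ := (sg z + (-2134 * I))⁻¹

/-- Second pole. -/
noncomputable def B (z : ℂ) : ℂ := (sg z + 539 * I)⁻¹

/-- The unnormalised univalent function. -/
noncomputable def G (z : ℂ) : ℂ := 525 * A z + (-34) * B z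

lemma one_sub_ne {z : ℂ} (hz : ‖z‖ < 1) : 1 - z ≠ 0 := by
  intro h
  have : z = 1 := by linear_combination -h
  rw [this] at hz
  simp at hz

lemma s_re_pos {z : ℂ} (hz : ‖z‖ < 1) : 0 < (s z).re := by
  have h1 := one_sub_ne hz
  have hn : 0 < normSq (1 - z) := normSq_pos.mpr h1
  have hz2 : z.re ^ 2 + z.im ^ 2 < 1 := by
    have h := Complex.sq_norm z
    rw [normSq_apply] at h
    nlinarith [norm_nonneg z]
  have e : s z = -31 * I + 210 * ((1 + z) / (1 - z)) := by
    unfold s; field_simp; ring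
  have h2 : 0 < ((1 + z) / (1 - z)).re := by
    rw [div_re, ← add_div]
    apply div_pos _ hn
    simp
    nlinarith
  rw [e]
  simp
  simpa using h2

lemma mem_slit {w : ℂ} (hw : 0 < w.re) : w ^ 2 + 3050 ∈ slitPlane := by
  rw [mem_slitPlane_iff]
  by_cases h : w.im = 0
  · left
    simp [pow_two, h]
    positivity
  · right
    simp [pow_two]
    intro h2
    have : 2 * w.re * w.im = 0 := by linarith
    rcases mul_eq_zero.mp this with h3 | h3
    · linarith
    · exact h h3

lemma sqrt_sq' (a : ℂ) : Complex.sqrt a ^ 2 = a := by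
  unfold Complex.sqrt
  exact Complex.cpow_ofNat_inv_pow a 2

lemma sqrt_re_pos {a : ℂ} (ha : a ∈ slitPlane) : 0 < (Complex.sqrt a).re := by
  unfold Complex.sqrt
  rw [cpow_inv_two_re]
  apply Real.sqrt_pos.mpr
  rw [mem_slitPlane_iff] at ha
  have h1 : |a.re| ≤ ‖a‖ := abs_re_le_norm a
  rcases ha with h | h
  · have := norm_nonneg a
    linarith
  · have h2 : |a.re| < ‖a‖ := abs_re_lt_norm.mpr h
    have := neg_abs_le a.re
    linarith

lemma sg_sq (z : ℂ) : sg z ^ 2 = s z ^ 2 + 3050 := sqrt_sq' _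

lemma sg_re_pos {z : ℂ} (hz : ‖z‖ < 1) : 0 < (sg z).re := sqrt_re_pos (mem_slit (s_re_pos hz))

lemma eq_of_sq_eq {a b : ℂ} (ha : 0 < a.re) (hb : 0 < b.re) (h : a ^ 2 = b ^ 2) : a = b := by
  have h1 : (a - b) * (a + b) = 0 := by linear_combination h
  rcases mul_eq_zero.mp h1 with h2 | h2
  · linear_combination h2
  · have := congrArg Complex.re h2
    simp at this
    linarith

lemma s_diff {z : ℂ} (hz : ‖z‖ < 1) : DifferentiableAt ℂ s z := by
  unfold s
  have := one_sub_ne hz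
  fun_prop (disch := assumption)

lemma sg_diff {z : ℂ} (hz : ‖z‖ < 1) : DifferentiableAt ℂ sg z := by
  have h1 : DifferentiableAt ℂ (fun z => s z ^ 2 + 3050) z := by
    have := s_diff hz
    fun_prop
  exact (Complex.hasDerivAt_sqrt (mem_slit (s_re_pos hz))).differentiableAt.comp z h1

lemma neA {z : ℂ} (hz : ‖z‖ < 1) : sg z + (-2134 * I) ≠ 0 := by
  intro h
  have h1 := congrArg Complex.re h
  have := sg_re_pos hz
  simp at h1
  linarith

lemma neB {z : ℂ} (hz : ‖z‖ < 1) : sg z + 539 * I ≠ 0 := by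
  intro h
  have h1 := congrArg Complex.re h
  have := sg_re_pos hz
  simp at h1
  linarith

lemma A_diff {z : ℂ} (hz : ‖z‖ < 1) : DifferentiableAt ℂ A z :=
  ((sg_diff hz).add_const _).inv (neA hz)

lemma B_diff {z : ℂ} (hz : ‖z‖ < 1) : DifferentiableAt ℂ B z :=
  ((sg_diff hz).add_const _).inv (neB hz)

lemma G_diff {z : ℂ} (hz : ‖z‖ < 1) : DifferentiableAt ℂ G z :=
  ((A_diff hz).const_mul _).add ((B_diff hz).const_mul _)

lemma analytic_of {f : ℂ → ℂ} (h : ∀ z : ℂ, ‖z‖ < 1 → DifferentiableAt ℂ f z) :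
    AnalyticAt ℂ f 0 := by
  have h1 : DifferentiableOn ℂ f (Metric.ball (0 : ℂ) 1) := fun z hz =>
    (h z (by simpa using hz)).differentiableWithinAt
  exact h1.analyticAt (Metric.ball_mem_nhds _ one_pos)

lemma s_inj {z w : ℂ} (hz : ‖z‖ < 1) (hw : ‖w‖ < 1) (h : s z = s w) : z = w := by
  unfold s at h
  have h1 := one_sub_ne hz
  have h2 := one_sub_ne hw
  have h3 : z / (1 - z) = w / (1 - w) := by
    have e1 : 420 * z / (1 - z) = 420 * (z / (1 - z)) := by ring
    have e2 : 420 * w / (1 - w) = 420 * (w / (1 - w)) := by ring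
    rw [e1, e2] at h
    linear_combination h / 420
  rw [div_eq_div_iff h1 h2] at h3
  linear_combination h3

lemma sg_inj {z w : ℂ} (hz : ‖z‖ < 1) (hw : ‖w‖ < 1) (h : sg z = sg w) : z = w := by
  apply s_inj hz hw
  apply eq_of_sq_eq (s_re_pos hz) (s_re_pos hw)
  have h1 := sg_sq z
  have h2 := sg_sq w
  rw [h] at h1
  linear_combination h2 - h1

lemma key_ne {a b : ℂ} (ha : 0 < a.re) (hb : 0 < b.re) :
    525 * ((a + 539 * I) * (b + 539 * I)) ≠ 34 * ((a + -2134 * I) * (b + -2134 * I)) := by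
  intro h
  have h0 : 525 * (a + 539 * I) * (b + 539 * I) * (starRingEnd ℂ) (b + 539 * I) *
      (starRingEnd ℂ) (a + -2134 * I) = 34 * (a + -2134 * I) * (starRingEnd ℂ) (a + -2134 * I) *
      (b + -2134 * I) * (starRingEnd ℂ) (b + 539 * I) := by
    linear_combination (starRingEnd ℂ) (b + 539 * I) * (starRingEnd ℂ) (a + -2134 * I) * h
  have h1 := congrArg Complex.im h0
  simp at h1
  have p1 : 0 < a.re * (b.re ^ 2 + (b.im + 539) ^ 2) := by positivity
  have p2 : 0 < b.re * (a.re ^ 2 + (a.im - 2134) ^ 2) := by positivity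
  nlinarith

lemma G_inj {z w : ℂ} (hz : ‖z‖ < 1) (hw : ‖w‖ < 1) (h : G z = G w) : z = w := by
  apply sg_inj hz hw
  by_contra hne
  apply key_ne (sg_re_pos hz) (sg_re_pos hw)
  unfold G A B at h
  have a1 := mul_inv_cancel₀ (neA hz)
  have a2 := mul_inv_cancel₀ (neA hw)
  have b1 := mul_inv_cancel₀ (neB hz)
  have b2 := mul_inv_cancel₀ (neB hw)
  have hne' : sg w - sg z ≠ 0 := fun h' => hne (by linear_combination -h')
  apply mul_left_cancel₀ hne'
  generalize (sg z + -2134 * I)⁻¹ = p at *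
  generalize (sg w + -2134 * I)⁻¹ = q at *
  generalize (sg z + 539 * I)⁻¹ = r at *
  generalize (sg w + 539 * I)⁻¹ = t at *
  generalize sg z = x at *
  generalize sg w = y at *
  linear_combination ((x + -2134 * I) * (y + -2134 * I) * (x + 539 * I) * (y + 539 * I)) * h
    - 525 * (y + -2134 * I) * (x + 539 * I) * (y + 539 * I) * a1
    + 525 * (x + -2134 * I) * (x + 539 * I) * (y + 539 * I) * a2
    + 34 * (x + -2134 * I) * (y + -2134 * I) * (y + 539 * I) * b1
    - 34 * (x + -2134 * I) * (y + -2134 * I) * (x + 539 * I) * b2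

end Pool.Agent.H45Z.Univ
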