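import Pool.Agent.H45Z.UnivA

set_option autoImplicit false

open Complex

namespace Pool.Agent.H45Z.Univ

lemma sg_an : AnalyticAt ℂ sg 0 := analytic_of fun _ h => sg_diff h
lemma A_an : AnalyticAt ℂ A 0 := analytic_of fun _ h => A_diff h
lemma B_an : AnalyticAt ℂ B 0 := analytic_of fun _ h => B_diff h

lemma ev_ball : ∀ᶠ z in nhds (0 : ℂ), ‖z‖ < 1 := by
  filter_upwards [Metric.ball_mem_nhds (0 : ℂ) one_pos] with z hz
  simpa using hz

/-- The square of the slit map. -/
noncomputable def W (z : ℂ) : ℂ := sg z * sg z

lemma W_an : AnalyticAt ℂ W 0 := sg_an.mul sg_an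

lemma W_rec (n : ℕ) : ∑ i ∈ Finset.range (n + 1), cf W i *
    (if n - i = 0 then (1 : ℂ) else if n - i = 1 then -2 else if n - i = 2 then 1 else 0) =
    if n = 0 then (⟨46189, -13020⟩ : ℂ) else if n = 1 then (⟨84022, 0⟩ : ℂ)
      else if n = 2 then (⟨46189, 13020⟩ : ℂ) else 0 := by
  have h1 := cf_mul W_an (g := fun z => ((-2) * z ^ 1 + 1 * z ^ 2) + 1) (by fun_prop) n
  simp only [cf_quad] at h1
  rw [← h1, ← cf_quad]
  apply cf_congr
  filter_upwards [ev_ball] with z hz
  have h := one_sub_ne hz
  have e1 : (⟨46189, -13020⟩ : ℂ) = 46189 - 13020 * I := by apply Complex.ext <;> simp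
  have e2 : (⟨84022, 0⟩ : ℂ) = 84022 := by apply Complex.ext <;> simp
  have e3 : (⟨46189, 13020⟩ : ℂ) = 46189 + 13020 * I := by apply Complex.ext <;> simp
  have e4 : W z = s z ^ 2 + 3050 := by rw [← sg_sq]; unfold W; ring
  have e5 : s z * (1 - z) = (210 - 31 * I) + (210 + 31 * I) * z := by
    unfold s; field_simp; ring
  rw [e1, e2, e3, e4]
  linear_combination (s z * (1 - z) + ((210 - 31 * I) + (210 + 31 * I) * z)) * e5
    + (961 * (1 - z) ^ 2) * I_sq

lemma solve {a v c r w : ℂ} (h : a * c + r = w) (hc : c ≠ 0) (hv : v * c + r = w) : a = v :=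
  mul_right_cancel₀ hc (by linear_combination h - hv)

lemma mk_ne {x y : ℝ} (hx : x ≠ 0) : (⟨x, y⟩ : ℂ) ≠ 0 := fun h => hx (congrArg Complex.re h)

lemma W0 : cf W 0 = (⟨(46189), (-13020)⟩ : ℂ) := by
  have h := W_rec 0
  simp [Finset.sum_range_succ] at h
  exact h

lemma W1 : cf W 1 = (⟨(176400), (-26040)⟩ : ℂ) := by
  have h := W_rec 1
  simp [Finset.sum_range_succ] at h
  rw [W0] at h
  rw [Complex.ext_iff] at h ⊢
  simp at h ⊢
  constructor <;> linarith [h.1, h.2]

lemma W2 : cf W 2 = (⟨(352800), (-26040)⟩ : ℂ) := by
  have h := W_rec 2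
  simp [Finset.sum_range_succ] at h
  rw [W0, W1] at h
  rw [Complex.ext_iff] at h ⊢
  simp at h ⊢
  constructor <;> linarith [h.1, h.2]

lemma W3 : cf W 3 = (⟨(529200), (-26040)⟩ : ℂ) := by
  have h := W_rec 3
  simp [Finset.sum_range_succ] at h
  rw [W1, W2] at h
  rw [Complex.ext_iff] at h ⊢
  simp at h ⊢
  constructor <;> linarith [h.1, h.2]

lemma W4 : cf W 4 = (⟨(705600), (-26040)⟩ : ℂ) := by
  have h := W_rec 4
  simp [Finset.sum_range_succ] at h
  rw [W2, W3] at h
  rw [Complex.ext_iff] at h ⊢
  simp at h ⊢
  constructor <;> linarith [h.1, h.2]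

lemma W5 : cf W 5 = (⟨(882000), (-26040)⟩ : ℂ) := by
  have h := W_rec 5
  simp [Finset.sum_range_succ] at h
  rw [W3, W4] at h
  rw [Complex.ext_iff] at h ⊢
  simp at h ⊢
  constructor <;> linarith [h.1, h.2]

lemma S_rec (n : ℕ) : ∑ i ∈ Finset.range (n + 1), cf sg i * cf sg (n - i) = cf W n :=
  (cf_mul sg_an sg_an n).symm

lemma S0 : cf sg 0 = (⟨217, -30⟩ : ℂ) := by
  rw [cf_zero]
  apply eq_of_sq_eq (sg_re_pos (by simp)) (by norm_num)
  rw [sg_sq]
  apply Complex.ext <;> simp [s, pow_two] <;> norm_num

lemma S1 : cf sg 1 = (⟨(19530000 / 47989), (-179340 / 47989)⟩ : ℂ) := by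
  have h := S_rec 1
  simp only [Finset.sum_range_succ, Finset.sum_range_zero, Nat.reduceSub, Nat.reduceAdd, Nat.sub_zero, Nat.sub_self] at h
  rw [S0, W1] at h
  refine solve (c := (⟨(217), (-30)⟩ : ℂ) + (⟨(217), (-30)⟩ : ℂ)) (r := 0) (w := (⟨(176400), (-26040)⟩ : ℂ)) (by linear_combination h) ?_ ?_
  · intro h0
    have := congrArg Complex.re h0
    norm_num at this
  · apply Complex.ext <;> simp only [add_re, add_im, mul_re, mul_im, zero_re, zero_im] <;> norm_num

lemma S2 : cf sg 2 = (⟨(47567714104260000 / 110515985422669), (719793801439860 / 110515985422669)⟩ : ℂ) := by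
  have h := S_rec 2
  simp only [Finset.sum_range_succ, Finset.sum_range_zero, Nat.reduceSub, Nat.reduceAdd, Nat.sub_zero, Nat.sub_self] at h
  rw [S0, S1, W2] at h
  refine solve (c := (⟨(217), (-30)⟩ : ℂ) + (⟨(217), (-30)⟩ : ℂ)) (r := (⟨(19530000 / 47989), (-179340 / 47989)⟩ : ℂ) * (⟨(19530000 / 47989), (-179340 / 47989)⟩ : ℂ)) (w := (⟨(352800), (-26040)⟩ : ℂ)) (by linear_combination h) ?_ ?_
  · intro h0
    have := congrArg Complex.re h0
    norm_num at this
  · apply Complex.ext <;> simp only [add_re, add_im, mul_re, mul_im, zero_re, zero_im] <;> norm_num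

lemma S3 : cf sg 3 = (⟨(105137298412245240128190000 / 254512138905657273678949), (-1957851143585521324436940 / 254512138905657273678949)⟩ : ℂ) := by
  have h := S_rec 3
  simp only [Finset.sum_range_succ, Finset.sum_range_zero, Nat.reduceSub, Nat.reduceAdd, Nat.sub_zero, Nat.sub_self] at h
  rw [S0, S1, S2, W3] at h
  refine solve (c := (⟨(217), (-30)⟩ : ℂ) + (⟨(217), (-30)⟩ : ℂ)) (r := (⟨(19530000 / 47989), (-179340 / 47989)⟩ : ℂ) * (⟨(47567714104260000 / 110515985422669), (719793801439860 / 110515985422669)⟩ : ℂ) + (⟨(47567714104260000 / 110515985422669), (719793801439860 / 110515985422669)⟩ : ℂ) * (⟨(19530000 / 47989), (-179340 / 47989)⟩ : ℂ)) (w := (⟨(529200), (-26040)⟩ : ℂ)) (by linear_combination h) ?_ ?_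
  · intro h0
    have := congrArg Complex.re h0
    norm_num at this
  · apply Complex.ext <;> simp only [add_re, add_im, mul_re, mul_im, zero_re, zero_im] <;> norm_num

lemma S4 : cf sg 4 = (⟨(248200923129828446645568343165320000 / 586127234015918792059823641008829), (4199787142317771979679271774670260 / 586127234015918792059823641008829)⟩ : ℂ) := by
  have h := S_rec 4
  simp only [Finset.sum_range_succ, Finset.sum_range_zero, Nat.reduceSub, Nat.reduceAdd, Nat.sub_zero, Nat.sub_self] at h
  rw [S0, S1, S2, S3, W4] at h
  refine solve (c := (⟨(217), (-30)⟩ : ℂ) + (⟨(217), (-30)⟩ : ℂ)) (r := (⟨(19530000 / 47989), (-179340 / 47989)⟩ : ℂ) * (⟨(105137298412245240128190000 / 254512138905657273678949), (-1957851143585521324436940 / 254512138905657273678949)⟩ : ℂ) + (⟨(47567714104260000 / 110515985422669), (719793801439860 / 110515985422669)⟩ : ℂ) * (⟨(47567714104260000 / 110515985422669), (719793801439860 / 110515985422669)⟩ : ℂ) + (⟨(105137298412245240128190000 / 254512138905657273678949), (-1957851143585521324436940 / 254512138905657273678949)⟩ : ℂ) * (⟨(19530000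 / 47989), (-179340 / 47989)⟩ : ℂ)) (w := (⟨(705600), (-26040)⟩ : ℂ)) (by linear_combination h) ?_ ?_
  · intro h0
    have := congrArg Complex.re h0
    norm_num at this
  · apply Complex.ext <;> simp only [add_re, add_im, mul_re, mul_im, zero_re, zero_im] <;> norm_num

lemma S5 : cf sg 5 = (⟨(565726181643489196656410621407489608289650000 / 1349818267734951402587592334358097254644309), (-7213472509069579728088998753483429811158540 / 1349818267734951402587592334358097254644309)⟩ : ℂ) := by
  have h := S_rec 5
  simp only [Finset.sum_range_succ, Finset.sum_range_zero, Nat.reduceSub, Nat.reduceAdd, Nat.sub_zero, Nat.sub_self] at h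
  rw [S0, S1, S2, S3, S4, W5] at h
  refine solve (c := (⟨(217), (-30)⟩ : ℂ) + (⟨(217), (-30)⟩ : ℂ)) (r := (⟨(19530000 / 47989), (-179340 / 47989)⟩ : ℂ) * (⟨(248200923129828446645568343165320000 / 586127234015918792059823641008829), (4199787142317771979679271774670260 / 586127234015918792059823641008829)⟩ : ℂ) + (⟨(47567714104260000 / 110515985422669), (719793801439860 / 110515985422669)⟩ : ℂ) * (⟨(105137298412245240128190000 / 254512138905657273678949), (-1957851143585521324436940 / 254512138905657273678949)⟩ : ℂ) + (⟨(105137298412245240128190000 / 254512138905657273678949), (-1957851143585521324436940 / 254512138905657273678949)⟩ : ℂ) * (⟨(47567714104260000 / 110515985422669), (719793801439860 / 110515985422669)⟩ : ℂ) + (⟨(248200923129828446645568343165320000 / 586127234015918792059823641008829), (4199787142317771979679271774670260 / 586127234015918792059823641008829)⟩ : ℂ) * (⟨(19530000 / 47989), (-179340 / 47989)⟩ : ℂ)) (w := (⟨(882000), (-26040)⟩ : ℂ)) (by linear_combination h) ?_ ?_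
  · intro h0
    have := congrArg Complex.re h0
    norm_num at this
  · apply Complex.ext <;> simp only [add_re, add_im, mul_re, mul_im, zero_re, zero_im] <;> norm_num

lemma A_rec (n : ℕ) : ∑ i ∈ Finset.range (n + 1), cf A i *
    (cf sg (n - i) + if n - i = 0 then (-2134 * I) else 0) = if n = 0 then 1 else 0 := by
  have h1 := cf_mul A_an (g := fun z => sg z + (-2134 * I)) (sg_an.add analyticAt_const) n
  simp only [cf_add_const sg_an] at h1
  rw [← h1, ← cf_const]
  apply cf_congr
  filter_upwards [ev_ball] with z hz
  exact inv_mul_cancel₀ (neA hz)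

lemma A_c : (⟨217, -30⟩ : ℂ) + (-2134 * I) = (⟨(217), (-2164)⟩ : ℂ) := by
  apply Complex.ext <;> simp <;> norm_num

lemma A0 : cf A 0 = (⟨(217 / 4729985), (2164 / 4729985)⟩ : ℂ) := by
  have h := A_rec 0
  simp only [Finset.sum_range_succ, Finset.sum_range_zero, Nat.reduceSub, Nat.reduceAdd, Nat.sub_zero, Nat.sub_self, OfNat.ofNat_ne_zero, one_ne_zero, if_true, if_false, add_zero] at h
  rw [S0, A_c] at h
  refine solve (c := (⟨(217), (-2164)⟩ : ℂ)) (r := 0) (w := 1) (by linear_combination h) (mk_ne (by norm_num)) ?_
  apply Complex.ext <;> simp only [add_re, add_im, mul_re, mul_im, zero_re, zero_im, one_re, one_im] <;> norm_num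

lemma A1 : cf A 1 = (⟨(18073775777232 / 214729257694339505), (-3834698581476 / 214729257694339505)⟩ : ℂ) := by
  have h := A_rec 1
  simp only [Finset.sum_range_succ, Finset.sum_range_zero, Nat.reduceSub, Nat.reduceAdd, Nat.sub_zero, Nat.sub_self, OfNat.ofNat_ne_zero, one_ne_zero, if_true, if_false, add_zero] at h
  rw [S0, S1, A0, A_c] at h
  refine solve (c := (⟨(217), (-2164)⟩ : ℂ)) (r := (⟨(217 / 4729985), (2164 / 4729985)⟩ : ℂ) * (⟨(19530000 / 47989), (-179340 / 47989)⟩ : ℂ)) (w := 0) (by linear_combination h) (mk_ne (by norm_num)) ?_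
  apply Complex.ext <;> simp only [add_re, add_im, mul_re, mul_im, zero_re, zero_im, one_re, one_im] <;> norm_num

lemma A2 : cf A 2 = (⟨(39492634776039152100323121072 / 467804486078279184785304845929685), (-14975326580514813857186771796 / 467804486078279184785304845929685)⟩ : ℂ) := by
  have h := A_rec 2
  simp only [Finset.sum_range_succ, Finset.sum_range_zero, Nat.reduceSub, Nat.reduceAdd, Nat.sub_zero, Nat.sub_self, OfNat.ofNat_ne_zero, one_ne_zero, if_true, if_false, add_zero] at h
  rw [S0, S1, S2, A0, A1, A_c] at h
  refine solve (c := (⟨(217), (-2164)⟩ : ℂ)) (r := (⟨(217 / 4729985), (2164 / 4729985)⟩ : ℂ) * (⟨(47567714104260000 / 110515985422669), (719793801439860 / 110515985422669)⟩ : ℂ) + (⟨(18073775777232 / 214729257694339505), (-3834698581476 / 214729257694339505)⟩ : ℂ) * (⟨(19530000 / 47989), (-179340 / 47989)⟩ : ℂ)) (w := 0) (by linear_combination h) (mk_ne (by norm_num)) ?_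
  apply Complex.ext <;> simp only [add_re, add_im, mul_re, mul_im, zero_re, zero_im, one_re, one_im] <;> norm_num

lemma A3 : cf A 3 = (⟨(74056062740652638683341691705321082963962512 / 1019148669095090852902315764280417212488212814345), (-51249810440424547985712819232446080670682116 / 1019148669095090852902315764280417212488212814345)⟩ : ℂ) := by
  have h := A_rec 3
  simp only [Finset.sum_range_succ, Finset.sum_range_zero, Nat.reduceSub, Nat.reduceAdd, Nat.sub_zero, Nat.sub_self, OfNat.ofNat_ne_zero, one_ne_zero, if_true, if_false, add_zero] at h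
  rw [S0, S1, S2, S3, A0, A1, A2, A_c] at h
  refine solve (c := (⟨(217), (-2164)⟩ : ℂ)) (r := (⟨(217 / 4729985), (2164 / 4729985)⟩ : ℂ) * (⟨(105137298412245240128190000 / 254512138905657273678949), (-1957851143585521324436940 / 254512138905657273678949)⟩ : ℂ) + (⟨(18073775777232 / 214729257694339505), (-3834698581476 / 214729257694339505)⟩ : ℂ) * (⟨(47567714104260000 / 110515985422669), (719793801439860 / 110515985422669)⟩ : ℂ) + (⟨(39492634776039152100323121072 / 467804486078279184785304845929685), (-14975326580514813857186771796 / 467804486078279184785304845929685)⟩ : ℂ) * (⟨(19530000 / 47989), (-179340 / 47989)⟩ : ℂ)) (w := 0) (by linear_combination h) (mk_ne (by norm_num)) ?_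
  apply Complex.ext <;> simp only [add_re, add_im, mul_re, mul_im, zero_re, zero_im, one_re, one_im] <;> norm_num

lemma A4 : cf A 4 = (⟨(142588627324016148715593635647512134282839768703815491482352 / 2220295103250660368149432670505277444095038077720229598048122765), (-134045272203965977697285406826707140333750252273521805634036 / 2220295103250660368149432670505277444095038077720229598048122765)⟩ : ℂ) := by
  have h := A_rec 4
  simp only [Finset.sum_range_succ, Finset.sum_range_zero, Nat.reduceSub, Nat.reduceAdd, Nat.sub_zero, Nat.sub_self, OfNat.ofNat_ne_zero, one_ne_zero, if_true, if_false, add_zero] at h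
  rw [S0, S1, S2, S3, S4, A0, A1, A2, A3, A_c] at h
  refine solve (c := (⟨(217), (-2164)⟩ : ℂ)) (r := (⟨(217 / 4729985), (2164 / 4729985)⟩ : ℂ) * (⟨(248200923129828446645568343165320000 / 586127234015918792059823641008829), (4199787142317771979679271774670260 / 586127234015918792059823641008829)⟩ : ℂ) + (⟨(18073775777232 / 214729257694339505), (-3834698581476 / 214729257694339505)⟩ : ℂ) * (⟨(105137298412245240128190000 / 254512138905657273678949), (-1957851143585521324436940 / 254512138905657273678949)⟩ : ℂ) + (⟨(39492634776039152100323121072 / 467804486078279184785304845929685), (-14975326580514813857186771796 / 467804486078279184785304845929685)⟩ : ℂ) * (⟨(47567714104260000 / 110515985422669), (719793801439860 / 110515985422669)⟩ : ℂ) + (⟨(74056062740652638683341691705321082963962512 / 1019148669095090852902315764280417212488212814345), (-51249810440424547985712819232446080670682116 / 1019148669095090852902315764280417212488212814345)⟩ : ℂ) * (⟨(19530000 / 47989), (-179340 / 47989)⟩ : ℂ)) (w := 0) (by linear_combination h) (mk_ne (by norm_num)) ?_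
  apply Complex.ext <;> simp only [add_re, add_im, mul_re, mul_im, zero_re, zero_im, one_re, one_im] <;> norm_num

lemma A5 : cf A 5 = (⟨(242740908380605310320099705268668911320030344793447416206455026226898042192 / 4837086575304056936261917718357229938351167046891349797641474271966701549446305), (-358700553254640889698230836586864271435984428038895386728585867432581694756 / 4837086575304056936261917718357229938351167046891349797641474271966701549446305)⟩ : ℂ) := by
  have h := A_rec 5
  simp only [Finset.sum_range_succ, Finset.sum_range_zero, Nat.reduceSub, Nat.reduceAdd, Nat.sub_zero, Nat.sub_self, OfNat.ofNat_ne_zero, one_ne_zero, if_true, if_false, add_zero] at h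
  rw [S0, S1, S2, S3, S4, S5, A0, A1, A2, A3, A4, A_c] at h
  refine solve (c := (⟨(217), (-2164)⟩ : ℂ)) (r := (⟨(217 / 4729985), (2164 / 4729985)⟩ : ℂ) * (⟨(565726181643489196656410621407489608289650000 / 1349818267734951402587592334358097254644309), (-7213472509069579728088998753483429811158540 / 1349818267734951402587592334358097254644309)⟩ : ℂ) + (⟨(18073775777232 / 214729257694339505), (-3834698581476 / 214729257694339505)⟩ : ℂ) * (⟨(248200923129828446645568343165320000 / 586127234015918792059823641008829), (4199787142317771979679271774670260 / 586127234015918792059823641008829)⟩ : ℂ) + (⟨(39492634776039152100323121072 / 467804486078279184785304845929685), (-14975326580514813857186771796 / 467804486078279184785304845929685)⟩ : ℂ) * (⟨(105137298412245240128190000 / 254512138905657273678949), (-1957851143585521324436940 / 254512138905657273678949)⟩ : ℂ) + (⟨(74056062740652638683341691705321082963962512 / 1019148669095090852902315764280417212488212814345), (-51249810440424547985712819232446080670682116 / 1019148669095090852902315764280417212488212814345)⟩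 : ℂ) * (⟨(47567714104260000 / 110515985422669), (719793801439860 / 110515985422669)⟩ : ℂ) + (⟨(142588627324016148715593635647512134282839768703815491482352 / 2220295103250660368149432670505277444095038077720229598048122765), (-134045272203965977697285406826707140333750252273521805634036 / 2220295103250660368149432670505277444095038077720229598048122765)⟩ : ℂ) * (⟨(19530000 / 47989), (-179340 / 47989)⟩ : ℂ)) (w := 0) (by linear_combination h) (mk_ne (by norm_num)) ?_
  apply Complex.ext <;> simp only [add_re, add_im, mul_re, mul_im, zero_re, zero_im, one_re, one_im] <;> norm_num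

lemma B_rec (n : ℕ) : ∑ i ∈ Finset.range (n + 1), cf B i *
    (cf sg (n - i) + if n - i = 0 then 539 * I else 0) = if n = 0 then 1 else 0 := by
  have h1 := cf_mul B_an (g := fun z => sg z + 539 * I) (sg_an.add analyticAt_const) n
  simp only [cf_add_const sg_an] at h1
  rw [← h1, ← cf_const]
  apply cf_congr
  filter_upwards [ev_ball] with z hz
  exact inv_mul_cancel₀ (neB hz)

lemma B_c : (⟨217, -30⟩ : ℂ) + 539 * I = (⟨(217), (509)⟩ : ℂ) := by
  apply Complex.ext <;> simp <;> norm_num

lemma B0 : cf B 0 = (⟨(217 / 306170), (-509 / 306170)⟩ : ℂ) := by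
  have h := B_rec 0
  simp only [Finset.sum_range_succ, Finset.sum_range_zero, Nat.reduceSub, Nat.reduceAdd, Nat.sub_zero, Nat.sub_self, OfNat.ofNat_ne_zero, one_ne_zero, if_true, if_false, add_zero] at h
  rw [S0, B_c] at h
  refine solve (c := (⟨(217), (509)⟩ : ℂ)) (r := 0) (w := 1) (by linear_combination h) (mk_ne (by norm_num)) ?_
  apply Complex.ext <;> simp only [add_re, add_im, mul_re, mul_im, zero_re, zero_im, one_re, one_im] <;> norm_num

lemma B1 : cf B 1 = (⟨(208991052102 / 224924608322105), (213813776736 / 224924608322105)⟩ : ℂ) := by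
  have h := B_rec 1
  simp only [Finset.sum_range_succ, Finset.sum_range_zero, Nat.reduceSub, Nat.reduceAdd, Nat.sub_zero, Nat.sub_self, OfNat.ofNat_ne_zero, one_ne_zero, if_true, if_false, add_zero] at h
  rw [S0, S1, B0, B_c] at h
  refine solve (c := (⟨(217), (509)⟩ : ℂ)) (r := (⟨(217 / 306170), (-509 / 306170)⟩ : ℂ) * (⟨(19530000 / 47989), (-179340 / 47989)⟩ : ℂ)) (w := 0) (by linear_combination h) (mk_ne (by norm_num)) ?_
  apply Complex.ext <;> simp only [add_re, add_im, mul_re, mul_im, zero_re, zero_im, one_re, one_im] <;> norm_num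

lemma B2 : cf B 2 = (⟨(158981357272692831295314 / 3171852644885122936565516597), (4414763789872154509961772 / 3171852644885122936565516597)⟩ : ℂ) := by
  have h := B_rec 2
  simp only [Finset.sum_range_succ, Finset.sum_range_zero, Nat.reduceSub, Nat.reduceAdd, Nat.sub_zero, Nat.sub_self, OfNat.ofNat_ne_zero, one_ne_zero, if_true, if_false, add_zero] at h
  rw [S0, S1, S2, B0, B1, B_c] at h
  refine solve (c := (⟨(217), (509)⟩ : ℂ)) (r := (⟨(217 / 306170), (-509 / 306170)⟩ : ℂ) * (⟨(47567714104260000 / 110515985422669), (719793801439860 / 110515985422669)⟩ : ℂ) + (⟨(208991052102 / 224924608322105), (213813776736 / 224924608322105)⟩ : ℂ) * (⟨(19530000 / 47989), (-179340 / 47989)⟩ : ℂ)) (w := 0) (by linear_combination h) (mk_ne (by norm_num)) ?_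
  apply Complex.ext <;> simp only [add_re, add_im, mul_re, mul_im, zero_re, zero_im, one_re, one_im] <;> norm_num

lemma B3 : cf B 3 = (⟨(-218394206091152233705671255952762449450 / 223644919867045414774030997589138347148229), (214163787244062160329679709364337901640 / 223644919867045414774030997589138347148229)⟩ : ℂ) := by
  have h := B_rec 3
  simp only [Finset.sum_range_succ, Finset.sum_range_zero, Nat.reduceSub, Nat.reduceAdd, Nat.sub_zero, Nat.sub_self, OfNat.ofNat_ne_zero, one_ne_zero, if_true, if_false, add_zero] at h
  rw [S0, S1, S2, S3, B0, B1, B2, B_c] at h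
  refine solve (c := (⟨(217), (509)⟩ : ℂ)) (r := (⟨(217 / 306170), (-509 / 306170)⟩ : ℂ) * (⟨(105137298412245240128190000 / 254512138905657273678949), (-1957851143585521324436940 / 254512138905657273678949)⟩ : ℂ) + (⟨(208991052102 / 224924608322105), (213813776736 / 224924608322105)⟩ : ℂ) * (⟨(47567714104260000 / 110515985422669), (719793801439860 / 110515985422669)⟩ : ℂ) + (⟨(158981357272692831295314 / 3171852644885122936565516597), (4414763789872154509961772 / 3171852644885122936565516597)⟩ : ℂ) * (⟨(19530000 / 47989), (-179340 / 47989)⟩ : ℂ)) (w := 0) (by linear_combination h) (mk_ne (by norm_num)) ?_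
  apply Complex.ext <;> simp only [add_re, add_im, mul_re, mul_im, zero_re, zero_im, one_re, one_im] <;> norm_num

lemma B4 : cf B 4 = (⟨(-21407973929700119043180351661236141841481311058365830 / 15769033363827235773345249259611227111242886796567194453), (844508624419736851386434330252414238976819454960340 / 15769033363827235773345249259611227111242886796567194453)⟩ : ℂ) := by
  have h := B_rec 4
  simp only [Finset.sum_range_succ, Finset.sum_range_zero, Nat.reduceSub, Nat.reduceAdd, Nat.sub_zero, Nat.sub_self, OfNat.ofNat_ne_zero, one_ne_zero, if_true, if_false, add_zero] at h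
  rw [S0, S1, S2, S3, S4, B0, B1, B2, B3, B_c] at h
  refine solve (c := (⟨(217), (509)⟩ : ℂ)) (r := (⟨(217 / 306170), (-509 / 306170)⟩ : ℂ) * (⟨(248200923129828446645568343165320000 / 586127234015918792059823641008829), (4199787142317771979679271774670260 / 586127234015918792059823641008829)⟩ : ℂ) + (⟨(208991052102 / 224924608322105), (213813776736 / 224924608322105)⟩ : ℂ) * (⟨(105137298412245240128190000 / 254512138905657273678949), (-1957851143585521324436940 / 254512138905657273678949)⟩ : ℂ) + (⟨(158981357272692831295314 / 3171852644885122936565516597), (4414763789872154509961772 / 3171852644885122936565516597)⟩ : ℂ) * (⟨(47567714104260000 / 110515985422669), (719793801439860 / 110515985422669)⟩ : ℂ) + (⟨(-218394206091152233705671255952762449450 / 223644919867045414774030997589138347148229), (214163787244062160329679709364337901640 / 223644919867045414774030997589138347148229)⟩ : ℂ) * (⟨(19530000 / 47989), (-179340 / 47989)⟩ : ℂ)) (w := 0) (by linear_combination h) (mk_ne (by norm_num)) ?_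
  apply Complex.ext <;> simp only [add_re, add_im, mul_re, mul_im, zero_re, zero_im, one_re, one_im] <;> norm_num

lemma B5 : cf B 5 = (⟨(-1108474994935885731855401934610364874239672797699404956401879731810 / 1111862560425355211901160114357316035305602500552992859516803923611621), (-1068079595844397861873675618557904458014772481940516776363279051920 / 1111862560425355211901160114357316035305602500552992859516803923611621)⟩ : ℂ) := by
  have h := B_rec 5
  simp only [Finset.sum_range_succ, Finset.sum_range_zero, Nat.reduceSub, Nat.reduceAdd, Nat.sub_zero, Nat.sub_self, OfNat.ofNat_ne_zero, one_ne_zero, if_true, if_false, add_zero] at h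
  rw [S0, S1, S2, S3, S4, S5, B0, B1, B2, B3, B4, B_c] at h
  refine solve (c := (⟨(217), (509)⟩ : ℂ)) (r := (⟨(217 / 306170), (-509 / 306170)⟩ : ℂ) * (⟨(565726181643489196656410621407489608289650000 / 1349818267734951402587592334358097254644309), (-7213472509069579728088998753483429811158540 / 1349818267734951402587592334358097254644309)⟩ : ℂ) + (⟨(208991052102 / 224924608322105), (213813776736 / 224924608322105)⟩ : ℂ) * (⟨(248200923129828446645568343165320000 / 586127234015918792059823641008829), (4199787142317771979679271774670260 / 586127234015918792059823641008829)⟩ : ℂ) + (⟨(158981357272692831295314 / 3171852644885122936565516597), (4414763789872154509961772 / 3171852644885122936565516597)⟩ : ℂ) * (⟨(105137298412245240128190000 / 254512138905657273678949), (-1957851143585521324436940 / 254512138905657273678949)⟩ : ℂ) + (⟨(-218394206091152233705671255952762449450 / 223644919867045414774030997589138347148229), (214163787244062160329679709364337901640 / 223644919867045414774030997589138347148229)⟩ : ℂ) * (⟨(47567714104260000 / 110515985422669), (719793801439860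 / 110515985422669)⟩ : ℂ) + (⟨(-21407973929700119043180351661236141841481311058365830 / 15769033363827235773345249259611227111242886796567194453), (844508624419736851386434330252414238976819454960340 / 15769033363827235773345249259611227111242886796567194453)⟩ : ℂ) * (⟨(19530000 / 47989), (-179340 / 47989)⟩ : ℂ)) (w := 0) (by linear_combination h) (mk_ne (by norm_num)) ?_
  apply Complex.ext <;> simp only [add_re, add_im, mul_re, mul_im, zero_re, zero_im, one_re, one_im] <;> norm_num

lemma G1 : cf G 1 = (⟨(149163745571223778921764 / 11840432594772494316877585), (-493699534403452648462548 / 11840432594772494316877585)⟩ : ℂ) := by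
  have h := cf_lin A_an B_an 525 (-34) 1
  rw [A1, B1] at h
  refine h.trans ?_
  apply Complex.ext <;> simp only [add_re, add_im, mul_re, mul_im, neg_re, neg_im, re_ofNat, im_ofNat] <;> norm_num

lemma G3 : cf G 3 = (⟨(751739355430426963354171002067117744950905609626816452470799780 / 10535839661595536096990574985776000152098573342422729825947913797), (-621184978268987618946888811486507134218834015727739201854844020 / 10535839661595536096990574985776000152098573342422729825947913797)⟩ : ℂ) := by
  have h := cf_lin A_an B_an 525 (-34) 3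
  rw [A3, B3] at h
  refine h.trans ?_
  apply Complex.ext <;> simp only [add_re, add_im, mul_re, mul_im, neg_re, neg_im, re_ofNat, im_ofNat] <;> norm_num

lemma G5 : cf G 5 = (⟨(2823870080523052553164167271599136617708590853827800495610456216006033708475912485554701746698595402100 / 46874941640163276359434942199253181747623284392496689411758136279434325318800047023237795904691339967277), (-293949135045811541599770302453774373407474357744859379663275455503075263966859218245522382298637787300 / 46874941640163276359434942199253181747623284392496689411758136279434325318800047023237795904691339967277)⟩ : ℂ) := by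
  have h := cf_lin A_an B_an 525 (-34) 5
  rw [A5, B5] at h
  refine h.trans ?_
  apply Complex.ext <;> simp only [add_re, add_im, mul_re, mul_im, neg_re, neg_im, re_ofNat, im_ofNat] <;> norm_num

/-- The counterexample. -/
noncomputable def F (z : ℂ) : ℂ := (cf G 1)⁻¹ * G z + (-((cf G 1)⁻¹ * G 0))

lemma G1_ne : cf G 1 ≠ 0 := by
  rw [G1]
  exact mk_ne (by norm_num)

lemma G_an : AnalyticAt ℂ G 0 := analytic_of fun _ h => G_diff h

lemma cf_F (n : ℕ) (hn : n ≠ 0) : cf F n = (cf G 1)⁻¹ * cf G n := by
  have h := cf_add_const (f := fun z => (cf G 1)⁻¹ * G z) (analyticAt_const.mul G_an)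
    (-((cf G 1)⁻¹ * G 0)) n
  have h2 := cf_lin G_an G_an (cf G 1)⁻¹ 0 n
  simp only [zero_mul, add_zero] at h2
  rw [h2, if_neg hn, add_zero] at h
  exact h

lemma F1 : cf F 1 = 1 := by
  rw [cf_F 1 one_ne_zero]
  exact inv_mul_cancel₀ G1_ne

lemma F3 : cf F 3 = (⟨(2506466673213853170632039601926125918752252252534969601969 / 1416475962758213368368682162433491462696486935292797898465), (1666595550764430180829625314599264202354070686397369430108 / 1416475962758213368368682162433491462696486935292797898465)⟩ : ℂ) := by
  rw [cf_F 3 (by norm_num), inv_mul_eq_iff_eq_mul₀ G1_ne, G1, G3]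
  apply Complex.ext <;> simp only [mul_re, mul_im] <;> norm_num

lemma F5 : cf F 5 = (⟨(677879207914034250371375434142313843724617258791520419732654624905100233166375727249539025180773 / 1260406957995224808109479929329816723186005822258333112835020450517041725894296196928147396937813), (1616229737827466249983545531506321848180862030865626716042443020865348708579267282982993830936936 / 1260406957995224808109479929329816723186005822258333112835020450517041725894296196928147396937813)⟩ : ℂ) := by
  rw [cf_F 5 (by norm_num), inv_mul_eq_iff_eq_mul₀ G1_ne, G1, G5]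
  apply Complex.ext <;> simp only [mul_re, mul_im] <;> norm_num

lemma norm_le_of {x y u : ℝ} (hu : 0 ≤ u) (h : x * x + y * y ≤ u ^ 2) : ‖(⟨x, y⟩ : ℂ)‖ ≤ u := by
  apply abs_le_of_sq_le_sq' _ hu |>.2
  rw [Complex.sq_norm, normSq_mk]
  exact h

theorem fails : 1 + ‖cf F 3‖ + ‖cf F 5‖ < ‖cf F 3‖ ^ 2 := by
  have h3 : ‖cf F 3‖ ≤ (2124970348861 / 1000000000000) := by
    rw [F3]
    exact norm_le_of (by norm_num) (by norm_num)
  have h5 : ‖cf F 5‖ ≤ (695264314643 / 500000000000) := by
    rw [F5]
    exact norm_le_of (by norm_num) (by norm_num)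
  have h : (1 : ℝ) + (2124970348861 / 1000000000000) + (695264314643 / 500000000000) < ‖cf F 3‖ ^ 2 := by
    rw [F3, Complex.sq_norm, normSq_mk]
    norm_num
  linarith

theorem main : ¬ (∀ f : ℂ → ℂ, DifferentiableOn ℂ f (Metric.ball (0 : ℂ) 1) →
      Set.InjOn f (Metric.ball (0 : ℂ) 1) → f 0 = 0 → deriv f 0 = 1 →
      ∀ n : ℕ, 1 ≤ n →
        ‖iteratedDeriv n f 0 / ((Nat.factorial n : ℕ) : ℂ)‖ ^ 2 ≤
          ∑ k ∈ Finset.range n,
            ‖iteratedDeriv (2 * k + 1) f 0 / ((Nat.factorial (2 * k + 1) : ℕ) : ℂ)‖) := by
  intro H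
  have hd : DifferentiableOn ℂ F (Metric.ball (0 : ℂ) 1) := fun z hz =>
    (((G_diff (by simpa using hz)).const_mul _).add_const _).differentiableWithinAt
  have hi : Set.InjOn F (Metric.ball (0 : ℂ) 1) := by
    intro z hz w hw h
    apply G_inj (by simpa using hz) (by simpa using hw)
    unfold F at h
    exact mul_left_cancel₀ (inv_ne_zero G1_ne) (add_right_cancel h)
  have h0 : F 0 = 0 := by unfold F; ring
  have h1 : deriv F 0 = 1 := by
    have := F1
    simpa [cf] using this
  have h := H F hd hi h0 h1 3 (by norm_num)
  have e : ∀ k, iteratedDeriv k F 0 / ((Nat.factorial k : ℕ) : ℂ) = cf F k := fun k => rfl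
  simp only [e, Finset.sum_range_succ, Finset.sum_range_zero, Nat.reduceMul, Nat.reduceAdd,
    zero_add, mul_zero, mul_one, F1, norm_one] at h
  linarith [fails]

end Pool.Agent.H45Z.Univ
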